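import Mathlib

/-!
Invariance of the integral over the unit cube of a periodic function under `GL(n, ℤ)` (helper81).
-/

open MeasureTheory Set Filter Topology

noncomputable section

namespace Pool.Agent.H93.CMC

section cube

variable {n : ℕ} (A : Matrix (Fin n) (Fin n) ℤ)

lemma cast_mulVec (v : Fin n → ℤ) :
    (A.map (Int.cast : ℤ → ℝ)).mulVec (fun i => (v i : ℝ)) = fun i => ((A.mulVec v i : ℤ) : ℝ) := by
  funext i
  simp [Matrix.mulVec, dotProduct]

lemma map_mul_cast (A B : Matrix (Fin n) (Fin n) ℤ) (h : A * B = 1) :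
    A.map (Int.cast : ℤ → ℝ) * B.map (Int.cast : ℤ → ℝ) = 1 := by
  have h1 := congrArg (fun M : Matrix (Fin n) (Fin n) ℤ => M.map (Int.castRingHom ℝ)) h
  simp only [Matrix.map_mul] at h1
  rw [show (1 : Matrix (Fin n) (Fin n) ℤ).map (Int.castRingHom ℝ) = 1 from
    Matrix.map_one _ (map_zero _) (map_one _)] at h1
  exact h1

lemma mem_lattice (x : Fin n → ℝ) :
    x ∈ Submodule.span ℤ (range (Pi.basisFun ℝ (Fin n))) ↔ ∃ k : Fin n → ℤ, x = fun i => (k i : ℝ) := by
  rw [Module.Basis.mem_span_iff_repr_mem]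
  constructor
  · intro h
    choose k hk using h
    refine ⟨k, ?_⟩
    funext i
    have := hk i
    simpa using this.symm
  · rintro ⟨k, rfl⟩ i
    exact ⟨k i, by simp⟩

theorem cube_inv (hA : A.det = 1 ∨ A.det = -1)
    (f : (Fin n → ℝ) → ℝ) (hf : Continuous f)
    (hper : ∀ (k : Fin n → ℤ) (x : Fin n → ℝ), f (fun i => x i + k i) = f x) :
    ∫ x in Icc (0 : Fin n → ℝ) 1, f ((A.map (Int.cast : ℤ → ℝ)).mulVec x) =
      ∫ x in Icc (0 : Fin n → ℝ) 1, f x := by
  have hu : IsUnit A.det := by
    rcases hA with h | h <;> rw [h]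
    · exact isUnit_one
    · exact isUnit_one.neg
  set B := A⁻¹ with hB
  have hAB : A * B = 1 := Matrix.mul_nonsing_inv A hu
  have hBA : B * A = 1 := Matrix.nonsing_inv_mul A hu
  set Ar := A.map (Int.cast : ℤ → ℝ) with hAr
  set Br := B.map (Int.cast : ℤ → ℝ) with hBr
  have h1 : Ar * Br = 1 := map_mul_cast A B hAB
  have h2 : Br * Ar = 1 := map_mul_cast B A hBA
  set L : (Fin n → ℝ) ≃ₗ[ℝ] (Fin n → ℝ) := Matrix.toLin'OfInv h2 h1 with hL
  have hLap : ∀ x, L x = Ar.mulVec x := fun x => rfl
  -- measure preserving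
  have hdet : Ar.det = ((A.det : ℤ) : ℝ) := by
    have := (Int.castRingHom ℝ).map_det A
    simpa [hAr] using this.symm
  have habs : |Ar.det| = 1 := by
    rw [hdet]; rcases hA with h | h <;> rw [h] <;> simp
  have hne : Ar.det ≠ 0 := by
    intro h0; rw [h0] at habs; simp at habs
  have hmap : Measure.map (Matrix.toLin' Ar) volume = volume := by
    rw [Real.map_matrix_volume_pi_eq_smul_volume_pi hne, abs_inv, habs]
    simp
  have hLc : Continuous L := LinearMap.continuous_of_finiteDimensional L.toLinearMap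
  have hLsc : Continuous L.symm := LinearMap.continuous_of_finiteDimensional L.symm.toLinearMap
  have hmp : MeasurePreserving L volume volume := ⟨hLc.measurable, hmap⟩
  have hemb : MeasurableEmbedding L :=
    (Homeomorph.mk L.toEquiv hLc hLsc).measurableEmbedding
  -- the two bases of the lattice
  set b := Pi.basisFun ℝ (Fin n) with hb
  have hspan : Submodule.span ℤ (range (b.map L)) = Submodule.span ℤ (range b) := by
    rw [← ZSpan.map]
    ext x
    rw [Submodule.mem_map]
    constructor
    · rintro ⟨y, hy, rfl⟩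
      obtain ⟨k, hk⟩ := (mem_lattice y).1 hy
      rw [mem_lattice]
      refine ⟨A.mulVec k, ?_⟩
      rw [hk]
      exact (hLap _).trans (cast_mulVec A k)
    · intro hx
      obtain ⟨k, hk⟩ := (mem_lattice x).1 hx
      refine ⟨fun i => ((B.mulVec k i : ℤ) : ℝ), (mem_lattice _).2 ⟨_, rfl⟩, ?_⟩
      rw [← cast_mulVec B k]
      change L (Br.mulVec _) = _
      rw [hLap, Matrix.mulVec_mulVec, h1, Matrix.one_mulVec, hk]
  have hd1 := ZSpan.isAddFundamentalDomain b (volume : Measure (Fin n → ℝ))
  have hd2 : IsAddFundamentalDomain (Submodule.span ℤ (range b)) (ZSpan.fundamentalDomain (b.map L))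
      (volume : Measure (Fin n → ℝ)) := by
    have := ZSpan.isAddFundamentalDomain (b.map L) (volume : Measure (Fin n → ℝ))
    rwa [hspan] at this
  have hinv : ∀ (g : Submodule.span ℤ (range b)) (x : Fin n → ℝ), f (g +ᵥ x) = f x := by
    rintro ⟨g, hg⟩ x
    obtain ⟨k, hk⟩ := (mem_lattice g).1 hg
    rw [← hper k x]
    congr 1
    change g + x = _
    rw [hk]
    funext i
    simp [add_comm]
  haveI : VAddInvariantMeasure (Submodule.span ℤ (range b)) (Fin n → ℝ) volume :=
    ⟨fun c s _ => measure_preimage_add volume (c : Fin n → ℝ) s⟩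
  have key := hd2.setIntegral_eq hd1 (f := f) hinv
  have hcube : ZSpan.fundamentalDomain b = Set.pi univ fun _ : Fin n => Ico (0:ℝ) 1 := by
    ext x
    simp [ZSpan.mem_fundamentalDomain, hb]
  have hae : (ZSpan.fundamentalDomain b : Set (Fin n → ℝ)) =ᵐ[volume] Icc (0 : Fin n → ℝ) 1 := by
    rw [hcube, volume_pi]
    exact Measure.univ_pi_Ico_ae_eq_Icc
  rw [← setIntegral_congr_set hae, ← setIntegral_congr_set hae, ← key, ← ZSpan.map_fundamentalDomain]
  have := hmp.setIntegral_preimage_emb hemb f (L '' ZSpan.fundamentalDomain b)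
  rw [preimage_image_eq _ L.injective] at this
  exact this

end cube

end Pool.Agent.H93.CMC
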