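import Pool.Agent.H81.CMC.PartM
import Pool.Agent.H93.CMC.Geo

/-!
The volume measure of a closed Riemannian manifold fibred over the circle (helper81).
-/

open MeasureTheory Set Filter Topology

noncomputable section

namespace Pool.Agent.H93.CMC

variable {n : ℕ}

/-- on a convex set on which `u` has nonzero derivative in the direction `w`, level sets are null -/
lemma level_null81_local {u : E n → ℝ} (hu : ContDiff ℝ (⊤ : ℕ∞) u) (w : E n) {B : Set (E n)}
    (hB : Convex ℝ B) (hBm : MeasurableSet B) (h : ∀ x ∈ B, fderiv ℝ u x w ≠ 0) (c : ℝ) :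
    volume ({x | u x = c} ∩ B) = 0 := by
  have hud : Differentiable ℝ u := hu.differentiable (by simp)
  have hline : ∀ z ∈ B, ∀ s : ℝ, z + s • w ∈ B → u z = c → u (z + s • w) = c → s = 0 := by
    intro z hz s hs h1 h2
    by_contra hs0
    -- Rolle on t ↦ u (z + t • (s • w)), t ∈ [0,1]
    let f : ℝ → ℝ := fun t => u (z + t • (s • w))
    have hf : ∀ t, HasDerivAt f (fderiv ℝ u (z + t • (s • w)) (s • w)) t := by
      intro t
      have h3 : HasDerivAt (fun t : ℝ => z + t • (s • w)) (s • w) t := by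
        have := ((hasDerivAt_id t).smul_const (s • w)).const_add z
        simpa using this
      exact (hud (z + t • (s • w))).hasFDerivAt.comp_hasDerivAt t h3
    have hf01 : f 0 = f 1 := by
      show u (z + (0 : ℝ) • (s • w)) = u (z + (1 : ℝ) • (s • w))
      rw [zero_smul, add_zero, one_smul, h1, h2]
    obtain ⟨t, ht, ht'⟩ := exists_hasDerivAt_eq_zero (f := f) zero_lt_one
      (fun t _ => (hf t).continuousAt.continuousWithinAt) hf01 (fun t _ => hf t)
    have hmem : z + t • (s • w) ∈ B := by
      have := hB hz hs (a := 1 - t) (b := t) (by linarith [ht.2]) ht.1.le (by ring)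
      have e : (1 - t) • z + t • (z + s • w) = z + t • (s • w) := by
        rw [sub_smul, one_smul, smul_add]; abel
      rwa [e] at this
    rw [map_smul, smul_eq_mul] at ht'
    rcases mul_eq_zero.1 ht' with h3 | h3
    · exact hs0 h3
    · exact h _ hmem h3
  refine Measure.addHaar_eq_zero_of_disjoint_translates volume (fun k : ℕ => (1 / ((k : ℝ) + 1)) • w) ?_ ?_ ?_
  · refine (Metric.isBounded_closedBall (x := (0 : E n)) (r := ‖w‖)).subset ?_
    rintro _ ⟨k, rfl⟩
    rw [mem_closedBall_zero_iff, norm_smul]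
    have h1 : ‖(1 / ((k : ℝ) + 1))‖ ≤ 1 := by
      rw [Real.norm_eq_abs, abs_of_nonneg (by positivity)]
      rw [div_le_one (by positivity)]
      linarith [(Nat.cast_nonneg k : (0 : ℝ) ≤ k)]
    calc _ ≤ 1 * ‖w‖ := mul_le_mul_of_nonneg_right h1 (norm_nonneg _)
      _ = ‖w‖ := one_mul _
  · intro k l hkl
    show Disjoint _ _
    rw [Set.disjoint_left]
    intro y hy1 hy2
    simp only [singleton_add] at hy1 hy2
    obtain ⟨z, ⟨hz1, hz2⟩, rfl⟩ := hy1
    obtain ⟨z', ⟨hz1', hz2'⟩, hzz⟩ := hy2
    have hzz : (1 / ((l : ℝ) + 1)) • w + z' = (1 / ((k : ℝ) + 1)) • w + z := hzz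
    have e1 : z' = z + ((1 / ((k : ℝ) + 1)) - (1 / ((l : ℝ) + 1))) • w := by
      have : z' = ((1 / ((k : ℝ) + 1)) • w + z) - (1 / ((l : ℝ) + 1)) • w := by
        rw [← hzz]; simp
      rw [this, sub_smul]; abel
    have e2 := hline z hz2 _ (e1 ▸ hz2') hz1 (e1 ▸ hz1')
    have e3 : (1 / ((k : ℝ) + 1)) = (1 / ((l : ℝ) + 1)) := by linarith
    have e4 : (k : ℝ) + 1 = (l : ℝ) + 1 := by
      rw [div_eq_div_iff (by positivity) (by positivity)] at e3
      linarith
    exact hkl (by exact_mod_cast (show (k : ℝ) = l by linarith))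
  · exact (isClosed_eq hu.continuous continuous_const).measurableSet.inter hBm

/-- level sets of functions without critical points are null -/
lemma level_null81 {u : E n → ℝ} (hu : ContDiff ℝ (⊤ : ℕ∞) u) (h : ∀ x, fderiv ℝ u x ≠ 0) (c : ℝ) :
    volume {x | u x = c} = 0 := by
  refine measure_null_of_locally_null _ fun x _ => ?_
  obtain ⟨w, hw⟩ : ∃ w, fderiv ℝ u x w ≠ 0 := by
    by_contra hcon
    push Not at hcon
    exact h x (ContinuousLinearMap.ext hcon)
  have hc : Continuous fun y => fderiv ℝ u y w :=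
    (hu.continuous_fderiv (by simp)).clm_apply continuous_const
  have ho : IsOpen {y | fderiv ℝ u y w ≠ 0} := isOpen_ne_fun hc continuous_const
  obtain ⟨ε, hε, hsub⟩ := Metric.isOpen_iff.1 ho x hw
  refine ⟨{y | u y = c} ∩ Metric.ball x ε, ?_, ?_⟩
  · exact inter_mem_nhdsWithin _ (Metric.ball_mem_nhds x hε)
  · exact level_null81_local hu w (convex_ball x ε) measurableSet_ball (fun y hy => hsub hy) c

section measure

variable {M : Type*} [TopologicalSpace M] [MeasurableSpace M] [BorelSpace M] {X : RiemMfd n M}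
  {μ : Measure M}

lemma dens_ofReal_meas (G : Metric n) : Measurable fun x => ENNReal.ofReal (dens G x) :=
  (dens_contDiff G).continuous.measurable.ennreal_ofReal

omit [MeasurableSpace M] [BorelSpace M] in
lemma range_open (i : X.ι) : IsOpen (range (X.param i)) := (X.isOpenEmbedding i).isOpen_range

lemma vol_finite [CompactSpace M] (hμ : IsVolume X μ) : IsFiniteMeasure μ := by
  choose i x hx using X.cover
  let U : M → Set M := fun p => X.param (i p) '' Metric.ball (x p) 1
  have hUo : ∀ p, IsOpen (U p) := fun p => (X.isOpenEmbedding (i p)).isOpenMap _ Metric.isOpen_ball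
  have hU : ∀ p, U p ∈ 𝓝 p := fun p =>
    (hUo p).mem_nhds ⟨x p, Metric.mem_ball_self one_pos, hx p⟩
  obtain ⟨t, ht⟩ := CompactSpace.elim_nhds_subcover U hU
  refine ⟨?_⟩
  have h1 : μ univ ≤ ∑ p ∈ t, μ (U p) := by
    rw [← top_eq_univ, ← ht]
    exact measure_biUnion_finset_le t U
  refine h1.trans_lt (ENNReal.sum_lt_top.2 fun p _ => ?_)
  rw [hμ (i p) (U p) (hUo p).measurableSet (image_subset_range _ _),
    (X.isOpenEmbedding (i p)).injective.preimage_image]
  have h2 : IntegrableOn (dens (X.metric (i p))) (Metric.ball (x p) 1) volume :=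
    ((dens_contDiff (X.metric (i p))).continuous.locallyIntegrable.integrableOn_isCompact
      (isCompact_closedBall (x p) 1)).mono_set Metric.ball_subset_closedBall
  exact h2.lintegral_lt_top

lemma vol_null [CompactSpace M] (hμ : IsVolume X μ) {s : Set M} (hs : MeasurableSet s)
    (h : ∀ i, volume (X.param i ⁻¹' s) = 0) : μ s = 0 := by
  choose i x hx using X.cover
  have hU : ∀ p : M, range (X.param (i p)) ∈ 𝓝 p := fun p =>
    (range_open (i p)).mem_nhds ⟨x p, hx p⟩
  obtain ⟨t, ht⟩ := CompactSpace.elim_nhds_subcover (fun p => range (X.param (i p))) hU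
  have h1 : s ⊆ ⋃ p ∈ t, s ∩ range (X.param (i p)) := by
    intro q hq
    have : q ∈ ⋃ p ∈ t, range (X.param (i p)) := by rw [ht]; trivial
    simp only [mem_iUnion] at this ⊢
    obtain ⟨p, hp, hq'⟩ := this
    exact ⟨p, hp, hq, hq'⟩
  refine measure_mono_null h1 ?_
  refine le_antisymm ((measure_biUnion_finset_le t _).trans (le_of_eq ?_)) bot_le
  refine Finset.sum_eq_zero fun p _ => ?_
  rw [hμ (i p) _ (hs.inter (range_open (i p)).measurableSet) inter_subset_right]
  have h2 : volume (X.param (i p) ⁻¹' (s ∩ range (X.param (i p)))) = 0 :=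
    measure_mono_null (preimage_mono inter_subset_left) (h (i p))
  exact setLIntegral_measure_zero _ _ h2

lemma vol_pos (hμ : IsVolume X μ) {s : Set M} (hs : IsOpen s) (hne : s.Nonempty) : 0 < μ s := by
  obtain ⟨q, hq⟩ := hne
  obtain ⟨i, x, hx⟩ := X.cover q
  have hso : IsOpen (s ∩ range (X.param i)) := hs.inter (range_open i)
  have h1 := hμ i _ hso.measurableSet inter_subset_right
  refine lt_of_lt_of_le ?_ (measure_mono (inter_subset_left (t := range (X.param i))))
  rw [h1]
  have h2 : IsOpen (X.param i ⁻¹' (s ∩ range (X.param i))) :=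
    hso.preimage (X.isOpenEmbedding i).continuous
  have h3 : 0 < volume (X.param i ⁻¹' (s ∩ range (X.param i))) :=
    h2.measure_pos volume ⟨x, by rw [mem_preimage, hx]; exact ⟨hq, ⟨x, hx⟩⟩⟩
  rw [pos_iff_ne_zero]
  intro h0
  rw [setLIntegral_eq_zero_iff h2.measurableSet (dens_ofReal_meas _)] at h0
  have h4 : ∀ᵐ y ∂volume, y ∉ X.param i ⁻¹' (s ∩ range (X.param i)) := by
    filter_upwards [h0] with y hy hy'
    have := hy hy'
    rw [ENNReal.ofReal_eq_zero] at this
    exact absurd (dens_pos (X.metric i) y) (not_lt.2 this)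
  have h5 : volume (X.param i ⁻¹' (s ∩ range (X.param i))) = 0 := by
    have := ae_iff.1 h4
    simp only [not_not] at this
    exact this
  exact h3.ne' h5

end measure

end Pool.Agent.H93.CMC
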