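import Pool.Agent.H93.CMC.MIDefs
import Pool.Agent.H93.CMC.MGen2
import Pool.Agent.H81.CMC.MeasM

/-!
Cutoff functions near a closed set of `n`-dimensional Hausdorff measure zero (helper81).
-/

open MeasureTheory Set Filter Topology Matrix

noncomputable section

namespace Pool.Agent.H93.CMC

variable {n : ℕ}

/-- Cauchy-Schwarz: components of a vector of length at most one -/
lemma comp_le (G : Metric n) (x : E n) (w : E n) (hw : w ⬝ᵥ ((G.g x) *ᵥ w) ≤ 1)
    (l : Fin (n + 1)) : |w l| ≤ √((G.g x)⁻¹ l l) := by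
  have hP := G.posDef x
  have hu : IsUnit (G.g x).det := hP.det_pos.ne'.isUnit
  set a : E n := (G.g x)⁻¹ *ᵥ Pi.single l 1 with ha
  have hGa : (G.g x) *ᵥ a = Pi.single l 1 := by
    rw [ha, Matrix.mulVec_mulVec, Matrix.mul_nonsing_inv _ hu, Matrix.one_mulVec]
  have hsym : (G.g x).transpose = G.g x := by
    have := hP.isHermitian
    rw [Matrix.IsHermitian, Matrix.conjTranspose_eq_transpose_of_trivial] at this
    exact this
  have hal : a l = (G.g x)⁻¹ l l := by
    rw [ha]; simp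
  have haw : a ⬝ᵥ ((G.g x) *ᵥ w) = w l := by
    rw [Matrix.dotProduct_mulVec, ← Matrix.mulVec_transpose, hsym, hGa]
    simp
  have hq : ∀ t : ℝ, 0 ≤ (G.g x)⁻¹ l l * (t * t) + (2 * w l) * t + w ⬝ᵥ ((G.g x) *ᵥ w) := by
    intro t
    have h0 := hP.posSemidef.dotProduct_mulVec_nonneg (t • a + w)
    simp only [star_trivial] at h0
    have e : (t • a + w) ⬝ᵥ ((G.g x) *ᵥ (t • a + w)) =
        (G.g x)⁻¹ l l * (t * t) + (2 * w l) * t + w ⬝ᵥ ((G.g x) *ᵥ w) := by
      rw [Matrix.mulVec_add, Matrix.mulVec_smul, hGa, add_dotProduct, dotProduct_add,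
        dotProduct_add, smul_dotProduct, smul_dotProduct, haw, dotProduct_smul, dotProduct_smul,
        dotProduct_single, dotProduct_single, hal]
      simp only [smul_eq_mul]
      ring
    rw [← e]; exact h0
  have hd := discrim_le_zero hq
  rw [discrim] at hd
  apply Real.abs_le_sqrt
  have hll : 0 < (G.g x)⁻¹ l l := hP.inv.diag_pos
  nlinarith

/-- the model bump function -/
def beta0 (n : ℕ) : ContDiffBump (0 : E n) := ⟨1, 2, one_pos, one_lt_two⟩

/-- bump function at `c` of radius `r` -/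
def bmp (c : E n) (r : ℝ) (y : E n) : ℝ := beta0 n (r⁻¹ • (y - c))

lemma bmp_smooth (c : E n) (r : ℝ) : ContDiff ℝ (⊤ : ℕ∞) (bmp c r) := by
  have h1 : ContDiff ℝ (⊤ : ℕ∞) fun y : E n => r⁻¹ • (y - c) :=
    (contDiff_id.sub contDiff_const).const_smul r⁻¹
  exact (beta0 n).contDiff.comp h1

lemma bmp_nonneg (c : E n) (r : ℝ) (y : E n) : 0 ≤ bmp c r y := (beta0 n).nonneg

lemma bmp_one {c : E n} {r : ℝ} (hr : 0 < r) {y : E n} (hy : y ∈ _root_.Metric.ball c r) :
    bmp c r y = 1 := by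
  unfold bmp
  apply (beta0 n).one_of_mem_closedBall
  rw [mem_closedBall_zero_iff, norm_smul, Real.norm_eq_abs, abs_of_pos (inv_pos.2 hr)]
  rw [_root_.Metric.mem_ball, dist_eq_norm] at hy
  show r⁻¹ * ‖y - c‖ ≤ 1
  rw [inv_mul_le_iff₀ hr]; linarith

lemma bmp_out {c : E n} {r : ℝ} (hr : 0 < r) {y : E n}
    (hy : y ∉ _root_.Metric.closedBall c (2 * r)) : bmp c r y = 0 := by
  unfold bmp
  apply (beta0 n).zero_of_le_dist
  rw [dist_zero_right, norm_smul, Real.norm_eq_abs, abs_of_pos (inv_pos.2 hr)]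
  rw [_root_.Metric.mem_closedBall, dist_eq_norm, not_le] at hy
  show 2 ≤ r⁻¹ * ‖y - c‖
  rw [le_inv_mul_iff₀ hr]; linarith

lemma bmp_tsupport {c : E n} {r : ℝ} (hr : 0 < r) :
    tsupport (bmp c r) ⊆ _root_.Metric.closedBall c (2 * r) := by
  refine closure_minimal (fun y hy => ?_) _root_.Metric.isClosed_closedBall
  by_contra h
  exact hy (bmp_out hr h)

lemma bmp_compact {c : E n} {r : ℝ} (hr : 0 < r) : HasCompactSupport (bmp c r) :=
  (isCompact_closedBall c (2 * r)).of_isClosed_subset (isClosed_tsupport _) (bmp_tsupport hr)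

lemma pd_beta_bdd (n : ℕ) : ∃ C : ℝ, 0 ≤ C ∧ ∀ l y, |pd l (beta0 n) y| ≤ C := by
  have hs : ContDiff ℝ (⊤ : ℕ∞) (beta0 n) := (beta0 n).contDiff
  have hc : Continuous (fderiv ℝ (beta0 n)) := hs.continuous_fderiv (by simp)
  have hcs : HasCompactSupport (fderiv ℝ (beta0 n)) := (beta0 n).hasCompactSupport.fderiv (𝕜 := ℝ)
  obtain ⟨C, hC⟩ := hc.bounded_above_of_compact_support hcs
  refine ⟨C, (norm_nonneg _).trans (hC 0), fun l y => ?_⟩
  unfold pd
  have h1 := (fderiv ℝ (beta0 n) y).le_opNorm (Pi.single l 1)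
  have h2 : ‖(Pi.single l (1 : ℝ) : E n)‖ = 1 := by rw [Pi.norm_single]; simp
  rw [h2, mul_one, Real.norm_eq_abs] at h1
  exact h1.trans (hC y)

lemma pd_bmp (c : E n) (r : ℝ) (l : Fin (n + 1)) (y : E n) :
    pd l (bmp c r) y = r⁻¹ * pd l (beta0 n) (r⁻¹ • (y - c)) := by
  have h1 : HasFDerivAt (fun y : E n => r⁻¹ • (y - c)) (r⁻¹ • ContinuousLinearMap.id ℝ (E n)) y :=
    ((hasFDerivAt_id y).sub_const c).const_smul r⁻¹
  have hs : ContDiff ℝ (⊤ : ℕ∞) (beta0 n) := (beta0 n).contDiff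
  have h2 : HasFDerivAt (beta0 n) (fderiv ℝ (beta0 n) (r⁻¹ • (y - c))) (r⁻¹ • (y - c)) :=
    (hs.differentiable (by simp) _).hasFDerivAt
  have h3 : HasFDerivAt (bmp c r) _ y := h2.comp y h1
  unfold pd
  rw [h3.fderiv]
  simp

variable {M : Type*} [TopologicalSpace M] [MeasurableSpace M] [BorelSpace M]

/-- a nonnegative smooth function with small support and small gradient -/
structure Small (X : RiemMfd n M) (μ : Measure M) (δ : ENNReal) (S : M → ℝ) : Prop where
  smooth : SmoothM X S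
  nonneg : ∀ q, 0 ≤ S q
  meas : μ {q | S q ≠ 0} ≤ δ
  bound : ∃ g : M → ℝ, Measurable g ∧ (∀ q, 0 ≤ g q) ∧
    (∀ i x (ν : E n), ν ⬝ᵥ ((X.metric i).g x *ᵥ ν) ≤ 1 →
      |∑ k, pd k (fun z => S (X.param i z)) x * ν k| ≤ g (X.param i x)) ∧
    ∫⁻ q, ENNReal.ofReal (g q) ∂μ ≤ δ

variable {X : RiemMfd n M} {μ : Measure M}

omit [BorelSpace M] in
lemma Small.mono {δ δ' : ENNReal} {S : M → ℝ} (h : Small X μ δ S) (hδ : δ ≤ δ') :
    Small X μ δ' S := by
  obtain ⟨g, h1, h2, h3, h4⟩ := h.bound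
  exact ⟨h.smooth, h.nonneg, h.meas.trans hδ, g, h1, h2, h3, h4.trans hδ⟩

omit [BorelSpace M] in
lemma Small.zero : Small X μ 0 (fun _ => 0) := by
  refine ⟨fun i => contDiff_const, fun _ => le_rfl, by simp, fun _ => 0, measurable_const,
    fun _ => le_rfl, ?_, by simp⟩
  intro i x ν _
  have : ∀ k, pd k (fun _ : E n => (0 : ℝ)) x = 0 := by
    intro k
    unfold pd
    simp
  simp [this]

omit [BorelSpace M] in
lemma Small.add {δ₁ δ₂ : ENNReal} {S₁ S₂ : M → ℝ} (h₁ : Small X μ δ₁ S₁) (h₂ : Small X μ δ₂ S₂) :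
    Small X μ (δ₁ + δ₂) (fun q => S₁ q + S₂ q) := by
  obtain ⟨g₁, a1, a2, a3, a4⟩ := h₁.bound
  obtain ⟨g₂, b1, b2, b3, b4⟩ := h₂.bound
  refine ⟨fun i => (h₁.smooth i).add (h₂.smooth i), fun q => add_nonneg (h₁.nonneg q) (h₂.nonneg q),
    ?_, fun q => g₁ q + g₂ q, a1.add b1, fun q => add_nonneg (a2 q) (b2 q), ?_, ?_⟩
  · have hsub : {q | S₁ q + S₂ q ≠ 0} ⊆ {q | S₁ q ≠ 0} ∪ {q | S₂ q ≠ 0} := by
      intro q hq
      by_contra hcon
      simp only [mem_union, mem_ofPred_eq, not_or, not_not] at hcon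
      exact hq (by show S₁ q + S₂ q = 0; rw [hcon.1, hcon.2, add_zero])
    exact (measure_mono hsub).trans ((measure_union_le _ _).trans (add_le_add h₁.meas h₂.meas))
  · intro i x ν hν
    have hd1 : DifferentiableAt ℝ (fun z => S₁ (X.param i z)) x :=
      (h₁.smooth i).differentiable (by simp) x
    have hd2 : DifferentiableAt ℝ (fun z => S₂ (X.param i z)) x :=
      (h₂.smooth i).differentiable (by simp) x
    have e : ∀ k, pd k (fun z => S₁ (X.param i z) + S₂ (X.param i z)) x =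
        pd k (fun z => S₁ (X.param i z)) x + pd k (fun z => S₂ (X.param i z)) x := by
      intro k
      unfold pd
      have := (hd1.hasFDerivAt.add hd2.hasFDerivAt).fderiv
      have h3 : fderiv ℝ (fun z => S₁ (X.param i z) + S₂ (X.param i z)) x =
        fderiv ℝ (fun z => S₁ (X.param i z)) x + fderiv ℝ (fun z => S₂ (X.param i z)) x := this
      rw [h3]
      rfl
    have e2 : ∑ k, pd k (fun z => S₁ (X.param i z) + S₂ (X.param i z)) x * ν k =
        ∑ k, pd k (fun z => S₁ (X.param i z)) x * ν k +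
        ∑ k, pd k (fun z => S₂ (X.param i z)) x * ν k := by
      rw [← Finset.sum_add_distrib]
      exact Finset.sum_congr rfl fun k _ => by rw [e]; ring
    rw [e2]
    exact (abs_add_le _ _).trans (add_le_add (a3 i x ν hν) (b3 i x ν hν))
  · calc ∫⁻ q, ENNReal.ofReal (g₁ q + g₂ q) ∂μ
        = ∫⁻ q, (ENNReal.ofReal (g₁ q) + ENNReal.ofReal (g₂ q)) ∂μ := by
          congr 1; funext q; rw [ENNReal.ofReal_add (a2 q) (b2 q)]
      _ = ∫⁻ q, ENNReal.ofReal (g₁ q) ∂μ + ∫⁻ q, ENNReal.ofReal (g₂ q) ∂μ :=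
          lintegral_add_left a1.ennreal_ofReal _
      _ ≤ δ₁ + δ₂ := add_le_add a4 b4

omit [BorelSpace M] in
lemma Small.sum {ι : Type*} (s : Finset ι) {δ : ι → ENNReal} {S : ι → M → ℝ}
    (h : ∀ j ∈ s, Small X μ (δ j) (S j)) : Small X μ (∑ j ∈ s, δ j) (fun q => ∑ j ∈ s, S j q) := by
  classical
  induction s using Finset.induction_on with
  | empty => simpa using Small.zero
  | insert a s ha ih =>
    rw [Finset.sum_insert ha]
    have h1 := (h a (Finset.mem_insert_self a s)).add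
      (ih fun j hj => h j (Finset.mem_insert_of_mem hj))
    have e : (fun q => ∑ j ∈ insert a s, S j q) = fun q => S a q + ∑ j ∈ s, S j q := by
      funext q
      rw [Finset.sum_insert ha]
    rw [e]
    exact h1

/-- upper bound of the gradient of a bump function in its chart -/
def Gb (G : Metric n) (b : E n → ℝ) (y : E n) : ℝ := ∑ l, |pd l b y| * √((G.g y)⁻¹ l l)

lemma Gb_cont (G : Metric n) {b : E n → ℝ} (hb : ContDiff ℝ (⊤ : ℕ∞) b) : Continuous (Gb G b) := by
  unfold Gb
  exact continuous_finsetSum _ fun l _ => (pd_continuous l hb).abs.mul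
    (inv_contDiff G l l).continuous.sqrt

lemma Gb_nonneg (G : Metric n) (b : E n → ℝ) (y : E n) : 0 ≤ Gb G b y :=
  Finset.sum_nonneg fun _ _ => mul_nonneg (abs_nonneg _) (Real.sqrt_nonneg _)

lemma ext0_meas (i : X.ι) {b : E n → ℝ} (hb : Measurable b) : Measurable (ext0 X i b) :=
  (X.isOpenEmbedding i).measurableEmbedding.measurable_extend hb measurable_const

omit [MeasurableSpace M] [BorelSpace M] in
/-- the bound in an arbitrary chart -/
lemma ext0_bound [T2Space M] (i : X.ι) {b : E n → ℝ} (hb : ContDiff ℝ (⊤ : ℕ∞) b)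
    (hc : HasCompactSupport b) (j : X.ι) (x ν : E n) (hν : ν ⬝ᵥ ((X.metric j).g x *ᵥ ν) ≤ 1) :
    |∑ k, pd k (fun z => ext0 X i b (X.param j z)) x * ν k| ≤
      ext0 X i (Gb (X.metric i) b) (X.param j x) := by
  by_cases hy : X.param j x ∈ range (X.param i)
  · obtain ⟨y, hy⟩ := hy
    obtain ⟨φ, h1, h2, h3, h4⟩ := X.transition j i x y hy.symm
    have hφ : DifferentiableAt ℝ φ x := h1.differentiableAt (by simp)
    have e1 : (fun z => ext0 X i b (X.param j z)) =ᶠ[𝓝 x] fun z => b (φ z) := by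
      filter_upwards [h3] with z hz
      rw [← hz, ext0_param]
    have e2 : ∀ k, pd k (fun z => ext0 X i b (X.param j z)) x =
        ∑ l, pd l b y * jac φ x l k := by
      intro k
      have : pd k (fun z => ext0 X i b (X.param j z)) x = pd k (fun z => b (φ z)) x := by
        unfold pd
        rw [e1.fderiv_eq]
      rw [this, pd_comp (hb.differentiable (by simp) _) hφ, h2]
    set w : E n := jac φ x *ᵥ ν with hw
    have e3 : ∑ k, pd k (fun z => ext0 X i b (X.param j z)) x * ν k = ∑ l, pd l b y * w l := by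
      simp only [e2, Finset.sum_mul]
      rw [Finset.sum_comm]
      refine Finset.sum_congr rfl fun l _ => ?_
      rw [hw, Matrix.mulVec, dotProduct, Finset.mul_sum]
      exact Finset.sum_congr rfl fun k _ => by ring
    have hw1 : w ⬝ᵥ ((X.metric i).g y *ᵥ w) ≤ 1 := by
      have : w ⬝ᵥ ((X.metric i).g y *ᵥ w) = ν ⬝ᵥ ((X.metric j).g x *ᵥ ν) := by
        rw [← h4, hw, ← Matrix.mulVec_mulVec, ← Matrix.mulVec_mulVec,
          Matrix.dotProduct_mulVec ν, Matrix.vecMul_transpose]
      rw [this]; exact hν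
    rw [e3, ← hy, ext0_param]
    unfold Gb
    refine (Finset.abs_sum_le_sum_abs _ _).trans (Finset.sum_le_sum fun l _ => ?_)
    rw [abs_mul]
    exact mul_le_mul_of_nonneg_left (comp_le (X.metric i) y w hw1 l) (abs_nonneg _)
  · have h0 : (fun z => ext0 X i b (X.param j z)) =ᶠ[𝓝 x] fun _ => (0 : ℝ) := by
      have hK : IsClosed (X.param i '' tsupport b) :=
        (hc.isCompact.image (X.isOpenEmbedding i).continuous).isClosed
      have hy' : X.param j x ∉ X.param i '' tsupport b := fun ⟨w, _, hw⟩ => hy ⟨w, hw⟩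
      have h5 : ∀ᶠ z in 𝓝 x, X.param j z ∈ (X.param i '' tsupport b)ᶜ :=
        (X.isOpenEmbedding j).continuous.continuousAt (hK.isOpen_compl.mem_nhds hy')
      filter_upwards [h5] with z hz
      by_cases hz' : X.param j z ∈ range (X.param i)
      · obtain ⟨w, hw⟩ := hz'
        rw [← hw, ext0_param]
        by_contra hne
        exact hz ⟨w, subset_tsupport b hne, hw⟩
      · exact ext0_out X i b hz'
    have e : ∀ k, pd k (fun z => ext0 X i b (X.param j z)) x = 0 := by
      intro k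
      unfold pd
      rw [h0.fderiv_eq]
      simp
    simp only [e, zero_mul, Finset.sum_const_zero, abs_zero]
    exact ext0_nonneg X i (Gb_nonneg _ _) _

/-- integrals of functions supported in a chart -/
lemma lint_chart (hμ : IsVolume X μ) (i : X.ι) {f : M → ENNReal} (hf : Measurable f)
    (h0 : ∀ q, q ∉ range (X.param i) → f q = 0) :
    ∫⁻ q, f q ∂μ = ∫⁻ y, ENNReal.ofReal (dens (X.metric i) y) * f (X.param i y) := by
  have hme := (X.isOpenEmbedding i).measurableEmbedding
  have h1 : ∫⁻ q, f q ∂μ = ∫⁻ q in range (X.param i), f q ∂μ := by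
    rw [← lintegral_indicator hme.measurableSet_range]
    congr 1
    funext q
    by_cases hq : q ∈ range (X.param i)
    · rw [indicator_of_mem hq]
    · rw [indicator_of_notMem hq, h0 q hq]
  rw [h1, restrict_chart hμ, hme.lintegral_map]
  have h2 := lintegral_withDensity_eq_lintegral_mul volume (dens_ofReal_meas (X.metric i))
    (g := fun y => f (X.param i y)) (hf.comp hme.measurable)
  exact h2

lemma ball_vol (c : E n) {r : ℝ} (hr : 0 ≤ r) :
    volume (_root_.Metric.closedBall c (2 * r)) = ENNReal.ofReal ((4 * r) ^ (n + 1)) := by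
  rw [Real.volume_pi_closedBall c (by linarith)]
  simp only [Fintype.card_fin]
  congr 2; ring

/-- one bump function -/
lemma bump_small [T2Space M] (hμ : IsVolume X μ) (i : X.ι) (x₀ : E n) :
    ∃ C : ℝ, 0 ≤ C ∧ ∀ (c : E n) (r : ℝ), 0 < r → r ≤ 1 →
      _root_.Metric.closedBall c (2 * r) ⊆ _root_.Metric.closedBall x₀ 4 →
      Small X μ (ENNReal.ofReal (C * r ^ n)) (ext0 X i (bmp c r)) := by
  obtain ⟨C₀, hC₀, hC₀'⟩ := pd_beta_bdd n
  set G := X.metric i with hG
  have hdc : Continuous (dens G) := (dens_contDiff G).continuous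
  have hΘ : Continuous fun y => dens G y * ∑ l, √((G.g y)⁻¹ l l) :=
    hdc.mul (continuous_finsetSum _ fun l _ => (inv_contDiff G l l).continuous.sqrt)
  obtain ⟨C₁, hC₁⟩ := (isCompact_closedBall x₀ 4).exists_bound_of_continuousOn hΘ.continuousOn
  obtain ⟨C₂, hC₂⟩ := (isCompact_closedBall x₀ 4).exists_bound_of_continuousOn hdc.continuousOn
  have hx₀ : x₀ ∈ _root_.Metric.closedBall x₀ 4 := _root_.Metric.mem_closedBall_self (by norm_num)
  have hC₁0 : 0 ≤ C₁ := (norm_nonneg _).trans (hC₁ x₀ hx₀)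
  have hC₂0 : 0 ≤ C₂ := (norm_nonneg _).trans (hC₂ x₀ hx₀)
  refine ⟨(C₀ * C₁ + C₂) * 4 ^ (n + 1), by positivity, fun c r hr hr1 hsub => ?_⟩
  have hrn : 0 ≤ r ^ n := by positivity
  have hvol := ball_vol c hr.le
  refine ⟨ext0_smooth X i (bmp_smooth c r) (bmp_compact hr),
    fun q => ext0_nonneg X i (bmp_nonneg c r) q, ?_,
    ext0 X i (Gb G (bmp c r)), ext0_meas i (Gb_cont G (bmp_smooth c r)).measurable,
    fun q => ext0_nonneg X i (Gb_nonneg _ _) q,
    fun j x ν hν => ext0_bound i (bmp_smooth c r) (bmp_compact hr) j x ν hν, ?_⟩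
  · have h1 : {q | ext0 X i (bmp c r) q ≠ 0} ⊆ X.param i '' _root_.Metric.closedBall c (2 * r) := by
      intro q hq
      by_cases hq' : q ∈ range (X.param i)
      · obtain ⟨y, rfl⟩ := hq'
        refine ⟨y, ?_, rfl⟩
        by_contra hy
        exact hq (by rw [ext0_param]; exact bmp_out hr hy)
      · exact absurd (ext0_out X i _ hq') hq
    refine (measure_mono h1).trans ?_
    have hK : IsClosed (X.param i '' _root_.Metric.closedBall c (2 * r)) :=
      ((isCompact_closedBall c (2 * r)).image (X.isOpenEmbedding i).continuous).isClosed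
    rw [hμ i _ hK.measurableSet (image_subset_range _ _),
      (X.isOpenEmbedding i).injective.preimage_image]
    have h2 : ∫⁻ y in _root_.Metric.closedBall c (2 * r), ENNReal.ofReal (dens G y) ≤
        ENNReal.ofReal C₂ * volume (_root_.Metric.closedBall c (2 * r)) := by
      rw [← setLIntegral_const]
      exact setLIntegral_mono measurable_const fun y hy =>
        ENNReal.ofReal_le_ofReal ((le_abs_self _).trans (hC₂ y (hsub hy)))
    refine h2.trans ?_
    rw [hvol, ← ENNReal.ofReal_mul hC₂0]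
    apply ENNReal.ofReal_le_ofReal
    have e1 : C₂ * (4 * r) ^ (n + 1) = C₂ * 4 ^ (n + 1) * r ^ n * r := by
      rw [mul_pow, pow_succ r]; ring
    rw [e1]
    have e2 : C₂ * 4 ^ (n + 1) * r ^ n * r ≤ C₂ * 4 ^ (n + 1) * r ^ n * 1 :=
      mul_le_mul_of_nonneg_left hr1 (by positivity)
    have e3 : 0 ≤ C₀ * C₁ * 4 ^ (n + 1) * r ^ n := by positivity
    nlinarith
  · rw [lint_chart hμ i (ext0_meas i (Gb_cont G (bmp_smooth c r)).measurable).ennreal_ofReal
      (fun q hq => by rw [ext0_out X i _ hq, ENNReal.ofReal_zero])]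
    have h1 : ∀ y, ENNReal.ofReal (dens G y) * ENNReal.ofReal (ext0 X i (Gb G (bmp c r)) (X.param i y)) ≤
        (_root_.Metric.closedBall c (2 * r)).indicator (fun _ => ENNReal.ofReal (C₁ * (C₀ * r⁻¹))) y := by
      intro y
      rw [ext0_param, ← ENNReal.ofReal_mul (dens_pos G y).le]
      by_cases hy : y ∈ _root_.Metric.closedBall c (2 * r)
      · rw [indicator_of_mem hy]
        apply ENNReal.ofReal_le_ofReal
        have h3 : Gb G (bmp c r) y ≤ (∑ l, √((G.g y)⁻¹ l l)) * (C₀ * r⁻¹) := by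
          unfold Gb
          rw [Finset.sum_mul]
          refine Finset.sum_le_sum fun l _ => ?_
          rw [mul_comm]
          refine mul_le_mul_of_nonneg_left ?_ (Real.sqrt_nonneg _)
          rw [pd_bmp, abs_mul, abs_of_pos (inv_pos.2 hr), mul_comm]
          exact mul_le_mul_of_nonneg_right (hC₀' l _) (inv_pos.2 hr).le
        have h4 : dens G y * ∑ l, √((G.g y)⁻¹ l l) ≤ C₁ := (le_abs_self _).trans (hC₁ y (hsub hy))
        calc dens G y * Gb G (bmp c r) y ≤ dens G y * ((∑ l, √((G.g y)⁻¹ l l)) * (C₀ * r⁻¹)) :=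
              mul_le_mul_of_nonneg_left h3 (dens_pos G y).le
          _ = (dens G y * ∑ l, √((G.g y)⁻¹ l l)) * (C₀ * r⁻¹) := by ring
          _ ≤ C₁ * (C₀ * r⁻¹) := mul_le_mul_of_nonneg_right h4 (by positivity)
      · rw [indicator_of_notMem hy]
        have h3 : Gb G (bmp c r) y = 0 := by
          unfold Gb
          refine Finset.sum_eq_zero fun l _ => ?_
          have : pd l (bmp c r) y = 0 := by
            by_contra hne
            exact hy (bmp_tsupport hr (pd_supp l hne))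
          rw [this, abs_zero, zero_mul]
        rw [h3, mul_zero, ENNReal.ofReal_zero]
    refine (lintegral_mono h1).trans ?_
    rw [lintegral_indicator _root_.Metric.isClosed_closedBall.measurableSet, setLIntegral_const, hvol,
      ← ENNReal.ofReal_mul (by positivity)]
    apply ENNReal.ofReal_le_ofReal
    have e1 : C₁ * (C₀ * r⁻¹) * (4 * r) ^ (n + 1) = C₀ * C₁ * 4 ^ (n + 1) * r ^ n := by
      rw [mul_pow, pow_succ r]; field_simp
    rw [e1]
    have e3 : 0 ≤ C₂ * 4 ^ (n + 1) * r ^ n := by positivity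
    nlinarith

/-- part of the cutoff in one chart -/
lemma local_cover [T2Space M] (hμ : IsVolume X μ) {K : Set M} (hK : IsClosed K)
    (i : X.ι) (hN : HNull (X.param i ⁻¹' K)) (x₀ : E n) {δ : ℝ} (hδ : 0 < δ) :
    ∃ S : M → ℝ, Small X μ (ENNReal.ofReal δ) S ∧
      ∀ q ∈ K, q ∈ X.param i '' _root_.Metric.ball x₀ 1 → ∀ᶠ q' in 𝓝 q, 1 ≤ S q' := by
  classical
  obtain ⟨C, hC0, hC⟩ := bump_small (X := X) (μ := μ) hμ i x₀
  have hδ' : 0 < min (δ / (C + 1)) 1 := lt_min (by positivity) one_pos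
  obtain ⟨c, r, hr, hcov, hsum, hlt⟩ := hN _ hδ'
  have hA : IsCompact (X.param i ⁻¹' K ∩ _root_.Metric.closedBall x₀ 1) :=
    (isCompact_closedBall x₀ 1).inter_left (hK.preimage (X.isOpenEmbedding i).continuous)
  obtain ⟨t, ht⟩ := hA.elim_finite_subcover (fun j => _root_.Metric.ball (c j) (r j))
    (fun j => _root_.Metric.isOpen_ball) (inter_subset_left.trans hcov)
  set J := t.filter fun j => (_root_.Metric.ball (c j) (r j) ∩
    _root_.Metric.closedBall x₀ 1).Nonempty with hJ
  have hr1 : ∀ j, r j ≤ 1 := by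
    intro j
    by_contra hcon
    have h1 : r j ^ n ≤ ∑' k, r k ^ n :=
      hsum.le_tsum j fun k _ => pow_nonneg (hr k).le n
    have h2 : (1 : ℝ) ≤ r j ^ n := one_le_pow₀ (not_le.1 hcon).le
    have h3 := hlt.trans_le (min_le_right _ _)
    linarith
  have hsub : ∀ j ∈ J, _root_.Metric.closedBall (c j) (2 * r j) ⊆ _root_.Metric.closedBall x₀ 4 := by
    intro j hj z hz
    obtain ⟨w, hw1, hw2⟩ := (Finset.mem_filter.1 hj).2
    rw [_root_.Metric.mem_closedBall] at hz hw2 ⊢
    rw [_root_.Metric.mem_ball] at hw1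
    have h1 := dist_triangle z (c j) x₀
    have h2 := dist_triangle (c j) w x₀
    rw [dist_comm (c j) w] at h2
    have h3 := hr1 j
    linarith
  refine ⟨fun q => ∑ j ∈ J, ext0 X i (bmp (c j) (r j)) q, ?_, ?_⟩
  · refine (Small.sum J (δ := fun j => ENNReal.ofReal (C * r j ^ n)) fun j hj =>
      hC (c j) (r j) (hr j) (hr1 j) (hsub j hj)).mono ?_
    rw [← ENNReal.ofReal_sum_of_nonneg fun j _ => mul_nonneg hC0 (pow_nonneg (hr j).le n)]
    apply ENNReal.ofReal_le_ofReal
    rw [← Finset.mul_sum]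
    have h1 : ∑ j ∈ J, r j ^ n ≤ ∑' j, r j ^ n :=
      hsum.sum_le_tsum J fun j _ => pow_nonneg (hr j).le n
    have h2 : ∑ j ∈ J, r j ^ n ≤ δ / (C + 1) := h1.trans (hlt.le.trans (min_le_left _ _))
    calc C * ∑ j ∈ J, r j ^ n ≤ C * (δ / (C + 1)) := mul_le_mul_of_nonneg_left h2 hC0
      _ ≤ (C + 1) * (δ / (C + 1)) := mul_le_mul_of_nonneg_right (by linarith) (by positivity)
      _ = δ := by field_simp
  · rintro q hqK ⟨y, hy, rfl⟩
    have hyA : y ∈ X.param i ⁻¹' K ∩ _root_.Metric.closedBall x₀ 1 :=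
      ⟨hqK, _root_.Metric.ball_subset_closedBall hy⟩
    have h1 := ht hyA
    simp only [mem_iUnion] at h1
    obtain ⟨j, hjt, hyj⟩ := h1
    have hjJ : j ∈ J := Finset.mem_filter.2 ⟨hjt, y, hyj, hyA.2⟩
    have hopen : IsOpen (X.param i '' _root_.Metric.ball (c j) (r j)) :=
      (X.isOpenEmbedding i).isOpenMap _ _root_.Metric.isOpen_ball
    filter_upwards [hopen.mem_nhds ⟨y, hyj, rfl⟩] with q' hq'
    obtain ⟨z, hz, rfl⟩ := hq'
    have h2 : ext0 X i (bmp (c j) (r j)) (X.param i z) ≤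
        ∑ j ∈ J, ext0 X i (bmp (c j) (r j)) (X.param i z) :=
      Finset.single_le_sum (f := fun j => ext0 X i (bmp (c j) (r j)) (X.param i z))
        (fun k _ => ext0_nonneg X i (bmp_nonneg _ _) _) hjJ
    rw [ext0_param, bmp_one (hr j) hz] at h2
    exact h2

/-- derivative of the smooth transition is bounded -/
lemma trans_bdd : ∃ C : ℝ, 0 ≤ C ∧ ∀ s, |deriv Real.smoothTransition s| ≤ C := by
  have hs : ContDiff ℝ 1 Real.smoothTransition := Real.smoothTransition.contDiff
  have hc : Continuous (deriv Real.smoothTransition) := hs.continuous_deriv le_rfl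
  obtain ⟨C, hC⟩ := (isCompact_Icc (a := (0:ℝ)) (b := 1)).exists_bound_of_continuousOn
    hc.continuousOn
  have hC0 : 0 ≤ C := (norm_nonneg _).trans (hC 0 ⟨le_rfl, zero_le_one⟩)
  refine ⟨C, hC0, fun s => ?_⟩
  rcases lt_or_ge s 0 with h | h
  · have : Real.smoothTransition =ᶠ[𝓝 s] fun _ => 0 := by
      filter_upwards [Iio_mem_nhds h] with t ht
      exact Real.smoothTransition.zero_of_nonpos (le_of_lt ht)
    rw [this.deriv_eq]
    simpa using hC0
  rcases lt_or_ge 1 s with h1 | h1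
  · have : Real.smoothTransition =ᶠ[𝓝 s] fun _ => 1 := by
      filter_upwards [Ioi_mem_nhds h1] with t ht
      exact Real.smoothTransition.one_of_one_le (le_of_lt ht)
    rw [this.deriv_eq]
    simpa using hC0
  · exact hC s ⟨h, h1⟩

/-- cutoff functions near a closed set of `n`-dimensional Hausdorff measure zero -/
lemma exists_cutoff [CompactSpace M] [T2Space M] (hμ : IsVolume X μ) {K : Set M}
    (hK : IsClosed K) (hN : ∀ i, HNull (X.param i ⁻¹' K)) {ε : ℝ} (hε : 0 < ε) :
    ∃ η : M → ℝ, SmoothM X η ∧ (∀ q, 0 ≤ η q ∧ η q ≤ 1) ∧ (∀ q ∈ K, η =ᶠ[𝓝 q] fun _ => 0) ∧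
      μ {q | η q ≠ 1} ≤ ENNReal.ofReal ε ∧ ∃ g : M → ℝ, Measurable g ∧ (∀ q, 0 ≤ g q) ∧
        (∀ i x (ν : E n), ν ⬝ᵥ ((X.metric i).g x *ᵥ ν) ≤ 1 →
          |∑ k, pd k (fun z => η (X.param i z)) x * ν k| ≤ g (X.param i x)) ∧
        ∫⁻ q, ENNReal.ofReal (g q) ∂μ ≤ ENNReal.ofReal ε := by
  classical
  obtain ⟨C, hC0, hC⟩ := trans_bdd
  choose i x hx using X.cover
  let U : M → Set M := fun p => X.param (i p) '' _root_.Metric.ball (x p) 1
  have hU : ∀ p, U p ∈ 𝓝 p := fun p =>
    ((X.isOpenEmbedding (i p)).isOpenMap _ _root_.Metric.isOpen_ball).mem_nhds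
      ⟨x p, _root_.Metric.mem_ball_self one_pos, hx p⟩
  obtain ⟨t, ht⟩ := CompactSpace.elim_nhds_subcover U hU
  have hε' : 0 < ε / ((C + 1) * (t.card + 1)) := by positivity
  choose S hS1 hS2 using fun p : M => local_cover hμ hK (i p) (hN (i p)) (x p) hε'
  set T : M → ℝ := fun q => ∑ p ∈ t, S p q with hT
  have hTs : Small X μ (ENNReal.ofReal (ε / (C + 1))) T := by
    refine (Small.sum t (δ := fun _ => ENNReal.ofReal (ε / ((C + 1) * (t.card + 1))))
      fun p _ => hS1 p).mono ?_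
    rw [← ENNReal.ofReal_sum_of_nonneg fun _ _ => hε'.le]
    apply ENNReal.ofReal_le_ofReal
    rw [Finset.sum_const, nsmul_eq_mul]
    have e : (t.card : ℝ) * (ε / ((C + 1) * (t.card + 1))) ≤
        (t.card + 1) * (ε / ((C + 1) * (t.card + 1))) :=
      mul_le_mul_of_nonneg_right (by linarith) hε'.le
    refine e.trans (le_of_eq ?_)
    field_simp
  obtain ⟨g, g1, g2, g3, g4⟩ := hTs.bound
  have hle : ENNReal.ofReal (ε / (C + 1)) ≤ ENNReal.ofReal ε := by
    apply ENNReal.ofReal_le_ofReal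
    exact div_le_self hε.le (by linarith)
  refine ⟨fun q => 1 - Real.smoothTransition (T q), ?_, ?_, ?_, ?_, fun q => C * g q,
    g1.const_mul C, fun q => mul_nonneg hC0 (g2 q), ?_, ?_⟩
  · intro j
    have h1 : ContDiff ℝ (⊤ : ℕ∞) Real.smoothTransition := Real.smoothTransition.contDiff
    exact contDiff_const.sub (h1.comp (hTs.smooth j))
  · intro q
    have h1 := Real.smoothTransition.nonneg (T q)
    have h2 := Real.smoothTransition.le_one (T q)
    constructor <;> linarith
  · intro q hq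
    have hq' : q ∈ ⋃ p ∈ t, U p := by rw [ht]; trivial
    simp only [mem_iUnion] at hq'
    obtain ⟨p, hp, hqp⟩ := hq'
    filter_upwards [hS2 p q hq hqp] with q' hq'
    have h1 : S p q' ≤ T q' :=
      Finset.single_le_sum (f := fun p => S p q') (fun k _ => (hS1 k).nonneg q') hp
    rw [Real.smoothTransition.one_of_one_le (hq'.trans h1), sub_self]
  · refine (measure_mono ?_).trans (hTs.meas.trans hle)
    intro q hq h0
    apply hq
    show 1 - Real.smoothTransition (T q) = 1
    rw [h0, Real.smoothTransition.zero_of_nonpos le_rfl, sub_zero]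
  · intro j y ν hν
    have hd : DifferentiableAt ℝ (fun z => T (X.param j z)) y :=
      (hTs.smooth j).differentiable (by simp) y
    have hs : ContDiff ℝ 1 Real.smoothTransition := Real.smoothTransition.contDiff
    have hd2 : HasDerivAt Real.smoothTransition (deriv Real.smoothTransition (T (X.param j y)))
        (T (X.param j y)) := (hs.differentiable one_ne_zero _).hasDerivAt
    have h1 : HasFDerivAt (fun z => Real.smoothTransition (T (X.param j z)))
        (deriv Real.smoothTransition (T (X.param j y)) • fderiv ℝ (fun z => T (X.param j z)) y) y :=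
      HasDerivAt.comp_hasFDerivAt (h₂ := Real.smoothTransition) (f := fun z => T (X.param j z)) y
        hd2 hd.hasFDerivAt
    have e : ∀ k, pd k (fun z => 1 - Real.smoothTransition (T (X.param j z))) y =
        - (deriv Real.smoothTransition (T (X.param j y)) * pd k (fun z => T (X.param j z)) y) := by
      intro k
      rw [pd_const_sub]
      unfold pd
      rw [h1.fderiv]
      rfl
    have e2 : ∑ k, pd k (fun z => 1 - Real.smoothTransition (T (X.param j z))) y * ν k =
        - (deriv Real.smoothTransition (T (X.param j y)) *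
          ∑ k, pd k (fun z => T (X.param j z)) y * ν k) := by
      rw [Finset.mul_sum, ← Finset.sum_neg_distrib]
      exact Finset.sum_congr rfl fun k _ => by rw [e]; ring
    rw [e2, abs_neg, abs_mul]
    exact mul_le_mul (hC _) (g3 j y ν hν) (abs_nonneg _) hC0
  · have h1 : ∫⁻ q, ENNReal.ofReal (C * g q) ∂μ = ENNReal.ofReal C * ∫⁻ q, ENNReal.ofReal (g q) ∂μ := by
      rw [← lintegral_const_mul _ g1.ennreal_ofReal]
      congr 1
      funext q
      rw [ENNReal.ofReal_mul hC0]
    rw [h1]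
    calc ENNReal.ofReal C * ∫⁻ q, ENNReal.ofReal (g q) ∂μ
        ≤ ENNReal.ofReal C * ENNReal.ofReal (ε / (C + 1)) := mul_le_mul_right g4 _
      _ = ENNReal.ofReal (C * (ε / (C + 1))) := (ENNReal.ofReal_mul hC0).symm
      _ ≤ ENNReal.ofReal ε := by
          apply ENNReal.ofReal_le_ofReal
          rw [mul_div_assoc', div_le_iff₀ (by linarith)]
          nlinarith

end Pool.Agent.H93.CMC
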