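import Pool.Agent.H93.CMC.GDefs

/-!
Examples of deck groups: the lattice `ℤ^(n+1)` (torus) and `ℤ^n ⋊ ℤ` (torus bundles over the
circle) (helper81).
-/

open MeasureTheory Set

noncomputable section

namespace Pool.Agent.H93.CMC

variable {n : ℕ}

/-- the half open unit cube -/
def hcube (n : ℕ) : Set (E n) := {x | ∀ i, 0 ≤ x i ∧ x i < 1}

lemma hcube_meas (n : ℕ) : MeasurableSet (hcube n) := by
  have : hcube n = ⋂ i, ({x : E n | 0 ≤ x i} ∩ {x : E n | x i < 1}) := by
    ext x; simp [hcube]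
  rw [this]
  exact MeasurableSet.iInter fun i => (measurableSet_le measurable_const (measurable_pi_apply i)).inter
    (measurableSet_lt (measurable_pi_apply i) measurable_const)

lemma hcube_bdd (n : ℕ) : Bornology.IsBounded (hcube n) :=
  (isCompact_Icc (a := (0 : E n)) (b := 1)).isBounded.subset fun _ hx =>
    ⟨fun i => (hx i).1, fun i => (hx i).2.le⟩

lemma mem_unit_iff (t : ℝ) (k : ℤ) : (0 ≤ t + k ∧ t + k < 1) ↔ k = -⌊t⌋ := by
  constructor
  · rintro ⟨h1, h2⟩
    have : ⌊t⌋ = -k := by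
      rw [Int.floor_eq_iff]; push_cast; constructor <;> linarith
    omega
  · rintro rfl
    have h1 := Int.floor_le t
    have h2 := Int.lt_floor_add_one t
    push_cast
    constructor <;> linarith

/-- the lattice `ℤ^(n+1)` acts by translations -/
instance latticeAction (n : ℕ) : MulAction (Multiplicative (Fin (n + 1) → ℤ)) (E n) where
  smul k x := shift (Multiplicative.toAdd k) x
  one_smul x := by
    funext i
    show x i + ((0 : ℤ) : ℝ) = x i
    simp
  mul_smul k l x := by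
    funext i
    show x i + ((Multiplicative.toAdd k i + Multiplicative.toAdd l i : ℤ) : ℝ) =
      (x i + (Multiplicative.toAdd l i : ℝ)) + (Multiplicative.toAdd k i : ℝ)
    push_cast; ring

lemma lattice_smul (k : Multiplicative (Fin (n + 1) → ℤ)) (x : E n) (i : Fin (n + 1)) :
    (k • x) i = x i + (Multiplicative.toAdd k i : ℝ) := rfl

lemma bdd_of_compact {K : Set (E n)} (hK : IsCompact K) : ∃ R : ℕ, ∀ x ∈ K, ∀ i, |x i| ≤ R := by
  obtain ⟨C, hC⟩ := hK.isBounded.exists_norm_le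
  obtain ⟨R, hR⟩ := exists_nat_ge C
  exact ⟨R, fun x hx i => (norm_le_pi_norm x i).trans ((hC x hx).trans hR)⟩

/-- the torus `ℝ^(n+1)/ℤ^(n+1)` -/
theorem lattice_fibred (n : ℕ) : FibredDeck (Multiplicative (Fin (n + 1) → ℤ))
    (fun k => Multiplicative.toAdd k 0) (hcube n) where
  smooth k := by
    rw [contDiff_pi]
    intro i
    exact (contDiff_apply ℝ ℝ i).add contDiff_const
  height k x := rfl
  surjective := ⟨Multiplicative.ofAdd (fun _ => 1), rfl⟩
  proper K hK := by
    obtain ⟨R, hR⟩ := bdd_of_compact hK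
    have hfin : (Icc (fun _ => -(2 * R : ℤ)) (fun _ => (2 * R : ℤ)) : Set (Fin (n + 1) → ℤ)).Finite :=
      Set.finite_Icc _ _
    refine (hfin.preimage (Multiplicative.toAdd.injective.injOn)).subset ?_
    rintro k ⟨x, hx, hkx⟩
    have h1 : ∀ i, |(Multiplicative.toAdd k i : ℝ)| ≤ 2 * R := by
      intro i
      have e1 := abs_le.1 (hR x hx i)
      have e2 := abs_le.1 (hR _ hkx i)
      rw [lattice_smul] at e2
      rw [abs_le]
      constructor <;> linarith [e1.1, e1.2, e2.1, e2.2]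
    constructor
    · intro i
      have := (abs_le.1 (h1 i)).1
      show -(2 * R : ℤ) ≤ Multiplicative.toAdd k i
      exact_mod_cast this
    · intro i
      have := (abs_le.1 (h1 i)).2
      show Multiplicative.toAdd k i ≤ (2 * R : ℤ)
      exact_mod_cast this
  measurable := hcube_meas n
  bounded := hcube_bdd n
  domain x := by
    refine ⟨Multiplicative.ofAdd (fun i => -⌊x i⌋), fun i => ?_, fun k hk => ?_⟩
    · rw [lattice_smul]
      exact (mem_unit_iff (x i) _).2 rfl
    · apply Multiplicative.toAdd.injective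
      funext i
      have := hk i
      rw [lattice_smul] at this
      exact (mem_unit_iff (x i) _).1 this

/-! ### Torus bundles -/

/-- The deck group `ℤ^n ⋊ ℤ` of the torus bundle with monodromy `A`: the pair `(k, m)` acts by
`(t, x') ↦ (t + m, A^m x' + k)`. -/
@[ext] structure TB (A : (Matrix (Fin n) (Fin n) ℤ)ˣ) where
  /-- the translation part -/
  k : Fin n → ℤ
  /-- the power of the monodromy -/
  m : ℤ

variable (A : (Matrix (Fin n) (Fin n) ℤ)ˣ)

instance : Group (TB A) :=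
  { mul := fun a b => ⟨a.k + ((A ^ a.m : (Matrix (Fin n) (Fin n) ℤ)ˣ) :
      Matrix (Fin n) (Fin n) ℤ).mulVec b.k, a.m + b.m⟩
    one := ⟨0, 0⟩
    inv := fun a => ⟨-((A ^ (-a.m) : (Matrix (Fin n) (Fin n) ℤ)ˣ) :
      Matrix (Fin n) (Fin n) ℤ).mulVec a.k, -a.m⟩
    mul_assoc := by
      intro a b c
      refine TB.ext ?_ (add_assoc _ _ _)
      show (a.k + ((A ^ a.m : (Matrix (Fin n) (Fin n) ℤ)ˣ) : Matrix (Fin n) (Fin n) ℤ).mulVec b.k) +
        ((A ^ (a.m + b.m) : (Matrix (Fin n) (Fin n) ℤ)ˣ) : Matrix (Fin n) (Fin n) ℤ).mulVec c.k =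
        a.k + ((A ^ a.m : (Matrix (Fin n) (Fin n) ℤ)ˣ) : Matrix (Fin n) (Fin n) ℤ).mulVec
          (b.k + ((A ^ b.m : (Matrix (Fin n) (Fin n) ℤ)ˣ) : Matrix (Fin n) (Fin n) ℤ).mulVec c.k)
      rw [Matrix.mulVec_add, Matrix.mulVec_mulVec, zpow_add, Units.val_mul, add_assoc]
    one_mul := by
      intro a
      refine TB.ext ?_ (zero_add _)
      show (0 : Fin n → ℤ) + ((A ^ (0 : ℤ) : (Matrix (Fin n) (Fin n) ℤ)ˣ) :
        Matrix (Fin n) (Fin n) ℤ).mulVec a.k = a.k
      simp
    mul_one := by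
      intro a
      refine TB.ext ?_ (add_zero _)
      show a.k + ((A ^ a.m : (Matrix (Fin n) (Fin n) ℤ)ˣ) :
        Matrix (Fin n) (Fin n) ℤ).mulVec (0 : Fin n → ℤ) = a.k
      simp
    inv_mul_cancel := by
      intro a
      refine TB.ext ?_ (neg_add_cancel _)
      show -((A ^ (-a.m) : (Matrix (Fin n) (Fin n) ℤ)ˣ) : Matrix (Fin n) (Fin n) ℤ).mulVec a.k +
        ((A ^ (-a.m) : (Matrix (Fin n) (Fin n) ℤ)ˣ) : Matrix (Fin n) (Fin n) ℤ).mulVec a.k = 0
      simp }

/-- the real matrix `A^m` -/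
def Pm (m : ℤ) : Matrix (Fin n) (Fin n) ℝ :=
  ((A ^ m : (Matrix (Fin n) (Fin n) ℤ)ˣ) : Matrix (Fin n) (Fin n) ℤ).map (Int.cast : ℤ → ℝ)

lemma Pm_zero : Pm A 0 = 1 := by
  unfold Pm
  rw [zpow_zero, Units.val_one]
  exact Matrix.map_one _ Int.cast_zero Int.cast_one

lemma Pm_add (m l : ℤ) : Pm A (m + l) = Pm A m * Pm A l := by
  unfold Pm
  rw [zpow_add, Units.val_mul]
  exact Matrix.map_mul (f := Int.castRingHom ℝ)

lemma Pm_cast (m : ℤ) (k : Fin n → ℤ) (i : Fin n) :
    ((((A ^ m : (Matrix (Fin n) (Fin n) ℤ)ˣ) : Matrix (Fin n) (Fin n) ℤ).mulVec k i : ℤ) : ℝ) =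
      (Pm A m).mulVec (fun j => (k j : ℝ)) i := by
  unfold Pm
  simp [Matrix.mulVec, dotProduct]

instance bundleAction : MulAction (TB A) (E n) where
  smul a x := Fin.cons (x 0 + (a.m : ℝ))
    (fun i : Fin n => (Pm A a.m).mulVec (fun j : Fin n => x j.succ) i + (a.k i : ℝ))
  one_smul x := by
    funext i
    refine Fin.cases ?_ (fun i => ?_) i
    · show x 0 + ((0 : ℤ) : ℝ) = x 0
      simp
    · show (Pm A 0).mulVec (fun j : Fin n => x j.succ) i + (((0 : Fin n → ℤ) i : ℤ) : ℝ) = x i.succ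
      rw [Pm_zero, Matrix.one_mulVec]; simp
  mul_smul a b x := by
    funext i
    refine Fin.cases ?_ (fun i => ?_) i
    · show x 0 + ((a.m + b.m : ℤ) : ℝ) = (x 0 + (b.m : ℝ)) + (a.m : ℝ)
      push_cast; ring
    · show (Pm A (a.m + b.m)).mulVec (fun j : Fin n => x j.succ) i +
        (((a.k + ((A ^ a.m : (Matrix (Fin n) (Fin n) ℤ)ˣ) :
          Matrix (Fin n) (Fin n) ℤ).mulVec b.k) i : ℤ) : ℝ) =
        (Pm A a.m).mulVec (fun j : Fin n =>
          (Pm A b.m).mulVec (fun j : Fin n => x j.succ) j + (b.k j : ℝ)) i + (a.k i : ℝ)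
      rw [Pm_add, ← Matrix.mulVec_mulVec]
      have e1 : (fun j : Fin n => (Pm A b.m).mulVec (fun j : Fin n => x j.succ) j + (b.k j : ℝ)) =
        (Pm A b.m).mulVec (fun j : Fin n => x j.succ) + fun j : Fin n => (b.k j : ℝ) := rfl
      rw [e1, Matrix.mulVec_add]
      have e2 := Pm_cast A a.m b.k i
      rw [Pi.add_apply, Pi.add_apply, Int.cast_add, e2]
      ring

lemma bundle_zero (a : TB A) (x : E n) : (a • x) 0 = x 0 + (a.m : ℝ) := rfl

lemma bundle_succ (a : TB A) (x : E n) (i : Fin n) :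
    (a • x) i.succ = (Pm A a.m).mulVec (fun j : Fin n => x j.succ) i + (a.k i : ℝ) := rfl

/-- torus bundles over the circle -/
theorem bundle_fibred : FibredDeck (TB A) (fun a => a.m) (hcube n) where
  smooth a := by
    rw [contDiff_pi]
    intro i
    refine Fin.cases ?_ (fun i => ?_) i
    · exact (contDiff_apply ℝ ℝ (0 : Fin (n + 1))).add contDiff_const
    · show ContDiff ℝ _ fun x : E n => (Pm A a.m).mulVec (fun j : Fin n => x j.succ) i + (a.k i : ℝ)
      refine ContDiff.add ?_ contDiff_const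
      simp only [Matrix.mulVec, dotProduct]
      exact ContDiff.sum fun j _ => contDiff_const.mul (contDiff_apply ℝ ℝ j.succ)
  height a x := rfl
  surjective := ⟨⟨0, 1⟩, rfl⟩
  proper K hK := by
    obtain ⟨R, hR⟩ := bdd_of_compact hK
    have hN : ∀ m : ℤ, ∃ N : ℕ, ∀ x ∈ K, ∀ i : Fin n,
        |(Pm A m).mulVec (fun j : Fin n => x j.succ) i| + R ≤ N := by
      intro m
      obtain ⟨N, hN⟩ := exists_nat_ge ((∑ i, ∑ j, |Pm A m i j| * R) + R)
      refine ⟨N, fun x hx i => le_trans ?_ hN⟩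
      have h1 : |(Pm A m).mulVec (fun j : Fin n => x j.succ) i| ≤ ∑ j, |Pm A m i j| * R := by
        simp only [Matrix.mulVec, dotProduct]
        refine (Finset.abs_sum_le_sum_abs _ _).trans (Finset.sum_le_sum fun j _ => ?_)
        rw [abs_mul]
        exact mul_le_mul_of_nonneg_left (hR x hx j.succ) (abs_nonneg _)
      have h2 : ∑ j, |Pm A m i j| * R ≤ ∑ i, ∑ j, |Pm A m i j| * R :=
        Finset.single_le_sum (f := fun i => ∑ j, |Pm A m i j| * (R : ℝ))
          (fun i _ => Finset.sum_nonneg fun j _ => mul_nonneg (abs_nonneg _) (Nat.cast_nonneg R))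
          (Finset.mem_univ i)
      linarith
    choose N hN using hN
    have hfin : (⋃ m ∈ Icc (-(2 * R : ℤ)) (2 * R), (fun k : Fin n → ℤ => (⟨k, m⟩ : TB A)) ''
        Icc (fun _ => -(N m : ℤ)) (fun _ => (N m : ℤ))).Finite :=
      (Set.finite_Icc _ _).biUnion fun m _ => (Set.finite_Icc _ _).image _
    refine hfin.subset ?_
    rintro a ⟨x, hx, hax⟩
    have hm : |(a.m : ℝ)| ≤ 2 * R := by
      have e1 := abs_le.1 (hR x hx 0)
      have e2 := abs_le.1 (hR _ hax 0)
      rw [bundle_zero] at e2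
      rw [abs_le]
      constructor <;> linarith [e1.1, e1.2, e2.1, e2.2]
    have hm' := abs_le.1 hm
    have hk : ∀ i, |(a.k i : ℝ)| ≤ N a.m := by
      intro i
      have e1 := hN a.m x hx i
      have e2 := abs_le.1 (hR _ hax i.succ)
      rw [bundle_succ] at e2
      have e3 := neg_abs_le ((Pm A a.m).mulVec (fun j : Fin n => x j.succ) i)
      have e4 := le_abs_self ((Pm A a.m).mulVec (fun j : Fin n => x j.succ) i)
      rw [abs_le]
      constructor <;> linarith [e2.1, e2.2]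
    simp only [mem_iUnion]
    refine ⟨a.m, ⟨by exact_mod_cast hm'.1, by exact_mod_cast hm'.2⟩, a.k, ⟨fun i => ?_, fun i => ?_⟩, rfl⟩
    · have := (abs_le.1 (hk i)).1
      show -(N a.m : ℤ) ≤ a.k i
      exact_mod_cast this
    · have := (abs_le.1 (hk i)).2
      show a.k i ≤ (N a.m : ℤ)
      exact_mod_cast this
  measurable := hcube_meas n
  bounded := hcube_bdd n
  domain x := by
    refine ⟨⟨fun i => -⌊(Pm A (-⌊x 0⌋)).mulVec (fun j : Fin n => x j.succ) i⌋, -⌊x 0⌋⟩, ?_, ?_⟩
    · intro i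
      refine Fin.cases ?_ (fun i => ?_) i
      · rw [bundle_zero]
        exact (mem_unit_iff (x 0) _).2 rfl
      · rw [bundle_succ]
        exact (mem_unit_iff _ _).2 rfl
    · intro a ha
      have hm : a.m = -⌊x 0⌋ := by
        have := ha 0
        rw [bundle_zero] at this
        exact (mem_unit_iff (x 0) _).1 this
      refine TB.ext ?_ hm
      funext i
      have := ha i.succ
      rw [bundle_succ] at this
      rw [← hm]
      exact (mem_unit_iff _ _).1 this

end Pool.Agent.H93.CMC
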