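import Pool.Agent.H81.CMC.DeckEx
import Pool.Agent.H93.CMC.BDefs

/-!
Metrics on tori and torus bundles are deck invariant metrics (helper81).
-/

open MeasureTheory Set

noncomputable section

namespace Pool.Agent.H93.CMC

variable {n : ℕ}

lemma jac_affine (J : Matrix (Fin (n + 1)) (Fin (n + 1)) ℝ) (c : E n) (x : E n) :
    jac (fun z => J.mulVec z + c) x = J := by
  ext i j
  unfold jac pd
  simp only [Matrix.of_apply]
  have h : HasFDerivAt (fun z : E n => (J.mulVec z + c) i)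
      ((ContinuousLinearMap.proj (R := ℝ) (φ := fun _ : Fin (n + 1) => ℝ) i).comp
        (LinearMap.toContinuousLinearMap J.mulVecLin)) x := by
    have h1 : HasFDerivAt (fun z : E n => J.mulVec z) (LinearMap.toContinuousLinearMap J.mulVecLin) x :=
      (LinearMap.toContinuousLinearMap J.mulVecLin).hasFDerivAt
    have h2 := h1.add_const c
    exact (ContinuousLinearMap.proj (R := ℝ) (φ := fun _ : Fin (n + 1) => ℝ) i).hasFDerivAt.comp x h2
  rw [h.fderiv]
  show (J.mulVec (Pi.single j 1)) i = J i j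
  simp

/-- metrics on tori -/
theorem torus_invariant (G : TorusMetric n) :
    DeckInvariant (Multiplicative (Fin (n + 1) → ℤ)) G.toMetric := by
  intro k x
  have h1 : (fun z : E n => k • z) = fun z : E n => (1 : Matrix (Fin (n + 1)) (Fin (n + 1)) ℝ).mulVec z +
      fun i => (Multiplicative.toAdd k i : ℝ) := by
    funext z i
    rw [Matrix.one_mulVec]
    rfl
  rw [h1, jac_affine, Matrix.transpose_one, Matrix.one_mul, Matrix.mul_one]
  exact G.periodic (Multiplicative.toAdd k) x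

variable (A : (Matrix (Fin n) (Fin n) ℤ)ˣ)

/-- the Jacobian matrix of `(0, m)` -/
def Jm (m : ℤ) : Matrix (Fin (n + 1)) (Fin (n + 1)) ℝ :=
  Matrix.of (Fin.cons (Fin.cons 1 fun _ => 0) fun i => Fin.cons 0 fun j => Pm A m i j)

lemma Jm_00 (m : ℤ) : Jm A m 0 0 = 1 := rfl
lemma Jm_0s (m : ℤ) (j : Fin n) : Jm A m 0 j.succ = 0 := rfl
lemma Jm_s0 (m : ℤ) (i : Fin n) : Jm A m i.succ 0 = 0 := rfl
lemma Jm_ss (m : ℤ) (i j : Fin n) : Jm A m i.succ j.succ = Pm A m i j := rfl

lemma Jm_zero : Jm A 0 = 1 := by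
  ext i j
  refine Fin.cases ?_ (fun i => ?_) i <;> refine Fin.cases ?_ (fun j => ?_) j
  · rw [Jm_00, Matrix.one_apply_eq]
  · rw [Jm_0s, Matrix.one_apply_ne (Fin.succ_ne_zero j).symm]
  · rw [Jm_s0, Matrix.one_apply_ne (Fin.succ_ne_zero i)]
  · rw [Jm_ss, Pm_zero, Matrix.one_apply, Matrix.one_apply]
    simp [Fin.succ_inj]

lemma Jm_add (m l : ℤ) : Jm A (m + l) = Jm A m * Jm A l := by
  ext i j
  rw [Matrix.mul_apply, Fin.sum_univ_succ]
  refine Fin.cases ?_ (fun i => ?_) i <;> refine Fin.cases ?_ (fun j => ?_) j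
  · simp [Jm_00, Jm_0s]
  · simp [Jm_00, Jm_0s]
  · simp [Jm_s0, Jm_00]
  · simp only [Jm_ss, Jm_s0, Jm_0s, zero_mul, zero_add]
    rw [Pm_add, Matrix.mul_apply]

lemma Jm_one : Jm A 1 = glueJac (A : Matrix (Fin n) (Fin n) ℤ) := by
  ext i j
  refine Fin.cases ?_ (fun i => ?_) i <;> refine Fin.cases ?_ (fun j => ?_) j
  · rfl
  · rfl
  · rfl
  · rw [Jm_ss]
    unfold Pm
    rw [zpow_one]
    rfl

lemma smul_affine (a : TB A) : (fun z : E n => a • z) = fun z : E n => (Jm A a.m).mulVec z +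
    Fin.cons (a.m : ℝ) (fun i : Fin n => (a.k i : ℝ)) := by
  funext z i
  rw [Pi.add_apply]
  refine Fin.cases ?_ (fun i => ?_) i
  · rw [bundle_zero, Matrix.mulVec, dotProduct, Fin.sum_univ_succ]
    simp [Jm_00, Jm_0s]
  · rw [bundle_succ, Matrix.mulVec, dotProduct, Matrix.mulVec, dotProduct, Fin.sum_univ_succ]
    simp [Jm_s0, Jm_ss]

/-- the elements of the deck group which are isometries -/
def isoSub (G : Metric n) : Subgroup (TB A) where
  carrier := {a | ∀ x : E n, (Jm A a.m).transpose * G.g (a • x) * Jm A a.m = G.g x}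
  one_mem' := by
    intro x
    show (Jm A 0).transpose * G.g ((1 : TB A) • x) * Jm A 0 = G.g x
    rw [one_smul, Jm_zero, Matrix.transpose_one, Matrix.one_mul, Matrix.mul_one]
  mul_mem' := by
    intro a b ha hb x
    show (Jm A (a.m + b.m)).transpose * G.g ((a * b) • x) * Jm A (a.m + b.m) = G.g x
    rw [Jm_add, Matrix.transpose_mul, mul_smul]
    have h1 : (Jm A b.m).transpose * (Jm A a.m).transpose * G.g (a • b • x) * (Jm A a.m * Jm A b.m) =
        (Jm A b.m).transpose * ((Jm A a.m).transpose * G.g (a • b • x) * Jm A a.m) * Jm A b.m := by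
      simp only [Matrix.mul_assoc]
    rw [h1, ha (b • x), hb x]
  inv_mem' := by
    intro a ha x
    show (Jm A (-a.m)).transpose * G.g (a⁻¹ • x) * Jm A (-a.m) = G.g x
    have h1 := ha (a⁻¹ • x)
    rw [smul_inv_smul] at h1
    rw [← h1]
    have h2 : Jm A a.m * Jm A (-a.m) = 1 := by rw [← Jm_add, add_neg_cancel, Jm_zero]
    have h3 : (Jm A (-a.m)).transpose * (Jm A a.m).transpose = 1 := by
      rw [← Matrix.transpose_mul, h2, Matrix.transpose_one]
    have h4 : (Jm A (-a.m)).transpose * ((Jm A a.m).transpose * G.g x * Jm A a.m) * Jm A (-a.m) =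
        ((Jm A (-a.m)).transpose * (Jm A a.m).transpose) * G.g x * (Jm A a.m * Jm A (-a.m)) := by
      simp only [Matrix.mul_assoc]
    rw [h4, h2, h3, Matrix.one_mul, Matrix.mul_one]

lemma TB_pow (m : ℤ) : (⟨0, 1⟩ : TB A) ^ m = ⟨0, m⟩ := by
  have hmul : ∀ k l : ℤ, (⟨0, k⟩ : TB A) * ⟨0, l⟩ = ⟨0, k + l⟩ := by
    intro k l
    refine TB.ext ?_ rfl
    show (0 : Fin n → ℤ) + ((A ^ k : (Matrix (Fin n) (Fin n) ℤ)ˣ) :
        Matrix (Fin n) (Fin n) ℤ).mulVec (0 : Fin n → ℤ) = 0
    simp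
  let f : Multiplicative ℤ →* TB A :=
    { toFun := fun k => ⟨0, Multiplicative.toAdd k⟩
      map_one' := rfl
      map_mul' := fun k l => (hmul _ _).symm }
  have h1 : f (Multiplicative.ofAdd (1 : ℤ) ^ m) = f (Multiplicative.ofAdd 1) ^ m := map_zpow f _ m
  have h2 : f (Multiplicative.ofAdd 1) = (⟨0, 1⟩ : TB A) := rfl
  rw [h2] at h1
  rw [← h1, ← ofAdd_zsmul]
  refine TB.ext rfl ?_
  show m • (1 : ℤ) = m
  simp

/-- metrics on torus bundles -/
theorem bundle_invariant (G : BundleMetric n (A : Matrix (Fin n) (Fin n) ℤ)) :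
    DeckInvariant (TB A) G.toMetric := by
  have hall : ∀ a : TB A, a ∈ isoSub A G.toMetric := by
    intro a
    have e1 : a = ⟨a.k, 0⟩ * (⟨0, 1⟩ : TB A) ^ a.m := by
      rw [TB_pow]
      refine TB.ext ?_ (zero_add _).symm
      show a.k = a.k + ((A ^ (0 : ℤ) : (Matrix (Fin n) (Fin n) ℤ)ˣ) :
        Matrix (Fin n) (Fin n) ℤ).mulVec (0 : Fin n → ℤ)
      simp
    rw [e1]
    refine mul_mem ?_ (zpow_mem ?_ _)
    · intro x
      show (Jm A 0).transpose * G.g ((⟨a.k, 0⟩ : TB A) • x) * Jm A 0 = G.g x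
      rw [Jm_zero, Matrix.transpose_one, Matrix.one_mul, Matrix.mul_one]
      have h1 : (⟨a.k, 0⟩ : TB A) • x = trans a.k x := by
        funext i
        refine Fin.cases ?_ (fun i => ?_) i
        · rw [bundle_zero]
          show x 0 + ((0 : ℤ) : ℝ) = x 0
          simp
        · rw [bundle_succ]
          show (Pm A 0).mulVec (fun j : Fin n => x j.succ) i + (a.k i : ℝ) = x i.succ + (a.k i : ℝ)
          rw [Pm_zero, Matrix.one_mulVec]
      rw [h1]
      exact G.invariant_trans a.k x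
    · intro x
      show (Jm A 1).transpose * G.g ((⟨0, 1⟩ : TB A) • x) * Jm A 1 = G.g x
      have h1 : (⟨0, 1⟩ : TB A) • x = glue (A : Matrix (Fin n) (Fin n) ℤ) x := by
        funext i
        refine Fin.cases ?_ (fun i => ?_) i
        · rw [bundle_zero]
          show x 0 + ((1 : ℤ) : ℝ) = x 0 + 1
          simp
        · rw [bundle_succ]
          show (Pm A 1).mulVec (fun j : Fin n => x j.succ) i + (((0 : Fin n → ℤ) i : ℤ) : ℝ) =
            (((A : Matrix (Fin n) (Fin n) ℤ)).map (Int.cast : ℤ → ℝ)).mulVec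
              (fun i : Fin n => x i.succ) i
          unfold Pm
          rw [zpow_one]
          simp
      rw [h1, Jm_one]
      exact G.invariant_glue x
  intro a x
  rw [smul_affine, jac_affine]
  exact hall a x

end Pool.Agent.H93.CMC
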