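import Mathlib

/-!
Divergence theorem for periodic fields (helper81 for helper93, MP_8431e9_gt).
-/

namespace H81CMC

open MeasureTheory Set

lemma insertNth_one_eq {n : ℕ} (i : Fin (n + 1)) (x : Fin n → ℝ) :
    (Fin.insertNth i (1:ℝ) x : Fin (n + 1) → ℝ) =
      (Fin.insertNth i (0:ℝ) x : Fin (n + 1) → ℝ) + Pi.single i 1 := by
  funext j
  refine Fin.succAboveCases i ?_ (fun k => ?_) j
  · simp
  · simp [Fin.insertNth_apply_succAbove]

theorem integral_div_periodic (n : ℕ) (W : Fin (n + 1) → (Fin (n + 1) → ℝ) → ℝ)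
    (hW : ∀ i, ContDiff ℝ 1 (W i))
    (hper : ∀ i x, W i (x + Pi.single i 1) = W i x) :
    ∫ x in Icc (0 : Fin (n + 1) → ℝ) 1,
      ∑ i, fderiv ℝ (W i) x (Pi.single i 1) = 0 := by
  have hle : (0 : Fin (n + 1) → ℝ) ≤ 1 := fun _ => zero_le_one
  have hc : Continuous fun x => ∑ i, fderiv ℝ (W i) x (Pi.single i 1) :=
    continuous_finset_sum _ fun i _ =>
      (((hW i).continuous_fderiv one_ne_zero).clm_apply continuous_const)
  rw [integral_divergence_of_hasFDerivAt_off_countable' (0 : Fin (n + 1) → ℝ) 1 hle W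
    (fun i x => fderiv ℝ (W i) x) ∅ countable_empty (fun i => (hW i).continuous.continuousOn)
    (fun x _ i => ((hW i).differentiable one_ne_zero x).hasFDerivAt)
    (hc.continuousOn.integrableOn_compact isCompact_Icc)]
  refine Finset.sum_eq_zero fun i _ => ?_
  rw [sub_eq_zero]
  congr 1
  funext x
  simp only [Pi.one_apply, Pi.zero_apply]
  rw [insertNth_one_eq, hper]

end H81CMC
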