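import Pool.Agent.H93.CMC.Div

/-!
Families of torus metrics with constant mean curvature slices (helper81).
-/

open MeasureTheory Set Filter Topology Matrix

noncomputable section

namespace Pool.Agent.H93.CMC

theorem inv_slices {n : ℕ} (G : TorusMetric n) (h : TorusInvariant G) : CMCSlices G := by
  intro x y hxy
  rw [meanCurv_zero, meanCurv_zero]
  have hw : ∀ z : E n, G.g (z + (x - y)) = G.g z := by
    intro z
    apply h
    simp [hxy]
  have hd : ∀ z : E n, dens G.toMetric (z + (x - y)) = dens G.toMetric z := by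
    intro z; unfold dens; rw [hw]
  have hn : ∀ i, ∀ z : E n, F G.toMetric i (z + (x - y)) = F G.toMetric i z := by
    intro i z; unfold F; rw [hw, hd]
  have e1 : x = y + (x - y) := by abel
  have e2 : dens G.toMetric x = dens G.toMetric y := by
    conv_lhs => rw [e1]
    exact hd _
  have e3 : ∀ i, pd i (F G.toMetric i) x = pd i (F G.toMetric i) y := by
    intro i
    conv_lhs => rw [e1]
    unfold pd
    rw [← fderiv_comp_add_right]
    simp only [hn]
  unfold slice
  rw [e2]
  congr 1
  exact Finset.sum_congr rfl fun i _ => e3 i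

theorem warped_aux {n : ℕ} (G : TorusMetric n)
    (h0 : ∀ (x : E n) (j : Fin (n + 1)), G.g x j 0 = if j = 0 then 1 else 0)
    (A : ℝ → ℝ) (B : E n → ℝ)
    (hB : ∀ (x : E n) (t : ℝ), B (x + Pi.single 0 t) = B x)
    (hAB : ∀ x : E n, dens G.toMetric x = A (x 0) * B x) : CMCSlices G := by
  have hdet : ∀ x, IsUnit (G.g x).det := fun x => (det_pos G.toMetric x).ne'.isUnit
  -- the first column of the inverse
  have hinv : ∀ (x : E n) (i : Fin (n + 1)), (G.g x)⁻¹ i 0 = if i = 0 then 1 else 0 := by
    intro x i
    have e1 : G.g x *ᵥ (Pi.single 0 1) = Pi.single 0 1 := by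
      funext j
      rw [Matrix.mulVec_single_one]
      simp only [Matrix.col_apply, h0, Pi.single_apply]
    have e2 : (G.g x)⁻¹ *ᵥ (Pi.single 0 1) = Pi.single 0 1 := by
      conv_lhs => rw [← e1]
      rw [Matrix.mulVec_mulVec, Matrix.nonsing_inv_mul _ (hdet x), Matrix.one_mulVec]
    have e3 := congrFun e2 i
    rw [Matrix.mulVec_single_one] at e3
    simpa [Pi.single_apply] using e3
  have hn0 : F G.toMetric 0 = dens G.toMetric := by
    funext y; unfold F; rw [hinv]; simp
  have hni : ∀ i : Fin (n + 1), i ≠ 0 → F G.toMetric i = fun _ => 0 := by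
    intro i hi; funext y; unfold F; rw [hinv]; simp [hi]
  have hsum : ∀ x, ∑ i, pd i (F G.toMetric i) x = pd 0 (dens G.toMetric) x := by
    intro x
    rw [Finset.sum_eq_single 0]
    · rw [hn0]
    · intro i _ hi
      rw [hni i hi]
      unfold pd
      simp
    · simp
  -- derivative in the direction of `x₀`
  have hpd : ∀ x : E n, pd 0 (dens G.toMetric) x = deriv A (x 0) * B x := by
    intro x
    have hd : DifferentiableAt ℝ (dens G.toMetric) x :=
      (dens_contDiff G.toMetric).differentiable (by simp) x
    have h1 : HasDerivAt (fun t : ℝ => dens G.toMetric (x + t • Pi.single 0 1))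
        (pd 0 (dens G.toMetric) x) 0 := by
      have hl : HasDerivAt (fun t : ℝ => x + t • (Pi.single 0 1 : E n))
          (Pi.single 0 1) 0 := by
        simpa using ((hasDerivAt_id (0:ℝ)).smul_const (Pi.single 0 1 : E n)).const_add x
      have hd' : HasFDerivAt (dens G.toMetric) (fderiv ℝ (dens G.toMetric) x)
          (x + (0:ℝ) • (Pi.single 0 1 : E n)) := by
        simpa using hd.hasFDerivAt
      exact hd'.comp_hasDerivAt (0:ℝ) hl
    have h2 : (fun t : ℝ => dens G.toMetric (x + t • Pi.single 0 1)) =
        fun t => A (x 0 + t) * B x := by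
      funext t
      have : (t • (Pi.single 0 1 : E n)) = Pi.single 0 t := by
        rw [← Pi.single_smul]; simp
      rw [this, hAB, hB]
      simp
    rw [h2] at h1
    have hBx : B x ≠ 0 := by
      intro h
      have := dens_pos G.toMetric x
      rw [hAB, h, mul_zero] at this
      exact lt_irrefl _ this
    have h3 : HasDerivAt (fun t => A (x 0 + t)) (pd 0 (dens G.toMetric) x / B x) 0 := by
      have := h1.div_const (B x)
      simpa [hBx] using this
    have h4 : HasDerivAt A (pd 0 (dens G.toMetric) x / B x) (x 0) := by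
      have h5 : HasDerivAt (fun t => A (x 0 + t)) (pd 0 (dens G.toMetric) x / B x)
          (x 0 - x 0) := by
        simpa using h3
      have h6 := h5.comp_sub_const (x 0) (x 0)
      simpa using h6
    rw [h4.deriv]
    field_simp
  intro x y hxy
  rw [meanCurv_zero, meanCurv_zero]
  have key : ∀ x : E n, slice G.toMetric x = deriv A (x 0) / A (x 0) := by
    intro x
    unfold slice
    rw [hsum, hpd, hAB]
    have hne : A (x 0) * B x ≠ 0 := by
      rw [← hAB]; exact (dens_pos G.toMetric x).ne'
    have h1 : A (x 0) ≠ 0 := left_ne_zero_of_mul hne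
    have h2 : B x ≠ 0 := right_ne_zero_of_mul hne
    field_simp
  rw [key, key, hxy]

theorem warped_slices {n : ℕ} (G : TorusMetric n) (h : Warped G) : CMCSlices G := by
  obtain ⟨f, k, hf, hG⟩ := h
  refine warped_aux G ?_ (fun t => f t ^ n) (fun x => √(k fun i => x i.succ).det) ?_ ?_
  · intro x j
    refine Fin.cases ?_ (fun i => ?_) j
    · simpa using (hG x).1
    · simpa using ((hG x).2.1 i).1
  · intro x t
    simp
  · intro x
    have hdet : (G.g x).det = (f (x 0) ^ n) ^ 2 * (k fun i => x i.succ).det := by
      rw [Matrix.det_succ_row_zero, Fin.sum_univ_succ]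
      have h1 : ∀ i : Fin n, (-1 : ℝ) ^ ((i.succ : Fin (n + 1)) : ℕ) * G.g x 0 i.succ *
          ((G.g x).submatrix Fin.succ (Fin.succAbove i.succ)).det = 0 := by
        intro i
        rw [((hG x).2.1 i).2]; ring
      rw [Finset.sum_eq_zero fun i _ => h1 i, (hG x).1]
      have h2 : (G.g x).submatrix Fin.succ (Fin.succAbove 0) =
          (f (x 0) ^ 2) • (k fun i => x i.succ) := by
        ext i j
        rw [Matrix.submatrix_apply, Fin.succAbove_zero, (hG x).2.2 i j]
        rfl
      rw [h2, Matrix.det_smul]
      simp only [Fin.val_zero, pow_zero, Fintype.card_fin, one_mul, add_zero]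
      rw [← pow_mul, ← pow_mul, Nat.mul_comm]
    unfold dens
    rw [hdet, Real.sqrt_mul (by positivity), Real.sqrt_sq (pow_nonneg (hf _).le _)]

end Pool.Agent.H93.CMC
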