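import Mathlib

/-!
Fubini for slabs of the unit cube (helper81 for helper93, MP_8431e9_gt).
-/

namespace H81CMC

open MeasureTheory Set

theorem fubini_slab (n : ℕ) (K : (Fin (n + 1) → ℝ) → ℝ) (hK : Continuous K) (T : Set ℝ)
    (hT : MeasurableSet T) :
    ∫ x in Icc (0 : Fin (n + 1) → ℝ) 1 ∩ {x | x 0 ∈ T}, K x =
      ∫ t in Icc (0 : ℝ) 1 ∩ T, ∫ y in Icc (0 : Fin n → ℝ) 1, K (Fin.cons t y) := by
  have he := (volume_preserving_piFinSuccAbove (fun _ : Fin (n + 1) => ℝ) 0).symm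
  set e := (MeasurableEquiv.piFinSuccAbove (fun _ : Fin (n + 1) => ℝ) 0).symm with hedef
  have hap : ∀ z : ℝ × (Fin n → ℝ), e z = (Fin.cons z.1 z.2 : Fin (n + 1) → ℝ) := by
    intro z
    have h0 : e z = (Fin.insertNth 0 z.1 z.2 : Fin (n + 1) → ℝ) := rfl
    rw [h0, Fin.insertNth_zero']
  have hpre : e ⁻¹' (Icc (0 : Fin (n + 1) → ℝ) 1 ∩ {x | x 0 ∈ T}) =
      (Icc (0 : ℝ) 1 ∩ T) ×ˢ Icc (0 : Fin n → ℝ) 1 := by
    ext z
    simp only [mem_preimage, mem_inter_iff, mem_prod, mem_ofPred_eq, hap, Fin.cons_zero, mem_Icc,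
      Pi.le_def, Fin.forall_fin_succ, Fin.cons_succ, Pi.zero_apply, Pi.one_apply]
    tauto
  have hcont : Continuous fun z : ℝ × (Fin n → ℝ) => K (Fin.cons z.1 z.2) := by
    refine hK.comp (continuous_pi fun i => ?_)
    refine Fin.cases ?_ (fun j => ?_) i
    · simpa using continuous_fst
    · simp only [Fin.cons_succ]
      exact (continuous_apply j).comp continuous_snd
  have h1 := he.setIntegral_preimage_emb e.measurableEmbedding K
    (Icc (0 : Fin (n + 1) → ℝ) 1 ∩ {x | x 0 ∈ T})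
  rw [← h1, hpre]
  simp only [hap]
  rw [Measure.volume_eq_prod, setIntegral_prod (fun z : ℝ × (Fin n → ℝ) => K (Fin.cons z.1 z.2))]
  refine IntegrableOn.mono_set (t := Icc (0 : ℝ) 1 ×ˢ Icc (0 : Fin n → ℝ) 1) ?_ ?_
  · exact hcont.continuousOn.integrableOn_compact (isCompact_Icc.prod isCompact_Icc)
  · exact prod_mono inter_subset_left subset_rfl

/-- The weight `t ↦ ∫_{[0,1]^n} K(t,y) dy`. -/
noncomputable def rho {n : ℕ} (K : (Fin (n + 1) → ℝ) → ℝ) (t : ℝ) : ℝ :=
  ∫ y in Icc (0 : Fin n → ℝ) 1, K (Fin.cons t y)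

lemma continuous_cons_pair {n : ℕ} :
    Continuous fun z : ℝ × (Fin n → ℝ) => (Fin.cons z.1 z.2 : Fin (n + 1) → ℝ) := by
  refine continuous_pi fun i => ?_
  refine Fin.cases ?_ (fun j => ?_) i
  · simpa using continuous_fst
  · simp only [Fin.cons_succ]
    exact (continuous_apply j).comp continuous_snd

lemma rho_continuous {n : ℕ} (K : (Fin (n + 1) → ℝ) → ℝ) (hK : Continuous K) :
    Continuous (rho K) := by
  have hc : Continuous (Function.uncurry fun (t : ℝ) (y : Fin n → ℝ) => K (Fin.cons t y)) :=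
    hK.comp continuous_cons_pair
  exact continuous_parametric_integral_of_continuous hc isCompact_Icc

lemma rho_pos {n : ℕ} (K : (Fin (n + 1) → ℝ) → ℝ) (hK : Continuous K) (hpos : ∀ x, 0 < K x)
    (t : ℝ) : 0 < rho K t := by
  have hc : Continuous fun y : Fin n → ℝ => K (Fin.cons t y) :=
    hK.comp (continuous_cons_pair.comp (by fun_prop : Continuous fun y : Fin n → ℝ => (t, y)))
  have hint : IntegrableOn (fun y : Fin n → ℝ => K (Fin.cons t y)) (Icc 0 1) :=
    hc.continuousOn.integrableOn_compact isCompact_Icc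
  unfold rho
  rw [setIntegral_pos_iff_support_of_nonneg_ae
    (Filter.Eventually.of_forall fun y => (hpos _).le) hint]
  have : Function.support (fun y : Fin n → ℝ => K (Fin.cons t y)) ∩ Icc 0 1 = Icc 0 1 := by
    rw [inter_eq_right]
    intro y _
    exact (hpos _).ne'
  rw [this, Real.volume_Icc_pi]
  simp

lemma rho_periodic {n : ℕ} (K : (Fin (n + 1) → ℝ) → ℝ)
    (hper : ∀ x, K (x + Pi.single 0 1) = K x) (t : ℝ) : rho K (t + 1) = rho K t := by
  unfold rho
  congr 1
  funext y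
  rw [← hper (Fin.cons t y)]
  congr 1
  funext i
  refine Fin.cases ?_ (fun j => ?_) i
  · simp
  · simp

/-- volume of a slab union in the unit cube -/
theorem slab_volume {n : ℕ} (K : (Fin (n + 1) → ℝ) → ℝ) (hK : Continuous K)
    (hper : ∀ x, K (x + Pi.single 0 1) = K x) (a b : ℝ) (hab : a < b) (hba : b < a + 1) :
    ∫ x in {x : Fin (n + 1) → ℝ | ∃ k : ℤ, a + k < x 0 ∧ x 0 < b + k} ∩
      Icc (0 : Fin (n + 1) → ℝ) 1, K x = ∫ t in a..b, rho K t := by
  set T : Set ℝ := {t | ∃ k : ℤ, a + k < t ∧ t < b + k} with hTdef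
  have hT : MeasurableSet T := by
    have : T = ⋃ k : ℤ, Ioo (a + k) (b + k) := by
      ext t; simp [hTdef]
    rw [this]
    exact MeasurableSet.iUnion fun k => measurableSet_Ioo
  have h1 : {x : Fin (n + 1) → ℝ | ∃ k : ℤ, a + k < x 0 ∧ x 0 < b + k} ∩
      Icc (0 : Fin (n + 1) → ℝ) 1 = Icc (0 : Fin (n + 1) → ℝ) 1 ∩ {x | x 0 ∈ T} := by
    rw [inter_comm]; rfl
  rw [h1, fubini_slab n K hK T hT]
  change ∫ t in Icc (0 : ℝ) 1 ∩ T, rho K t = _
  set g : ℝ → ℝ := T.indicator (rho K) with hg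
  have hgper : Function.Periodic g 1 := by
    intro t
    have hiff : t + 1 ∈ T ↔ t ∈ T := by
      constructor
      · rintro ⟨k, h1, h2⟩
        exact ⟨k - 1, by push_cast; linarith, by push_cast; linarith⟩
      · rintro ⟨k, h1, h2⟩
        exact ⟨k + 1, by push_cast; linarith, by push_cast; linarith⟩
    by_cases ht : t ∈ T
    · rw [hg, indicator_of_mem ht, indicator_of_mem (hiff.2 ht), rho_periodic K hper]
    · rw [hg, indicator_of_notMem ht, indicator_of_notMem (fun h => ht (hiff.1 h))]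
  have h2 : ∫ t in Icc (0 : ℝ) 1 ∩ T, rho K t = ∫ t in (0:ℝ)..(0 + 1), g t := by
    rw [zero_add, intervalIntegral.integral_of_le zero_le_one, ← integral_Icc_eq_integral_Ioc, hg,
      setIntegral_indicator hT]
  rw [h2, hgper.intervalIntegral_add_eq 0 a, intervalIntegral.integral_of_le (by linarith),
    intervalIntegral.integral_of_le hab.le, hg, setIntegral_indicator hT,
    ← setIntegral_congr_set Ioo_ae_eq_Ioc]
  congr 2
  ext t
  simp only [mem_inter_iff, mem_Ioc, mem_Ioo]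
  constructor
  · rintro ⟨⟨h3, h4⟩, k, h5, h6⟩
    have h7 : (k:ℝ) < 1 := by linarith
    have h8 : (-1:ℝ) < k := by linarith
    have h7' : k < 1 := by exact_mod_cast h7
    have h8' : -1 < k := by exact_mod_cast h8
    have : k = 0 := by omega
    subst this
    simp only [Int.cast_zero, add_zero] at h5 h6
    exact ⟨h5, h6⟩
  · rintro ⟨h3, h4⟩
    exact ⟨⟨h3, by linarith⟩, 0, by simpa using h3, by simpa using h4⟩

end H81CMC
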