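import Mathlib

/-!
One dimensional part of MP_8431e9_gt (helper81 for helper93): weights on the circle.
-/

namespace H81CMC

open MeasureTheory Set

/-- a `1`-periodic function takes the same value at `t` and `t + k` -/
lemma per_int {B : ℝ → ℝ} (hB : ∀ t, B (t + 1) = B t) (t : ℝ) (k : ℤ) : B (t + k) = B t := by
  have h : Function.Periodic B 1 := hB
  have := h.int_mul k t
  simpa using this

lemma sum_eq_of_sets {a₁ b₁ a₂ b₂ : ℝ} {B : ℝ → ℝ} (hB : ∀ t, B (t + 1) = B t)
    (h1 : a₁ < b₁) (h1' : b₁ < a₁ + 1)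
    (hs : {t : ℝ | ∃ k : ℤ, t = a₁ + k ∨ t = b₁ + k} = {t : ℝ | ∃ k : ℤ, t = a₂ + k ∨ t = b₂ + k}) :
    B a₁ + B b₁ = B a₂ + B b₂ := by
  have ha : a₁ ∈ {t : ℝ | ∃ k : ℤ, t = a₁ + k ∨ t = b₁ + k} := ⟨0, Or.inl (by simp)⟩
  have hb : b₁ ∈ {t : ℝ | ∃ k : ℤ, t = a₁ + k ∨ t = b₁ + k} := ⟨0, Or.inr (by simp)⟩
  rw [hs] at ha hb
  obtain ⟨k, hk⟩ := ha
  obtain ⟨l, hl⟩ := hb
  have key : ∀ c : ℝ, a₁ = c + k → b₁ = c + l → False := by
    intro c h h'
    have h2 : (k : ℝ) < l := by linarith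
    have h3 : (l : ℝ) < k + 1 := by linarith
    have h2' : k < l := by exact_mod_cast h2
    have h3' : l < k + 1 := by exact_mod_cast h3
    omega
  rcases hk with hk | hk <;> rcases hl with hl | hl
  · exact (key _ hk hl).elim
  · rw [hk, hl, per_int hB, per_int hB]
  · rw [hk, hl, per_int hB, per_int hB, add_comm]
  · exact (key _ hk hl).elim

theorem two_slabs (ρ h : ℝ → ℝ) (hρc : Continuous ρ) (hρpos : ∀ t, 0 < ρ t)
    (hρper : ∀ t, ρ (t + 1) = ρ t) (hhc : Continuous h) (hhper : ∀ t, h (t + 1) = h t)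
    (hint : ∫ t in (0:ℝ)..1, h t * ρ t = 0) (v : ℝ) (hv0 : 0 < v)
    (hv1 : v < ∫ t in (0:ℝ)..1, ρ t) :
    ∃ a₁ b₁ a₂ b₂ : ℝ,
      (a₁ < b₁ ∧ b₁ < a₁ + 1 ∧ ∫ t in a₁..b₁, ρ t = v ∧ h a₁ + h b₁ = 0) ∧
      (a₂ < b₂ ∧ b₂ < a₂ + 1 ∧ ∫ t in a₂..b₂, ρ t = v ∧ h a₂ + h b₂ = 0) ∧
      {t : ℝ | ∃ k : ℤ, t = a₁ + k ∨ t = b₁ + k} ≠ {t : ℝ | ∃ k : ℤ, t = a₂ + k ∨ t = b₂ + k} := by
  set V : ℝ := ∫ t in (0:ℝ)..1, ρ t with hV
  have hVpos : 0 < V := lt_trans hv0 hv1
  -- the primitive of the weight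
  set P : ℝ → ℝ := fun t => ∫ x in (0:ℝ)..t, ρ x with hP
  have hPd : ∀ t, HasDerivAt P (ρ t) t := fun t =>
    intervalIntegral.integral_hasDerivAt_right (hρc.intervalIntegrable _ _)
      (hρc.stronglyMeasurableAtFilter _ _) hρc.continuousAt
  have hPc : Continuous P := continuous_iff_continuousAt.2 fun t => (hPd t).continuousAt
  have hPmono : StrictMono P := strictMono_of_deriv_pos fun t => by
    rw [(hPd t).deriv]; exact hρpos t
  have hPsub : ∀ a b, ∫ t in a..b, ρ t = P b - P a := by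
    intro a b
    have := intervalIntegral.integral_add_adjacent_intervals
      (hρc.intervalIntegrable (0:ℝ) a (μ := volume)) (hρc.intervalIntegrable a b)
    simp only [hP]; linarith
  have hPper : ∀ t, P (t + 1) = P t + V := by
    intro t
    have h1 := hPsub t (t + 1)
    have hper : Function.Periodic ρ 1 := hρper
    have h2 := hper.intervalIntegral_add_eq t 0
    rw [zero_add] at h2
    rw [h2] at h1
    linarith
  have hP0 : P 0 = 0 := by simp [hP]
  have hPint : ∀ k : ℤ, P k = k * V := by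
    intro k
    induction k using Int.induction_on with
    | zero => simpa using hP0
    | succ n ih => 
      push_cast at ih ⊢
      rw [hPper, ih]; ring
    | pred n ih =>
      have := hPper (-(n:ℝ) - 1)
      push_cast at ih ⊢
      rw [show -(n:ℝ) - 1 + 1 = -n by ring, ih] at this
      linarith
  have hPsurj : Function.Surjective P := by
    intro y
    have hk1 : (⌊y / V⌋ : ℝ) * V ≤ y := by
      have := Int.floor_le (y / V)
      calc (⌊y / V⌋ : ℝ) * V ≤ y / V * V := mul_le_mul_of_nonneg_right this hVpos.le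
        _ = y := by field_simp
    have hk2 : y ≤ ((⌊y / V⌋ + 1 : ℤ) : ℝ) * V := by
      have := (Int.lt_floor_add_one (y / V)).le
      push_cast
      calc y = y / V * V := by field_simp
        _ ≤ (⌊y / V⌋ + 1) * V := mul_le_mul_of_nonneg_right this hVpos.le
    have hle : ((⌊y / V⌋ : ℤ) : ℝ) ≤ ((⌊y / V⌋ + 1 : ℤ) : ℝ) := by push_cast; linarith
    have := intermediate_value_Icc hle hPc.continuousOn
    rw [hPint, hPint] at this
    obtain ⟨t, _, ht⟩ := this ⟨hk1, hk2⟩
    exact ⟨t, ht⟩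
  set e : ℝ ≃o ℝ := hPmono.orderIsoOfSurjective P hPsurj with he
  have heP : ∀ t, e t = P t := fun t => rfl
  set Q : ℝ → ℝ := fun s => e.symm s with hQ
  have hPQ : ∀ s, P (Q s) = s := fun s => by rw [← heP]; exact e.apply_symm_apply s
  have hQP : ∀ t, Q (P t) = t := fun t => by rw [← heP]; exact e.symm_apply_apply t
  have hQc : Continuous Q := e.symm.continuous
  have hQmono : StrictMono Q := e.symm.strictMono
  have hQd : ∀ s, HasDerivAt Q (ρ (Q s))⁻¹ s := fun s =>
    HasDerivAt.of_local_left_inverse hQc.continuousAt (hPd (Q s)) (hρpos _).ne'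
      (Filter.Eventually.of_forall hPQ)
  have hQper : ∀ s, Q (s + V) = Q s + 1 := by
    intro s
    have : P (Q s + 1) = s + V := by rw [hPper, hPQ]
    rw [← this, hQP]
  -- the primitive of the mean curvature
  set B : ℝ → ℝ := fun t => ∫ x in (0:ℝ)..t, h x * ρ x with hB
  have hhρ : Continuous fun x => h x * ρ x := hhc.mul hρc
  have hBd : ∀ t, HasDerivAt B (h t * ρ t) t := fun t =>
    intervalIntegral.integral_hasDerivAt_right (hhρ.intervalIntegrable _ _)
      (hhρ.stronglyMeasurableAtFilter _ _) hhρ.continuousAt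
  have hBper : ∀ t, B (t + 1) = B t := by
    intro t
    have hper : Function.Periodic (fun x => h x * ρ x) 1 := fun x => by
      simp only [hhper, hρper]
    have h2 := hper.intervalIntegral_add_eq t 0
    rw [zero_add, hint] at h2
    have := intervalIntegral.integral_add_adjacent_intervals
      (hhρ.intervalIntegrable (0:ℝ) t (μ := volume)) (hhρ.intervalIntegrable t (t+1))
    simp only [hB]; rw [← this, h2, add_zero]
  set S : ℝ → ℝ := fun s => B (Q s) + B (Q (s + v)) with hS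
  have hSd : ∀ s, HasDerivAt S (h (Q s) + h (Q (s + v))) s := by
    intro s
    have h1 : HasDerivAt (fun s => B (Q s)) (h (Q s)) s := by
      have := (hBd (Q s)).comp s (hQd s)
      have hne := (hρpos (Q s)).ne'
      rwa [show h (Q s) * ρ (Q s) * (ρ (Q s))⁻¹ = h (Q s) by field_simp] at this
    have h2 : HasDerivAt (fun s => B (Q (s + v))) (h (Q (s + v))) s := by
      have := (hBd (Q (s + v))).comp (s + v) (hQd (s + v))
      have hne := (hρpos (Q (s + v))).ne'
      rw [show h (Q (s + v)) * ρ (Q (s + v)) * (ρ (Q (s + v)))⁻¹ = h (Q (s + v)) by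
        field_simp] at this
      exact this.comp_add_const s v
    exact h1.add h2
  have hSc : Continuous S := continuous_iff_continuousAt.2 fun t => (hSd t).continuousAt
  have hSper : Function.Periodic S V := by
    intro s
    simp only [hS]
    rw [show s + V + v = s + v + V by ring, hQper, hQper, hBper, hBper]
  have hgood : ∀ s, h (Q s) + h (Q (s + v)) = 0 →
      (Q s < Q (s + v) ∧ Q (s + v) < Q s + 1 ∧ ∫ t in (Q s)..(Q (s + v)), ρ t = v ∧
        h (Q s) + h (Q (s + v)) = 0) := by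
    intro s hs
    refine ⟨hQmono (by linarith), ?_, ?_, hs⟩
    · rw [← hQper]; exact hQmono (by linarith)
    · rw [hPsub, hPQ, hPQ]; ring
  obtain ⟨M, hM, hMmax⟩ := isCompact_Icc.exists_isMaxOn (nonempty_Icc.2 hVpos.le)
    (hSc.continuousOn (s := Icc 0 V))
  obtain ⟨m, hm, hmmin⟩ := isCompact_Icc.exists_isMinOn (nonempty_Icc.2 hVpos.le)
    (hSc.continuousOn (s := Icc 0 V))
  have hMg : ∀ s, S s ≤ S M := by
    intro s
    obtain ⟨y, hy, hsy⟩ := hSper.exists_mem_Ico₀ hVpos s
    rw [hsy]; exact hMmax (Ico_subset_Icc_self hy)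
  have hmg : ∀ s, S m ≤ S s := by
    intro s
    obtain ⟨y, hy, hsy⟩ := hSper.exists_mem_Ico₀ hVpos s
    rw [hsy]; exact hmmin (Ico_subset_Icc_self hy)
  have hM0 : h (Q M) + h (Q (M + v)) = 0 :=
    IsLocalMax.hasDerivAt_eq_zero (Filter.Eventually.of_forall hMg) (hSd M)
  have hm0 : h (Q m) + h (Q (m + v)) = 0 :=
    IsLocalMin.hasDerivAt_eq_zero (Filter.Eventually.of_forall hmg) (hSd m)
  by_cases hne : S M = S m
  · -- the constant case
    have hconst : ∀ s, S s = S m := fun s => le_antisymm (hne ▸ hMg s) (hmg s)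
    have hz : ∀ s, h (Q s) + h (Q (s + v)) = 0 := fun s =>
      IsLocalMax.hasDerivAt_eq_zero
        (Filter.Eventually.of_forall fun y => by rw [hconst y, hconst s]) (hSd s)
    refine ⟨_, _, _, _, hgood 0 (hz 0), hgood (v / 2) (hz (v / 2)), ?_⟩
    intro hs
    have hmem : Q (v / 2) ∈ {t : ℝ | ∃ k : ℤ, t = Q 0 + k ∨ t = Q (0 + v) + k} := by
      rw [hs]; exact ⟨0, Or.inl (by simp)⟩
    obtain ⟨k, hk⟩ := hmem
    have h1 : Q 0 < Q (v / 2) := hQmono (by linarith)
    have h2 : Q (v / 2) < Q (0 + v) := hQmono (by linarith)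
    have h3 := (hgood 0 (hz 0)).2.1
    rcases hk with hk | hk
    · have h4 : (0:ℝ) < k := by linarith
      have h5 : (k:ℝ) < 1 := by linarith
      have h4' : 0 < k := by exact_mod_cast h4
      have h5' : k < 1 := by exact_mod_cast h5
      omega
    · have h4 : (k:ℝ) < 0 := by linarith
      have h5 : (-1:ℝ) < k := by linarith
      have h4' : k < 0 := by exact_mod_cast h4
      have h5' : -1 < k := by exact_mod_cast h5
      omega
  · refine ⟨_, _, _, _, hgood M hM0, hgood m hm0, ?_⟩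
    intro hs
    exact hne (sum_eq_of_sets hBper (hgood M hM0).1 (hgood M hM0).2.1 hs)

end H81CMC
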