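import Mathlib

/-!
The periodic slab `⋃ₖ {a + k < x₀ < b + k}` (helper81 for helper93, MP_8431e9_gt).
-/

namespace H81CMC

open Set

/-- the periodic slab -/
def slab (n : ℕ) (a b : ℝ) : Set (Fin (n + 1) → ℝ) := {x | ∃ k : ℤ, a + k < x 0 ∧ x 0 < b + k}

/-- the periodic pair of slices -/
def slices (n : ℕ) (a b : ℝ) : Set (Fin (n + 1) → ℝ) := {x | ∃ k : ℤ, x 0 = a + k ∨ x 0 = b + k}

lemma isOpen_slab (n : ℕ) (a b : ℝ) : IsOpen (slab n a b) := by
  have : slab n a b = ⋃ k : ℤ, (fun x : Fin (n + 1) → ℝ => x 0) ⁻¹' Ioo (a + k) (b + k) := by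
    ext x; simp [slab]
  rw [this]
  exact isOpen_iUnion fun k => isOpen_Ioo.preimage (continuous_apply 0)

lemma slab_periodic (n : ℕ) (a b : ℝ) (x : Fin (n + 1) → ℝ) (z : Fin (n + 1) → ℤ) :
    (x + fun i => (z i : ℝ)) ∈ slab n a b ↔ x ∈ slab n a b := by
  simp only [slab, mem_ofPred_eq, Pi.add_apply]
  constructor
  · rintro ⟨k, h1, h2⟩
    exact ⟨k - z 0, by push_cast; linarith, by push_cast; linarith⟩
  · rintro ⟨k, h1, h2⟩
    exact ⟨k + z 0, by push_cast; linarith, by push_cast; linarith⟩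

/-- points near `x₀ = a + k` -/
lemma near_a {a b t : ℝ} (hab : a < b) (hba : b < a + 1) (k : ℤ) (h1 : b - 1 + k < t)
    (h2 : t < b + k) :
    ((∃ l : ℤ, a + l < t ∧ t < b + l) ↔ (a + k) - t < 0) ∧
      ((∃ l : ℤ, t = a + l ∨ t = b + l) ↔ (a + k) - t = 0) := by
  constructor
  · constructor
    · rintro ⟨l, h3, h4⟩
      by_contra h5
      rw [not_lt] at h5
      have h6 : (l:ℝ) < k := by linarith
      have h7 : (k:ℝ) < l + 1 := by linarith
      have h6' : l < k := by exact_mod_cast h6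
      have h7' : k < l + 1 := by exact_mod_cast h7
      omega
    · intro h
      exact ⟨k, by linarith, h2⟩
  · constructor
    · rintro ⟨l, h3 | h3⟩
      · have h6 : (l:ℝ) < k + 1 := by linarith
        have h7 : (k:ℝ) < l + 1 := by linarith
        have h6' : l < k + 1 := by exact_mod_cast h6
        have h7' : k < l + 1 := by exact_mod_cast h7
        have : k = l := by omega
        subst this; linarith
      · exfalso
        have h6 : (l:ℝ) < k := by linarith
        have h7 : (k:ℝ) < l + 1 := by linarith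
        have h6' : l < k := by exact_mod_cast h6
        have h7' : k < l + 1 := by exact_mod_cast h7
        omega
    · intro h
      exact ⟨k, Or.inl (by linarith)⟩

/-- points near `x₀ = b + k` -/
lemma near_b {a b t : ℝ} (hab : a < b) (hba : b < a + 1) (k : ℤ) (h1 : a + k < t)
    (h2 : t < a + 1 + k) :
    ((∃ l : ℤ, a + l < t ∧ t < b + l) ↔ t - (b + k) < 0) ∧
      ((∃ l : ℤ, t = a + l ∨ t = b + l) ↔ t - (b + k) = 0) := by
  constructor
  · constructor
    · rintro ⟨l, h3, h4⟩
      by_contra h5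
      rw [not_lt] at h5
      have h6 : (k:ℝ) < l := by linarith
      have h7 : (l:ℝ) < k + 1 := by linarith
      have h6' : k < l := by exact_mod_cast h6
      have h7' : l < k + 1 := by exact_mod_cast h7
      omega
    · intro h
      exact ⟨k, h1, by linarith⟩
  · constructor
    · rintro ⟨l, h3 | h3⟩
      · exfalso
        have h6 : (k:ℝ) < l := by linarith
        have h7 : (l:ℝ) < k + 1 := by linarith
        have h6' : k < l := by exact_mod_cast h6
        have h7' : l < k + 1 := by exact_mod_cast h7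
        omega
      · have h6 : (l:ℝ) < k + 1 := by linarith
        have h7 : (k:ℝ) < l + 1 := by linarith
        have h6' : l < k + 1 := by exact_mod_cast h6
        have h7' : k < l + 1 := by exact_mod_cast h7
        have : k = l := by omega
        subst this; linarith
    · intro h
      exact ⟨k, Or.inr (by linarith)⟩

lemma frontier_real {a b : ℝ} (hab : a < b) (hba : b < a + 1) :
    frontier {t : ℝ | ∃ k : ℤ, a + k < t ∧ t < b + k} = {t : ℝ | ∃ k : ℤ, t = a + k ∨ t = b + k} := by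
  have hopen : ∀ c d : ℝ, IsOpen {t : ℝ | ∃ k : ℤ, c + k < t ∧ t < d + k} := by
    intro c d
    have : {t : ℝ | ∃ k : ℤ, c + k < t ∧ t < d + k} = ⋃ k : ℤ, Ioo (c + k) (d + k) := by
      ext t; simp
    rw [this]
    exact isOpen_iUnion fun k => isOpen_Ioo
  rw [(hopen a b).frontier_eq]
  ext t
  simp only [mem_sdiff, mem_ofPred_eq]
  constructor
  · rintro ⟨hcl, hnot⟩
    by_contra hns
    -- t lies in the complementary slab
    set k : ℤ := ⌊t - a⌋ with hk
    have h1 : a + k ≤ t := by have := Int.floor_le (t - a); linarith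
    have h2 : t < a + k + 1 := by have := Int.lt_floor_add_one (t - a); linarith
    have h1' : a + k < t := lt_of_le_of_ne h1 fun h => hns ⟨k, Or.inl h.symm⟩
    have h3 : b + k < t := by
      rcases lt_trichotomy t (b + k) with h | h | h
      · exact (hnot ⟨k, h1', h⟩).elim
      · exact (hns ⟨k, Or.inr h⟩).elim
      · exact h
    have hU : IsOpen (Ioo (b + k) (a + k + 1) : Set ℝ) := isOpen_Ioo
    rw [mem_closure_iff] at hcl
    obtain ⟨s, hs, l, h4, h5⟩ := hcl _ hU ⟨h3, h2⟩
    have h6 : (k:ℝ) < l := by linarith [hs.1]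
    have h7 : (l:ℝ) < k + 1 := by linarith [hs.2]
    have h6' : k < l := by exact_mod_cast h6
    have h7' : l < k + 1 := by exact_mod_cast h7
    omega
  · rintro ⟨k, hk⟩
    have hsub : Ioo (a + k) (b + k) ⊆ {t : ℝ | ∃ k : ℤ, a + k < t ∧ t < b + k} :=
      fun s hs => ⟨k, hs.1, hs.2⟩
    have hcl := closure_mono hsub
    rw [closure_Ioo (by linarith : a + (k:ℝ) ≠ b + k)] at hcl
    rcases hk with hk | hk
    · refine ⟨hcl ⟨by linarith, by linarith⟩, ?_⟩
      rw [(near_a hab hba k (by linarith) (by linarith)).1]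
      linarith
    · refine ⟨hcl ⟨by linarith, by linarith⟩, ?_⟩
      rw [(near_b hab hba k (by linarith) (by linarith)).1]
      linarith

lemma frontier_slab (n : ℕ) {a b : ℝ} (hab : a < b) (hba : b < a + 1) :
    frontier (slab n a b) = slices n a b := by
  have ho : IsOpenMap (fun x : Fin (n + 1) → ℝ => x 0) := isOpenMap_eval 0
  have h := ho.preimage_frontier_eq_frontier_preimage
    (continuous_apply 0) ({t : ℝ | ∃ k : ℤ, a + k < t ∧ t < b + k})
  change frontier ((fun x : Fin (n + 1) → ℝ => x 0) ⁻¹'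
    {t : ℝ | ∃ k : ℤ, a + k < t ∧ t < b + k}) = _
  rw [← h, frontier_real hab hba]
  rfl

/-- distinct real sets give distinct slices -/
lemma slices_ne (n : ℕ) {a₁ b₁ a₂ b₂ : ℝ}
    (h : {t : ℝ | ∃ k : ℤ, t = a₁ + k ∨ t = b₁ + k} ≠ {t : ℝ | ∃ k : ℤ, t = a₂ + k ∨ t = b₂ + k}) :
    slices n a₁ b₁ ≠ slices n a₂ b₂ := by
  intro h'
  apply h
  ext t
  have := congrArg (fun S : Set (Fin (n + 1) → ℝ) => (fun _ : Fin (n + 1) => t) ∈ S) h'
  simpa [slices] using this

/-- every point of a slice has an open neighbourhood in which the slab is given by one side of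
the slice, outward defining function `(a + k) - x₀` or `x₀ - (b + k)` -/
theorem slab_local (n : ℕ) {a b : ℝ} (hab : a < b) (hba : b < a + 1) (p : Fin (n + 1) → ℝ)
    (hp : p ∈ slices n a b) :
    ∃ U : Set (Fin (n + 1) → ℝ), IsOpen U ∧ p ∈ U ∧ ∃ k : ℤ,
      (p 0 = a + k ∧ ∀ x ∈ U, (x ∈ slab n a b ↔ (a + k) - x 0 < 0) ∧
        (x ∈ slices n a b ↔ (a + k) - x 0 = 0)) ∨
      (p 0 = b + k ∧ ∀ x ∈ U, (x ∈ slab n a b ↔ x 0 - (b + k) < 0) ∧
        (x ∈ slices n a b ↔ x 0 - (b + k) = 0)) := by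
  obtain ⟨k, hk⟩ := hp
  rcases hk with hk | hk
  · refine ⟨(fun x : Fin (n + 1) → ℝ => x 0) ⁻¹' Ioo (b - 1 + k) (b + k),
      isOpen_Ioo.preimage (continuous_apply 0), ⟨by linarith, by linarith⟩, k,
      Or.inl ⟨hk, fun x hx => near_a hab hba k hx.1 hx.2⟩⟩
  · refine ⟨(fun x : Fin (n + 1) → ℝ => x 0) ⁻¹' Ioo (a + k) (a + 1 + k),
      isOpen_Ioo.preimage (continuous_apply 0), ⟨by linarith, by linarith⟩, k,
      Or.inr ⟨hk, fun x hx => near_b hab hba k hx.1 hx.2⟩⟩

end H81CMC
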