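import Mathlib
import Pool.Agent.H81.CMC.OneD
import Pool.Agent.H81.CMC.DivP
import Pool.Agent.H81.CMC.Fub
import Pool.Agent.H81.CMC.Slab

/-!
Tori with constant mean curvature slices (helper81 for helper93, MP_8431e9_gt).
-/

namespace H81CMC

open MeasureTheory Set
open scoped ContDiff

/-- A smooth Riemannian metric on the torus `ℝ^m/ℤ^m`, given by its coefficients on `ℝ^m`:
a `ℤ^m`-periodic smooth field of positive definite symmetric matrices. -/
structure TorusMetric (m : ℕ) where
  coeff : (Fin m → ℝ) → Matrix (Fin m) (Fin m) ℝ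
  smooth : ∀ i j, ContDiff ℝ ∞ fun x => coeff x i j
  posDef : ∀ x, (coeff x).PosDef
  periodic : ∀ (x : Fin m → ℝ) (z : Fin m → ℤ), coeff (x + fun i => (z i : ℝ)) = coeff x

/-- partial derivative in the `i`-th coordinate -/
noncomputable def pd {m : ℕ} (i : Fin m) (F : (Fin m → ℝ) → ℝ) (x : Fin m → ℝ) : ℝ :=
  fderiv ℝ F x (Pi.single i 1)

namespace TorusMetric

variable {m : ℕ} (g : TorusMetric m)

/-- Riemannian volume density `√det g` -/
noncomputable def dens (x : Fin m → ℝ) : ℝ := √(g.coeff x).det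

/-- Riemannian volume, in the torus, of (the image of) a `ℤ^m`-periodic set `Ω` -/
noncomputable def vol (Ω : Set (Fin m → ℝ)) : ℝ :=
  ∫ x in Ω ∩ Icc (0 : Fin m → ℝ) 1, g.dens x

/-- components of the Riemannian gradient -/
noncomputable def grad (F : (Fin m → ℝ) → ℝ) (x : Fin m → ℝ) (i : Fin m) : ℝ :=
  ∑ j, (g.coeff x)⁻¹ i j * pd j F x

/-- Riemannian norm of the gradient -/
noncomputable def gradNorm (F : (Fin m → ℝ) → ℝ) (x : Fin m → ℝ) : ℝ :=
  √(∑ i, pd i F x * g.grad F x i)

/-- Riemannian divergence of the field `X` -/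
noncomputable def div (X : (Fin m → ℝ) → Fin m → ℝ) (x : Fin m → ℝ) : ℝ :=
  (∑ i, pd i (fun y => g.dens y * X y i) x) / g.dens x

/-- mean curvature of the level set of `F` through `x` with respect to the unit normal
`∇F/|∇F|` -/
noncomputable def meanCurv (F : (Fin m → ℝ) → ℝ) (x : Fin m → ℝ) : ℝ :=
  g.div (fun y i => g.grad F y i / g.gradNorm F y) x

/-- `S` is (the lift to `ℝ^m` of) a smooth closed embedded hypersurface of constant mean curvature
in the torus which bounds an open set `Ω` of volume `v`. -/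
def EnclosesCMC (v : ℝ) (S : Set (Fin m → ℝ)) : Prop :=
  ∃ Ω : Set (Fin m → ℝ), IsOpen Ω ∧
    (∀ (x : Fin m → ℝ) (z : Fin m → ℤ), (x + fun i => (z i : ℝ)) ∈ Ω ↔ x ∈ Ω) ∧
    g.vol Ω = v ∧ S = frontier Ω ∧
    ∃ H : ℝ, ∀ p ∈ S, ∃ (U : Set (Fin m → ℝ)) (F : (Fin m → ℝ) → ℝ), IsOpen U ∧ p ∈ U ∧
      ContDiff ℝ ∞ F ∧ (∀ x ∈ U, fderiv ℝ F x ≠ 0) ∧
      (∀ x ∈ U, (x ∈ Ω ↔ F x < 0) ∧ (x ∈ S ↔ F x = 0)) ∧
      ∀ x ∈ U, x ∈ S → g.meanCurv F x = H

end TorusMetric

lemma contDiff_det {m k : ℕ} {M : (Fin m → ℝ) → Matrix (Fin k) (Fin k) ℝ}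
    (h : ∀ i j, ContDiff ℝ ∞ fun x => M x i j) : ContDiff ℝ ∞ fun x => (M x).det := by
  simp only [Matrix.det_apply']
  exact ContDiff.sum fun σ _ => contDiff_const.mul (contDiff_prod fun i _ => h _ _)

namespace TorusMetric

variable {m : ℕ} (g : TorusMetric m)

lemma det_pos (x : Fin m → ℝ) : 0 < (g.coeff x).det := (g.posDef x).det_pos

lemma dens_pos (x : Fin m → ℝ) : 0 < g.dens x := Real.sqrt_pos.2 (g.det_pos x)

lemma contDiff_dens : ContDiff ℝ ∞ g.dens :=
  (contDiff_det g.smooth).sqrt fun x => (g.det_pos x).ne'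

lemma inv_apply (x : Fin m → ℝ) (i j : Fin m) :
    (g.coeff x)⁻¹ i j = ((g.coeff x).det)⁻¹ * (g.coeff x).adjugate i j := by
  rw [Matrix.inv_def, Ring.inverse_eq_inv', Matrix.smul_apply, smul_eq_mul]

lemma contDiff_inv (i j : Fin m) : ContDiff ℝ ∞ fun x => (g.coeff x)⁻¹ i j := by
  simp only [g.inv_apply]
  refine ((contDiff_det g.smooth).inv fun x => (g.det_pos x).ne').mul ?_
  simp only [Matrix.adjugate_apply]
  refine contDiff_det fun k l => ?_
  simp only [Matrix.updateRow_apply]
  split_ifs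
  · exact contDiff_const
  · exact g.smooth k l

lemma inv_diag_pos (x : Fin m → ℝ) (i : Fin m) : 0 < (g.coeff x)⁻¹ i i :=
  (g.posDef x).inv.diag_pos

lemma dens_periodic (x : Fin m → ℝ) (z : Fin m → ℤ) :
    g.dens (x + fun i => (z i : ℝ)) = g.dens x := by
  unfold dens; rw [g.periodic]

end TorusMetric

section slices

variable {n : ℕ} (g : TorusMetric (n + 1))

lemma pd_coord_sub (c : ℝ) (j : Fin (n + 1)) (x : Fin (n + 1) → ℝ) :
    pd j (fun y => y 0 - c) x = if j = 0 then 1 else 0 := by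
  unfold pd
  rw [fderiv_sub_const]
  have : fderiv ℝ (fun y : Fin (n + 1) → ℝ => y 0) x =
      ContinuousLinearMap.proj (R := ℝ) (φ := fun _ : Fin (n + 1) => ℝ) 0 :=
    (ContinuousLinearMap.proj (R := ℝ) (φ := fun _ : Fin (n + 1) => ℝ) 0).fderiv
  rw [this]
  simp only [ContinuousLinearMap.proj_apply, Pi.single_apply]
  simp only [eq_comm]

lemma pd_sub_coord (c : ℝ) (j : Fin (n + 1)) (x : Fin (n + 1) → ℝ) :
    pd j (fun y => c - y 0) x = -(if j = 0 then 1 else 0) := by
  rw [← pd_coord_sub c]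
  have : (fun y : Fin (n + 1) → ℝ => c - y 0) = fun y => -(y 0 - c) := by
    funext y; ring
  unfold pd
  rw [this, fderiv_fun_neg]
  rfl

/-- the weighted unit normal field of the slices -/
noncomputable def nf (i : Fin (n + 1)) (y : Fin (n + 1) → ℝ) : ℝ :=
  g.dens y * ((g.coeff y)⁻¹ i 0 / √((g.coeff y)⁻¹ 0 0))

lemma meanCurv_coord_sub (c : ℝ) (x : Fin (n + 1) → ℝ) :
    g.meanCurv (fun y => y 0 - c) x = (∑ i, pd i (nf g i) x) / g.dens x := by
  simp only [TorusMetric.meanCurv, TorusMetric.div, TorusMetric.gradNorm, TorusMetric.grad,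
    pd_coord_sub, mul_ite, mul_one, mul_zero, Finset.sum_ite_eq', Finset.mem_univ, if_true,
    ite_mul, one_mul, zero_mul]
  rfl

lemma meanCurv_sub_coord (c : ℝ) (x : Fin (n + 1) → ℝ) :
    g.meanCurv (fun y => c - y 0) x = -((∑ i, pd i (nf g i) x) / g.dens x) := by
  simp only [TorusMetric.meanCurv, TorusMetric.div, TorusMetric.gradNorm, TorusMetric.grad,
    pd_sub_coord, mul_neg, mul_ite, mul_one, mul_zero, Finset.sum_neg_distrib,
    Finset.sum_ite_eq', Finset.mem_univ, if_true, neg_mul, neg_neg,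
    ite_mul, one_mul, zero_mul]
  rw [← neg_div, ← Finset.sum_neg_distrib]
  congr 1
  refine Finset.sum_congr rfl fun i _ => ?_
  have : (fun y => g.dens y * (-(g.coeff y)⁻¹ i 0 / √((g.coeff y)⁻¹ 0 0))) =
      fun y => -(nf g i y) := by
    funext y; unfold nf; ring
  rw [this]
  unfold pd
  rw [fderiv_fun_neg]
  rfl

lemma contDiff_nf (i : Fin (n + 1)) : ContDiff ℝ ∞ (nf g i) := by
  refine g.contDiff_dens.mul ((g.contDiff_inv i 0).div
    ((g.contDiff_inv 0 0).sqrt fun x => (g.inv_diag_pos x 0).ne') fun x => ?_)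
  exact (Real.sqrt_pos.2 (g.inv_diag_pos x 0)).ne'

lemma nf_periodic (i : Fin (n + 1)) (x : Fin (n + 1) → ℝ) (z : Fin (n + 1) → ℤ) :
    nf g i (x + fun i => (z i : ℝ)) = nf g i x := by
  unfold nf; rw [g.dens_periodic, g.periodic]

lemma single_eq_int (j : Fin (n + 1)) :
    (Pi.single j 1 : Fin (n + 1) → ℝ) = fun i => (((Pi.single j 1 : Fin (n + 1) → ℤ) i : ℤ) : ℝ) := by
  funext i
  by_cases h : i = j
  · subst h; simp
  · simp [Pi.single_eq_of_ne h]

lemma continuous_pd {F : (Fin (n + 1) → ℝ) → ℝ} (hF : ContDiff ℝ ∞ F) (i : Fin (n + 1)) :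
    Continuous (pd i F) :=
  (hF.continuous_fderiv (by simp)).clm_apply continuous_const

lemma pd_periodic {F : (Fin (n + 1) → ℝ) → ℝ} (w : Fin (n + 1) → ℝ)
    (hF : ∀ x, F (x + w) = F x) (i : Fin (n + 1)) (x : Fin (n + 1) → ℝ) :
    pd i F (x + w) = pd i F x := by
  unfold pd
  rw [← fderiv_comp_add_right]
  simp only [hF]

end slices

open TorusMetric in
/-- If every slice `{x₀ = c}` has constant mean curvature then every volume is enclosed by at
least two CMC hypersurfaces. -/
theorem two_CMC (n : ℕ) (g : TorusMetric (n + 1))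
    (hg : ∀ c : ℝ, ∃ H : ℝ, ∀ x : Fin (n + 1) → ℝ, x 0 = c → g.meanCurv (fun y => y 0 - c) x = H)
    (v : ℝ) (hv0 : 0 < v) (hv1 : v < g.vol univ) :
    ∃ S₁ S₂ : Set (Fin (n + 1) → ℝ), S₁ ≠ S₂ ∧ g.EnclosesCMC v S₁ ∧ g.EnclosesCMC v S₂ := by
  choose H hH using hg
  -- the divergence of the unit normal field
  set Dv : (Fin (n + 1) → ℝ) → ℝ := fun x => ∑ i, pd i (nf g i) x with hDv
  have hDH : ∀ x, Dv x / g.dens x = H (x 0) := fun x => by
    rw [← meanCurv_coord_sub g (x 0) x]; exact hH _ _ rfl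
  have hDc : Continuous Dv := continuous_finsetSum _ fun i _ => continuous_pd (contDiff_nf g i) i
  have hdc : Continuous g.dens := g.contDiff_dens.continuous
  have hHc : Continuous H := by
    have h1 : H = fun t => Dv (fun _ => t) / g.dens (fun _ => t) := by
      funext t; rw [hDH]
    rw [h1]
    have h2 : Continuous fun t : ℝ => (fun _ : Fin (n + 1) => t) := continuous_pi fun _ => continuous_id
    exact (hDc.comp h2).div (hdc.comp h2) fun t => (g.dens_pos _).ne'
  have hHper : ∀ t, H (t + 1) = H t := by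
    intro t
    have e1 := hDH (fun _ => t)
    have e2 := hDH ((fun _ => t) + fun i => (((fun _ => 1 : Fin (n + 1) → ℤ) i : ℤ) : ℝ))
    have e3 : Dv ((fun _ => t) + fun i => (((fun _ => 1 : Fin (n + 1) → ℤ) i : ℤ) : ℝ)) =
        Dv (fun _ => t) := by
      simp only [hDv]
      exact Finset.sum_congr rfl fun i _ => pd_periodic _ (fun x => nf_periodic g i x _) i _
    rw [e3, g.dens_periodic, e1] at e2
    simpa using e2.symm
  have hdper : ∀ x, g.dens (x + Pi.single 0 1) = g.dens x := by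
    intro x; rw [single_eq_int, g.dens_periodic]
  have hint : ∫ t in (0:ℝ)..1, H t * rho g.dens t = 0 := by
    have h1 := integral_div_periodic n (fun i => nf g i) (fun i => (contDiff_nf g i).of_le (by simp))
      (fun i x => by rw [single_eq_int, nf_periodic])
    have h2 := fubini_slab n (fun x => H (x 0) * g.dens x)
      ((hHc.comp (continuous_apply 0)).mul hdc) univ MeasurableSet.univ
    have h3 : (fun x => ∑ i, fderiv ℝ (nf g i) x (Pi.single i 1)) =
        fun x => H (x 0) * g.dens x := by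
      funext x
      rw [← hDH x, div_mul_cancel₀ _ (g.dens_pos x).ne']
      rfl
    rw [h3] at h1
    simp only [mem_univ, ofPred_true, inter_univ, Fin.cons_zero] at h2
    rw [h1] at h2
    rw [intervalIntegral.integral_of_le zero_le_one, ← integral_Icc_eq_integral_Ioc]
    refine Eq.trans ?_ h2.symm
    refine setIntegral_congr_fun measurableSet_Icc fun t _ => ?_
    simp only [rho]
    rw [integral_const_mul]
  have hvol : g.vol univ = ∫ t in (0:ℝ)..1, rho g.dens t := by
    have h2 := fubini_slab n g.dens hdc univ MeasurableSet.univ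
    simp only [mem_univ, ofPred_true, inter_univ] at h2
    rw [intervalIntegral.integral_of_le zero_le_one, ← integral_Icc_eq_integral_Ioc]
    unfold vol
    rw [univ_inter, h2]
    rfl
  rw [hvol] at hv1
  obtain ⟨a₁, b₁, a₂, b₂, ⟨h1, h1', h1v, h1H⟩, ⟨h2, h2', h2v, h2H⟩, hne⟩ :=
    two_slabs (rho g.dens) H (rho_continuous _ hdc) (rho_pos _ hdc g.dens_pos)
      (rho_periodic _ hdper) hHc hHper hint v hv0 hv1
  have main : ∀ a b : ℝ, a < b → b < a + 1 → ∫ t in a..b, rho g.dens t = v → H a + H b = 0 →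
      g.EnclosesCMC v (slices n a b) := by
    intro a b hab hba hv hs
    have hHint : ∀ (t : ℝ) (k : ℤ), H (t + k) = H t := fun t k => per_int hHper t k
    refine ⟨slab n a b, isOpen_slab n a b, slab_periodic n a b, ?_, (frontier_slab n hab hba).symm,
      H b, ?_⟩
    · unfold vol
      rw [← hv]
      exact slab_volume g.dens hdc hdper a b hab hba
    · intro p hp
      obtain ⟨U, hU, hpU, k, ⟨hpk, hloc⟩ | ⟨hpk, hloc⟩⟩ := slab_local n hab hba p hp
      · refine ⟨U, fun y => (a + k) - y 0, hU, hpU, ?_, ?_, hloc, ?_⟩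
        · exact contDiff_const.sub (contDiff_apply ℝ ℝ 0)
        · intro x _ h0
          have := pd_sub_coord (a + k) (0 : Fin (n + 1)) x
          unfold pd at this
          rw [h0] at this
          simp at this
        · intro x hx hxS
          have hx0 : x 0 = a + k := by have := (hloc x hx).2.1 hxS; linarith
          rw [meanCurv_sub_coord]
          have := hDH x
          simp only [hDv] at this
          rw [this, hx0, hHint]
          linarith
      · refine ⟨U, fun y => y 0 - (b + k), hU, hpU, ?_, ?_, hloc, ?_⟩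
        · exact (contDiff_apply ℝ ℝ 0).sub contDiff_const
        · intro x _ h0
          have := pd_coord_sub (b + k) (0 : Fin (n + 1)) x
          unfold pd at this
          rw [h0] at this
          simp at this
        · intro x hx hxS
          have hx0 : x 0 = b + k := by have := (hloc x hx).2.1 hxS; linarith
          rw [meanCurv_coord_sub]
          have := hDH x
          simp only [hDv] at this
          rw [this, hx0, hHint]
  exact ⟨_, _, slices_ne n hne, main a₁ b₁ h1 h1' h1v h1H, main a₂ b₂ h2 h2' h2v h2H⟩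

end H81CMC
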