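import Mathlib
import Pool.Agent.H81.CMC.Geo

/-!
Families of tori with constant mean curvature slices (helper81, MP_8431e9_gt).
-/

namespace H81CMC

open MeasureTheory Set Matrix
open scoped ContDiff

section

variable {n : ℕ} (g : TorusMetric (n + 1))

/-- metrics depending on `x₀` only (invariant under the translations of `T^n`) -/
theorem slices_of_invariant
    (h : ∀ x y : Fin (n + 1) → ℝ, x 0 = y 0 → g.coeff x = g.coeff y) (c : ℝ) :
    ∃ H : ℝ, ∀ x : Fin (n + 1) → ℝ, x 0 = c → g.meanCurv (fun y => y 0 - c) x = H := by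
  refine ⟨g.meanCurv (fun y => y 0 - c) (fun _ => c), fun x hx => ?_⟩
  rw [meanCurv_coord_sub, meanCurv_coord_sub]
  have hw : ∀ y : Fin (n + 1) → ℝ, g.coeff (y + (x - fun _ => c)) = g.coeff y := by
    intro y
    apply h
    simp [hx]
  have hd : ∀ y : Fin (n + 1) → ℝ, g.dens (y + (x - fun _ => c)) = g.dens y := by
    intro y; unfold TorusMetric.dens; rw [hw]
  have hn : ∀ i, ∀ y : Fin (n + 1) → ℝ, nf g i (y + (x - fun _ => c)) = nf g i y := by
    intro i y; unfold nf; rw [hw, hd]
  have e1 : x = (fun _ => c) + (x - fun _ => c) := by abel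
  have e2 : g.dens x = g.dens (fun _ => c) := by
    conv_lhs => rw [e1]
    exact hd _
  have e3 : ∀ i, pd i (nf g i) x = pd i (nf g i) (fun _ => c) := by
    intro i
    conv_lhs => rw [e1]
    exact pd_periodic _ (hn i) i _
  rw [e2]
  congr 1
  exact Finset.sum_congr rfl fun i _ => e3 i

/-- metrics `dx₀² + h_{x₀}` with `√det h_t (y) = A(t) B(y)`, in particular all warped products over
the circle. -/
theorem slices_of_warped
    (h0 : ∀ (x : Fin (n + 1) → ℝ) (j : Fin (n + 1)), g.coeff x 0 j = if j = 0 then 1 else 0)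
    (A : ℝ → ℝ) (B : (Fin (n + 1) → ℝ) → ℝ)
    (hB : ∀ (x : Fin (n + 1) → ℝ) (t : ℝ), B (x + Pi.single 0 t) = B x)
    (hAB : ∀ x : Fin (n + 1) → ℝ, g.dens x = A (x 0) * B x) (c : ℝ) :
    ∃ H : ℝ, ∀ x : Fin (n + 1) → ℝ, x 0 = c → g.meanCurv (fun y => y 0 - c) x = H := by
  have hdet : ∀ x, IsUnit (g.coeff x).det := fun x => (g.det_pos x).ne'.isUnit
  have hsymm : ∀ (x : Fin (n + 1) → ℝ) (j : Fin (n + 1)),
      g.coeff x j 0 = if j = 0 then 1 else 0 := by
    intro x j
    have := (g.posDef x).isHermitian.apply 0 j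
    rw [star_trivial] at this
    rw [this, h0]
  -- the first column of the inverse
  have hinv : ∀ (x : Fin (n + 1) → ℝ) (i : Fin (n + 1)),
      (g.coeff x)⁻¹ i 0 = if i = 0 then 1 else 0 := by
    intro x i
    have e1 : g.coeff x *ᵥ (Pi.single 0 1) = Pi.single 0 1 := by
      funext j
      rw [Matrix.mulVec_single_one]
      simp only [Matrix.col_apply, hsymm, Pi.single_apply]
    have e2 : (g.coeff x)⁻¹ *ᵥ (Pi.single 0 1) = Pi.single 0 1 := by
      conv_lhs => rw [← e1]
      rw [Matrix.mulVec_mulVec, Matrix.nonsing_inv_mul _ (hdet x), Matrix.one_mulVec]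
    have e3 := congrFun e2 i
    rw [Matrix.mulVec_single_one] at e3
    simpa [Pi.single_apply] using e3
  have hn0 : nf g 0 = g.dens := by
    funext y; unfold nf; rw [hinv]; simp
  have hni : ∀ i : Fin (n + 1), i ≠ 0 → nf g i = fun _ => 0 := by
    intro i hi; funext y; unfold nf; rw [hinv]; simp [hi]
  have hsum : ∀ x, ∑ i, pd i (nf g i) x = pd 0 g.dens x := by
    intro x
    rw [Finset.sum_eq_single 0]
    · rw [hn0]
    · intro i _ hi
      rw [hni i hi]
      unfold pd
      simp
    · simp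
  -- derivative in the direction of `x₀`
  have hpd : ∀ x : Fin (n + 1) → ℝ, pd 0 g.dens x = deriv A (x 0) * B x := by
    intro x
    have hd : DifferentiableAt ℝ g.dens x := g.contDiff_dens.differentiable (by simp) x
    have h1 : HasDerivAt (fun t : ℝ => g.dens (x + t • Pi.single 0 1)) (pd 0 g.dens x) 0 := by
      have hl : HasDerivAt (fun t : ℝ => x + t • (Pi.single 0 1 : Fin (n + 1) → ℝ))
          (Pi.single 0 1) 0 := by
        simpa using ((hasDerivAt_id (0:ℝ)).smul_const
          (Pi.single 0 1 : Fin (n + 1) → ℝ)).const_add x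
      have hd' : HasFDerivAt g.dens (fderiv ℝ g.dens x)
          (x + (0:ℝ) • (Pi.single 0 1 : Fin (n + 1) → ℝ)) := by
        simpa using hd.hasFDerivAt
      exact hd'.comp_hasDerivAt (0:ℝ) hl
    have h2 : (fun t : ℝ => g.dens (x + t • Pi.single 0 1)) = fun t => A (x 0 + t) * B x := by
      funext t
      have : (t • (Pi.single 0 1 : Fin (n + 1) → ℝ)) = Pi.single 0 t := by
        rw [← Pi.single_smul]; simp
      rw [this, hAB, hB]
      simp
    rw [h2] at h1
    have hBx : B x ≠ 0 := by
      intro h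
      have := g.dens_pos x
      rw [hAB, h, mul_zero] at this
      exact lt_irrefl _ this
    have h3 : HasDerivAt (fun t => A (x 0 + t)) (pd 0 g.dens x / B x) 0 := by
      have := h1.div_const (B x)
      simpa [hBx] using this
    have h4 : HasDerivAt A (pd 0 g.dens x / B x) (x 0) := by
      have h5 : HasDerivAt (fun t => A (x 0 + t)) (pd 0 g.dens x / B x) (x 0 - x 0) := by
        simpa using h3
      have h6 := h5.comp_sub_const (x 0) (x 0)
      simpa using h6
    rw [h4.deriv]
    field_simp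
  refine ⟨deriv A c / A c, fun x hx => ?_⟩
  rw [meanCurv_coord_sub, hsum, hpd, hAB, hx]
  have hne : A c * B x ≠ 0 := by
    rw [← hx, ← hAB]; exact (g.dens_pos x).ne'
  have h1 : A c ≠ 0 := left_ne_zero_of_mul hne
  have h2 : B x ≠ 0 := right_ne_zero_of_mul hne
  field_simp

end

end H81CMC
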