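import Pool.Agent.H93.CMC.Defs

/-!
Decay at infinity of rotationally symmetric sphere metrics (helper81).
-/

open MeasureTheory Set Filter Topology Matrix

noncomputable section

namespace Pool.Agent.H93.CMC

lemma nsq_single {n : ℕ} (s : ℝ) : nsq (Pi.single 0 s : E n) = s ^ 2 := by
  unfold nsq
  rw [Finset.sum_eq_single 0]
  · simp
  · intro i _ hi
    simp [Pi.single_eq_of_ne hi]
  · simp

lemma inversion_single {n : ℕ} (s : ℝ) (hs : s ≠ 0) :
    inversion (Pi.single 0 s : E n) = Pi.single 0 (1 / s) := by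
  funext i
  unfold inversion
  rw [nsq_single]
  by_cases hi : i = 0
  · subst hi
    simp only [Pi.single_eq_same]
    field_simp
  · simp [Pi.single_eq_of_ne hi]

lemma invJac_single_col {n : ℕ} (s : ℝ) (hs : s ≠ 0) (i : Fin (n + 1)) :
    invJac (Pi.single 0 s : E n) i 0 = if i = 0 then -(1 / s ^ 2) else 0 := by
  unfold invJac
  rw [Matrix.of_apply, nsq_single]
  by_cases hi : i = 0
  · subst hi
    simp only [Pi.single_eq_same, if_true]
    field_simp
    ring
  · simp [hi]

theorem rot_decay {n : ℕ} (G : SphereMetric n) (l : ℝ → ℝ) (hl : ∀ x, G.g x = l (nsq x) • 1) :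
    ∃ C : ℝ, 0 < C ∧ ∀ r : ℝ, 1 ≤ r → 0 < l r ∧ l r ≤ C / r ^ 2 := by
  obtain ⟨g', hs, -, hg⟩ := G.atInfinity
  have hc : Continuous fun s : ℝ => g' (Pi.single 0 s) 0 0 :=
    (hs 0 0).continuous.comp
      (continuous_single (A := fun _ : Fin (n + 1) => ℝ) 0)
  obtain ⟨m, -, hm⟩ := isCompact_Icc.exists_isMaxOn (nonempty_Icc.2 (zero_le_one (α := ℝ)))
    (hc.continuousOn (s := Icc 0 1))
  refine ⟨max (g' (Pi.single 0 m) 0 0) 1, lt_max_of_lt_right one_pos, fun r hr => ?_⟩
  have hr0 : 0 < r := lt_of_lt_of_le one_pos hr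
  have hsq : 0 < √r := Real.sqrt_pos.2 hr0
  set s : ℝ := 1 / √r with hsdef
  have hs0 : 0 < s := by positivity
  have hs1 : s ≤ 1 := by
    rw [hsdef, div_le_one hsq]
    exact Real.one_le_sqrt.2 hr
  have hs2 : (1 / s) ^ 2 = r := by
    rw [hsdef, one_div_one_div, Real.sq_sqrt hr0.le]
  constructor
  · have h1 := (G.posDef (Pi.single 0 (1 / s))).diag_pos (i := 0)
    rw [hl, nsq_single, hs2] at h1
    simpa using h1
  · have hy : (Pi.single 0 s : E n) ≠ 0 := by
      intro h
      have := congrFun h 0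
      simp at this
      exact hs0.ne' this
    have h1 : g' (Pi.single 0 s) 0 0 = l r * r ^ 2 := by
      rw [hg _ hy, inversion_single s hs0.ne', hl, nsq_single, hs2]
      rw [Matrix.mul_smul, Matrix.mul_one, Matrix.smul_mul, Matrix.smul_apply, Matrix.mul_apply]
      simp only [Matrix.transpose_apply, invJac_single_col s hs0.ne', mul_ite, mul_zero,
        Finset.sum_ite_eq', Finset.mem_univ, if_true, smul_eq_mul]
      rw [← hs2]
      ring
    have h2 : g' (Pi.single 0 s) 0 0 ≤ g' (Pi.single 0 m) 0 0 := hm ⟨hs0.le, hs1⟩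
    rw [le_div_iff₀ (by positivity), ← h1]
    exact h2.trans (le_max_left _ _)

end Pool.Agent.H93.CMC
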