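import Pool.Agent.H93.CMC.Slab

/-!
One-dimensional core for an arbitrary finite measure `ρ` without atoms on the line, the image of
the volume measure (helper81).
-/

open MeasureTheory Set Filter Topology

noncomputable section

namespace Pool.Agent.H93.CMC

/-- number of integers `k` with `s < τ + k ≤ t` -/
def cnt (s t τ : ℝ) : ℝ := (⌊t - τ⌋ : ℝ) - ⌊s - τ⌋

lemma cnt_meas (s t : ℝ) : Measurable (cnt s t) := by
  have h : ∀ u : ℝ, Measurable fun τ : ℝ => ((⌊u - τ⌋ : ℤ) : ℝ) := fun u =>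
    (measurable_from_top (f := (Int.cast : ℤ → ℝ))).comp
      (Int.measurable_floor.comp (measurable_const.sub measurable_id))
  exact (h t).sub (h s)

lemma cnt_bdd (s t τ : ℝ) : |cnt s t τ| ≤ |t - s| + 1 := by
  unfold cnt
  have h1 := Int.floor_le (t - τ)
  have h2 := Int.lt_floor_add_one (t - τ)
  have h3 := Int.floor_le (s - τ)
  have h4 := Int.lt_floor_add_one (s - τ)
  rw [abs_le]
  constructor
  · have := neg_abs_le (t - s)
    linarith
  · have := le_abs_self (t - s)
    linarith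

lemma cnt_nonneg {s t : ℝ} (h : s ≤ t) (τ : ℝ) : 0 ≤ cnt s t τ := by
  unfold cnt
  have h1 : ⌊s - τ⌋ ≤ ⌊t - τ⌋ := Int.floor_le_floor (by linarith)
  have h2 : (⌊s - τ⌋ : ℝ) ≤ ⌊t - τ⌋ := by exact_mod_cast h1
  linarith

lemma cnt_pos {s t τ : ℝ} (h : cnt s t τ ≠ 0) (hst : s ≤ t) :
    ∃ k : ℤ, s < τ + k ∧ τ + k ≤ t := by
  refine ⟨⌊t - τ⌋, ?_, ?_⟩
  · have h1 : ⌊s - τ⌋ < ⌊t - τ⌋ := by
      refine lt_of_le_of_ne (Int.floor_le_floor (by linarith)) ?_
      intro h2
      apply h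
      unfold cnt
      rw [h2]; ring
    have h2 := Int.lt_floor_add_one (s - τ)
    have h3 : ((⌊s - τ⌋ : ℤ) : ℝ) + 1 ≤ ⌊t - τ⌋ := by exact_mod_cast h1
    linarith
  · have := Int.floor_le (t - τ)
    linarith

lemma null_lattice (ρ : Measure ℝ) (hatom : ∀ c, ρ {c} = 0) (t : ℝ) :
    ∀ᵐ τ ∂ρ, ∀ k : ℤ, τ ≠ t + k := by
  rw [ae_all_iff]
  intro k
  have : {τ : ℝ | ¬ (τ ≠ t + k)} = {t + (k : ℝ)} := by ext; simp
  rw [ae_iff, this]
  exact hatom _

lemma cnt_ae (ρ : Measure ℝ) (hatom : ∀ c, ρ {c} = 0) {s t : ℝ} (h1 : s < t) (h2 : t < s + 1) :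
    (fun τ => cnt s t τ) =ᵐ[ρ] (Om s t).indicator (fun _ => (1 : ℝ)) := by
  filter_upwards [null_lattice ρ hatom t] with τ hτ
  by_cases hm : τ ∈ Om s t
  · rw [indicator_of_mem hm]
    obtain ⟨k, hk1, hk2⟩ := hm
    have e1 : ⌊t - τ⌋ = -k := by
      rw [Int.floor_eq_iff]; push_cast; constructor <;> linarith
    have e2 : ⌊s - τ⌋ = -k - 1 := by
      rw [Int.floor_eq_iff]; push_cast; constructor <;> linarith
    unfold cnt
    rw [e1, e2]; push_cast; ring
  · rw [indicator_of_notMem hm]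
    by_contra hne
    obtain ⟨k, hk1, hk2⟩ := cnt_pos hne h1.le
    apply hm
    have h3 : τ ≠ t + ((-k : ℤ) : ℝ) := hτ (-k)
    push_cast at h3
    refine ⟨-k, ?_, ?_⟩
    · push_cast; linarith
    · push_cast
      exact lt_of_le_of_ne (by linarith) h3

lemma per_bdd {h : ℝ → ℝ} (hh : Continuous h) (hper : ∀ t, h (t + 1) = h t) :
    ∃ C, ∀ t, |h t| ≤ C := by
  obtain ⟨C, hC⟩ := (isCompact_Icc (a := (0 : ℝ)) (b := 1)).exists_bound_of_continuousOn
    hh.continuousOn
  refine ⟨C, fun t => ?_⟩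
  have hp : Function.Periodic h 1 := hper
  have := hp.sub_zsmul_eq (x := t) ⌊t⌋
  rw [← this, zsmul_eq_mul, mul_one]
  exact hC _ ⟨Int.fract_nonneg t, (Int.fract_lt_one t).le⟩

lemma per_int {h : ℝ → ℝ} (hper : ∀ t, h (t + 1) = h t) (k : ℤ) (t : ℝ) : h (t + k) = h t := by
  have hp : Function.Periodic h 1 := hper
  have := hp.int_mul k t
  simpa using this

lemma surj_of_quasi {V : ℝ → ℝ} {T : ℝ} (hT : 0 < T) (hVc : Continuous V)
    (hV1 : ∀ t, V (t + 1) = V t + T) : Function.Surjective V := by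
  have hVn : ∀ (k : ℕ) t, V (t + k) = V t + k * T := by
    intro k
    induction k with
    | zero => intro t; simp
    | succ k ih =>
      intro t
      have : t + ((k + 1 : ℕ) : ℝ) = (t + k) + 1 := by push_cast; ring
      rw [this, hV1, ih]; push_cast; ring
  have hVn' : ∀ (k : ℕ) t, V (t - k) = V t - k * T := by
    intro k t
    have := hVn k (t - k)
    rw [sub_add_cancel] at this
    linarith
  intro y
  obtain ⟨k, hk⟩ := exists_nat_gt (|y - V 0| / T)
  rw [div_lt_iff₀ hT] at hk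
  have hk1 : V (0 - k) ≤ y := by rw [hVn']; linarith [neg_abs_le (y - V 0)]
  have hk2 : y ≤ V (0 + k) := by rw [hVn]; linarith [le_abs_self (y - V 0)]
  have hle : (0 - (k : ℝ)) ≤ 0 + k := by
    have : (0 : ℝ) ≤ k := Nat.cast_nonneg k
    linarith
  obtain ⟨t, -, ht⟩ := intermediate_value_Icc hle hVc.continuousOn ⟨hk1, hk2⟩
  exact ⟨t, ht⟩

/-- primitive of `g` with respect to the periodised measure -/
def Prim (ρ : Measure ℝ) (g : ℝ → ℝ) (t : ℝ) : ℝ := ∫ τ, g τ * cnt 0 t τ ∂ρ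

section

variable (ρ : Measure ℝ) [IsFiniteMeasure ρ]

lemma cnt_int {g : ℝ → ℝ} (hg : Continuous g) (hper : ∀ t, g (t + 1) = g t) (s t : ℝ) :
    Integrable (fun τ => g τ * cnt s t τ) ρ := by
  obtain ⟨C, hC⟩ := per_bdd hg hper
  refine Integrable.of_bound (hg.measurable.mul (cnt_meas s t)).aestronglyMeasurable
    (C * (|t - s| + 1)) (Eventually.of_forall fun τ => ?_)
  rw [Real.norm_eq_abs, abs_mul]
  exact mul_le_mul (hC τ) (cnt_bdd s t τ) (abs_nonneg _) ((abs_nonneg _).trans (hC τ))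

lemma Prim_sub {g : ℝ → ℝ} (hg : Continuous g) (hper : ∀ t, g (t + 1) = g t) (s t : ℝ) :
    Prim ρ g t - Prim ρ g s = ∫ τ, g τ * cnt s t τ ∂ρ := by
  unfold Prim
  rw [← integral_sub (cnt_int ρ hg hper 0 t) (cnt_int ρ hg hper 0 s)]
  congr 1
  funext τ
  unfold cnt
  ring

lemma Prim_per {g : ℝ → ℝ} (hg : Continuous g) (hper : ∀ t, g (t + 1) = g t) (t : ℝ) :
    Prim ρ g (t + 1) = Prim ρ g t + ∫ τ, g τ ∂ρ := by
  have h1 := Prim_sub ρ hg hper t (t + 1)
  have h2 : (∫ τ, g τ * cnt t (t + 1) τ ∂ρ) = ∫ τ, g τ ∂ρ := by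
    congr 1
    funext τ
    have : cnt t (t + 1) τ = 1 := by
      unfold cnt
      have : t + 1 - τ = (t - τ) + 1 := by ring
      rw [this, Int.floor_add_one]; push_cast; ring
    rw [this, mul_one]
  rw [h2] at h1
  linarith

/-- the volume of the slab -/
lemma Prim_one {s t : ℝ} (hatom : ∀ c, ρ {c} = 0) (h1 : s < t) (h2 : t < s + 1) :
    Prim ρ (fun _ => 1) t - Prim ρ (fun _ => 1) s = ρ.real (Om s t) := by
  rw [Prim_sub ρ continuous_const (fun _ => rfl)]
  simp only [one_mul]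
  rw [integral_congr_ae (cnt_ae ρ hatom h1 h2), integral_indicator_const _ (Om_open s t).measurableSet]
  simp

lemma Prim_le {g : ℝ → ℝ} (hg : Continuous g) (hper : ∀ t, g (t + 1) = g t) {s t c : ℝ}
    (hst : s ≤ t) (hc : ∀ τ ∈ Icc s t, c ≤ g τ) :
    c * (Prim ρ (fun _ => 1) t - Prim ρ (fun _ => 1) s) ≤ Prim ρ g t - Prim ρ g s := by
  rw [Prim_sub ρ hg hper, Prim_sub ρ continuous_const (fun _ => rfl), ← integral_const_mul]
  refine integral_mono ((cnt_int ρ continuous_const (fun _ => rfl) s t).const_mul c)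
    (cnt_int ρ hg hper s t) fun τ => ?_
  show c * (1 * cnt s t τ) ≤ g τ * cnt s t τ
  rw [one_mul]
  by_cases h0 : cnt s t τ = 0
  · rw [h0]; simp
  · obtain ⟨k, hk1, hk2⟩ := cnt_pos h0 hst
    refine mul_le_mul_of_nonneg_right ?_ (cnt_nonneg hst τ)
    rw [← per_int hper k τ]
    exact hc _ ⟨hk1.le, hk2⟩

omit [IsFiniteMeasure ρ] in
lemma Prim_neg (g : ℝ → ℝ) (t : ℝ) : Prim ρ (fun τ => - g τ) t = - Prim ρ g t := by
  unfold Prim
  rw [← integral_neg]
  congr 1
  funext τ
  ring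

lemma Prim_ge {g : ℝ → ℝ} (hg : Continuous g) (hper : ∀ t, g (t + 1) = g t) {s t c : ℝ}
    (hst : s ≤ t) (hc : ∀ τ ∈ Icc s t, g τ ≤ c) :
    Prim ρ g t - Prim ρ g s ≤ c * (Prim ρ (fun _ => 1) t - Prim ρ (fun _ => 1) s) := by
  have hgn : Continuous fun τ => - g τ := hg.neg
  have h1 := Prim_le ρ hgn (fun t => by show - g (t + 1) = - g t; rw [hper]) hst (c := -c)
    (fun τ hτ => neg_le_neg (hc τ hτ))
  have h2 := Prim_neg ρ g t
  have h3 := Prim_neg ρ g s
  rw [h2, h3] at h1
  linarith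

lemma Prim_cont (hatom : ∀ c, ρ {c} = 0) : Continuous (Prim ρ (fun _ => 1)) := by
  rw [continuous_iff_continuousAt]
  intro t₀
  unfold Prim
  refine continuousAt_of_dominated (bound := fun _ => |t₀| + 2) ?_ ?_ (integrable_const _) ?_
  · exact Eventually.of_forall fun t =>
      (cnt_int ρ (g := fun _ => (1 : ℝ)) continuous_const (fun _ => rfl) 0 t).aestronglyMeasurable
  · filter_upwards [Ioo_mem_nhds (show t₀ - 1 < t₀ by linarith) (show t₀ < t₀ + 1 by linarith)]
      with t ht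
    refine Eventually.of_forall fun τ => ?_
    rw [one_mul, Real.norm_eq_abs]
    refine (cnt_bdd 0 t τ).trans ?_
    have h1 : |t - 0| ≤ |t₀| + 1 := by
      rw [sub_zero, abs_le]
      constructor
      · have := neg_abs_le t₀; linarith [ht.1]
      · have := le_abs_self t₀; linarith [ht.2]
    linarith
  · filter_upwards [null_lattice ρ hatom t₀] with τ hτ
    have h1 : (⌊t₀ - τ⌋ : ℝ) < t₀ - τ := by
      refine lt_of_le_of_ne (Int.floor_le _) ?_
      intro h
      have := hτ (-⌊t₀ - τ⌋)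
      push_cast at this
      exact this (by linarith)
    have h2 := Int.lt_floor_add_one (t₀ - τ)
    have h3 : ∀ᶠ t in 𝓝 t₀, (1 : ℝ) * cnt 0 t₀ τ = 1 * cnt 0 t τ := by
      filter_upwards [Ioo_mem_nhds (show τ + ⌊t₀ - τ⌋ < t₀ by linarith)
        (show t₀ < τ + ⌊t₀ - τ⌋ + 1 by linarith)] with t ht
      have h4 : ⌊t - τ⌋ = ⌊t₀ - τ⌋ := by
        rw [Int.floor_eq_iff]
        constructor <;> linarith [ht.1, ht.2]
      unfold cnt
      rw [h4]
    exact ContinuousAt.congr continuousAt_const h3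

lemma Prim_strictMono (hatom : ∀ c, ρ {c} = 0) (hfull : ∀ a b, a < b → 0 < ρ (Om a b)) :
    StrictMono (Prim ρ (fun _ => 1)) := by
  have hmono : Monotone (Prim ρ (fun _ => 1)) := by
    intro s t hst
    have := Prim_le ρ (g := fun _ => (1 : ℝ)) (c := 0) continuous_const (fun _ => rfl) hst
      (fun _ _ => zero_le_one)
    linarith
  intro s t hst
  have h1 : s < min t (s + 1 / 2) := lt_min hst (by linarith)
  have h2 : min t (s + 1 / 2) < s + 1 := lt_of_le_of_lt (min_le_right _ _) (by linarith)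
  have h3 := Prim_one ρ hatom h1 h2
  have h4 : 0 < ρ.real (Om s (min t (s + 1 / 2))) :=
    ENNReal.toReal_pos (hfull _ _ h1).ne' (measure_ne_top _ _)
  have h5 := hmono (min_le_left t (s + 1 / 2))
  linarith

end

/-- One-dimensional core, measure version: `ρ` is the image of the volume measure of the closed
manifold, `h` the mean curvature of the fibres. -/
theorem core_measure (ρ : Measure ℝ) [IsFiniteMeasure ρ] (hatom : ∀ c, ρ {c} = 0)
    (hfull : ∀ a b, a < b → 0 < ρ (Om a b)) (h : ℝ → ℝ) (hh : Continuous h)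
    (hper : ∀ t, h (t + 1) = h t) (hmean : ∫ τ, h τ ∂ρ = 0)
    (v : ℝ) (hv0 : 0 < v) (hv1 : v < ρ.real univ) :
    ∃ b : ℝ → ℝ, (∀ a, a < b a ∧ b a < a + 1 ∧ ρ.real (Om a (b a)) = v) ∧
      ∃ a₁ a₂ : ℝ, h (b a₁) = - h a₁ ∧ h (b a₂) = - h a₂ ∧ Res b a₁ ≠ Res b a₂ := by
  set V : ℝ → ℝ := Prim ρ (fun _ => 1) with hV
  set B : ℝ → ℝ := Prim ρ h with hB
  set T : ℝ := ρ.real univ with hT
  have hT0 : 0 < T := hv0.trans hv1
  have hVc : Continuous V := Prim_cont ρ hatom
  have hVm : StrictMono V := Prim_strictMono ρ hatom hfull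
  have hV1 : ∀ t, V (t + 1) = V t + T := by
    intro t
    have := Prim_per ρ (g := fun _ => (1 : ℝ)) continuous_const (fun _ => rfl) t
    show Prim ρ (fun _ => 1) (t + 1) = Prim ρ (fun _ => 1) t + T
    rw [this]
    simp [hT]
  have hB1 : ∀ t, B (t + 1) = B t := by
    intro t
    have := Prim_per ρ hh hper t
    rw [hmean, add_zero] at this
    exact this
  have hsurj := surj_of_quasi hT0 hVc hV1
  let e : ℝ ≃o ℝ := hVm.orderIsoOfSurjective V hsurj
  have he : ∀ t, e t = V t := fun t => rfl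
  have hec : Continuous e.symm := e.symm.continuous
  set θ : ℝ → ℝ := fun s => e.symm (T * s) with hθ
  have hVθ : ∀ s, V (θ s) = T * s := fun s => by
    rw [← he (θ s)]; exact e.apply_symm_apply _
  have hθc : Continuous θ := hec.comp (continuous_const.mul continuous_id)
  have hθm : StrictMono θ := fun s t hst => by
    apply hVm.lt_iff_lt.1
    rw [hVθ, hVθ]
    exact mul_lt_mul_of_pos_left hst hT0
  have hθ1 : ∀ s, θ (s + 1) = θ s + 1 := by
    intro s
    apply hVm.injective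
    rw [hVθ, hV1, hVθ]; ring
  have hθσ : ∀ a, θ (V a / T) = a := by
    intro a
    apply hVm.injective
    rw [hVθ]; field_simp
  have hσθ : ∀ s, V (θ s) / T = s := by
    intro s
    rw [hVθ]; field_simp
  have hθk : ∀ (k : ℤ) (s : ℝ), θ (s + k) = θ s + k := by
    intro k s
    have hp : Function.Periodic (fun s => θ s - s) 1 := by
      intro s
      show θ (s + 1) - (s + 1) = θ s - s
      rw [hθ1]; ring
    have := hp.int_mul k s
    simp only [mul_one] at this
    linarith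
  -- derivative
  have hder : ∀ s, HasDerivAt (fun s => B (θ s)) (h (θ s) * T) s := by
    intro s
    rw [hasDerivAt_iff_isLittleO, Asymptotics.isLittleO_iff]
    intro ε hε
    have hε' : 0 < ε / T := div_pos hε hT0
    have hc : ContinuousAt (fun s => h (θ s)) s := (hh.comp hθc).continuousAt
    obtain ⟨δ, hδ, hδ'⟩ := Metric.continuousAt_iff.1 hc _ hε'
    have hmain : ∀ s₁ s₂, s₁ ≤ s₂ → |s₁ - s| < δ → |s₂ - s| < δ →
        |B (θ s₂) - B (θ s₁) - h (θ s) * T * (s₂ - s₁)| ≤ ε * (s₂ - s₁) := by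
      intro s₁ s₂ h12 hs₁ hs₂
      have hIcc : ∀ τ ∈ Icc (θ s₁) (θ s₂), |h τ - h (θ s)| < ε / T := by
        intro τ hτ
        have e1 : s₁ ≤ V τ / T := by
          rw [← hσθ s₁]
          exact div_le_div_of_nonneg_right (hVm.monotone hτ.1) hT0.le
        have e2 : V τ / T ≤ s₂ := by
          rw [← hσθ s₂]
          exact div_le_div_of_nonneg_right (hVm.monotone hτ.2) hT0.le
        have e3 : dist (V τ / T) s < δ := by
          rw [Real.dist_eq, abs_lt]
          rw [abs_lt] at hs₁ hs₂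
          constructor <;> linarith [hs₁.1, hs₁.2, hs₂.1, hs₂.2]
        have e4 := hδ' e3
        rw [hθσ, Real.dist_eq] at e4
        exact e4
      have hle : θ s₁ ≤ θ s₂ := hθm.monotone h12
      have k1 := Prim_le ρ hh hper (c := h (θ s) - ε / T) hle (fun τ hτ => by
        have := hIcc τ hτ
        rw [abs_lt] at this
        linarith [this.1])
      have k2 := Prim_ge ρ hh hper (c := h (θ s) + ε / T) hle (fun τ hτ => by
        have := hIcc τ hτ
        rw [abs_lt] at this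
        linarith [this.2])
      have k3 : Prim ρ (fun _ => 1) (θ s₂) - Prim ρ (fun _ => 1) (θ s₁) = T * (s₂ - s₁) := by
        have e1 := hVθ s₁
        have e2 := hVθ s₂
        rw [hV] at e1 e2
        rw [e1, e2]; ring
      rw [k3] at k1 k2
      have k4 : (ε / T) * (T * (s₂ - s₁)) = ε * (s₂ - s₁) := by field_simp
      rw [abs_le]
      constructor
      · nlinarith [k1, k4]
      · nlinarith [k2, k4]
    have hs0 : |s - s| < δ := by simpa using hδ
    filter_upwards [Metric.ball_mem_nhds s hδ] with s' hs'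
    rw [Metric.mem_ball, Real.dist_eq] at hs'
    rw [Real.norm_eq_abs, Real.norm_eq_abs, smul_eq_mul]
    rcases le_total s s' with hle | hle
    · have := hmain s s' hle hs0 hs'
      rw [abs_of_nonneg (show 0 ≤ s' - s by linarith)]
      have e1 : B (θ s') - B (θ s) - (s' - s) * (h (θ s) * T) =
        B (θ s') - B (θ s) - h (θ s) * T * (s' - s) := by ring
      rw [e1]; exact this
    · have := hmain s' s hle hs' hs0
      rw [abs_of_nonpos (show s' - s ≤ 0 by linarith)]
      have e1 : B (θ s') - B (θ s) - (s' - s) * (h (θ s) * T) =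
        -(B (θ s) - B (θ s') - h (θ s) * T * (s - s')) := by ring
      rw [e1, abs_neg, neg_sub]; exact this
  have hhθ : Continuous fun s => h (θ s) := hh.comp hθc
  obtain ⟨bt, hbt, a₁, a₂, hc1, hc2, hne⟩ := core (fun _ => T) (fun s => h (θ s))
    (fun s => B (θ s)) continuous_const (fun _ => hT0) (fun _ => rfl) hhθ
    (fun s => by show B (θ (s + 1)) = B (θ s); rw [hθ1, hB1])
    (fun s t _ => by
      rw [intervalIntegral.integral_eq_sub_of_hasDerivAt (fun x _ => hder x)
        ((hhθ.mul continuous_const).intervalIntegrable s t)])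
    v hv0 (by simpa using hv1)
  refine ⟨fun a => θ (bt (V a / T)), fun a => ?_, θ a₁, θ a₂, ?_, ?_, ?_⟩
  · obtain ⟨h1, h2, h3⟩ := hbt (V a / T)
    have k1 : a < θ (bt (V a / T)) := by
      have := hθm h1
      rwa [hθσ] at this
    have k2 : θ (bt (V a / T)) < a + 1 := by
      have := hθm h2
      rwa [hθ1, hθσ] at this
    refine ⟨k1, k2, ?_⟩
    rw [← Prim_one ρ hatom k1 k2]
    have e1 := hVθ (bt (V a / T))
    rw [hV] at e1
    rw [e1]
    rw [intervalIntegral.integral_const, smul_eq_mul] at h3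
    have e2 : V a / T * T = V a := by field_simp
    rw [sub_mul, e2] at h3
    rw [← hV]; linarith
  · show h (θ (bt (V (θ a₁) / T))) = - h (θ a₁)
    rw [hσθ]; exact hc1
  · show h (θ (bt (V (θ a₂) / T))) = - h (θ a₂)
    rw [hσθ]; exact hc2
  · intro hS
    apply hne
    have key : ∀ a s, s ∈ Res bt a ↔ θ s ∈ Res (fun a => θ (bt (V a / T))) (θ a) := by
      intro a s
      constructor
      · rintro ⟨k, rfl | rfl⟩
        · exact ⟨k, Or.inl (hθk k a)⟩
        · refine ⟨k, Or.inr ?_⟩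
          show θ (bt a + k) = θ (bt (V (θ a) / T)) + k
          rw [hσθ, hθk]
      · rintro ⟨k, hk | hk⟩
        · exact ⟨k, Or.inl (hθm.injective (by rw [hk, hθk]))⟩
        · refine ⟨k, Or.inr (hθm.injective ?_)⟩
          have hk' : θ s = θ (bt (V (θ a) / T)) + k := hk
          rw [hk', hσθ, hθk]
    ext s
    rw [key, key, hS]

end Pool.Agent.H93.CMC
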