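import Pool.Agent.H93.CMC.MDefs

/-!
Smooth partitions of unity on closed manifolds, open maps, change of sign of the mean curvature
(helper81).
-/

open MeasureTheory Set Filter Topology

noncomputable section

namespace Pool.Agent.H93.CMC

variable {n : ℕ}

section partition

variable {M : Type*} [TopologicalSpace M] (X : RiemMfd n M)

/-- transport of a function with compact support from the `i`-th chart -/
def ext0 (i : X.ι) (b : E n → ℝ) : M → ℝ := Function.extend (X.param i) b 0

lemma ext0_param (i : X.ι) (b : E n → ℝ) (x : E n) : ext0 X i b (X.param i x) = b x :=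
  (X.isOpenEmbedding i).injective.extend_apply b (0 : M → ℝ) x

lemma ext0_out (i : X.ι) (b : E n → ℝ) {q : M} (hq : q ∉ range (X.param i)) : ext0 X i b q = 0 :=
  Function.extend_apply' b (0 : M → ℝ) q (fun ⟨a, ha⟩ => hq ⟨a, ha⟩)

lemma ext0_nonneg (i : X.ι) {b : E n → ℝ} (hb : ∀ x, 0 ≤ b x) (q : M) : 0 ≤ ext0 X i b q := by
  by_cases hq : q ∈ range (X.param i)
  · obtain ⟨x, rfl⟩ := hq
    rw [ext0_param]; exact hb x
  · rw [ext0_out X i b hq]

lemma ext0_smooth [T2Space M] (i : X.ι) {b : E n → ℝ} (hb : ContDiff ℝ (⊤ : ℕ∞) b)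
    (hc : HasCompactSupport b) : SmoothM X (ext0 X i b) := by
  intro j
  rw [contDiff_iff_contDiffAt]
  intro y
  by_cases hy : X.param j y ∈ range (X.param i)
  · obtain ⟨x', hx'⟩ := hy
    obtain ⟨φ, h1, h2, h3, -⟩ := X.transition j i y x' hx'.symm
    have h4 : (fun z => ext0 X i b (X.param j z)) =ᶠ[𝓝 y] fun z => b (φ z) := by
      filter_upwards [h3] with z hz
      rw [← hz, ext0_param]
    refine ContDiffAt.congr_of_eventuallyEq ?_ h4
    exact (hb.contDiffAt).comp y h1
  · have hK : IsClosed (X.param i '' tsupport b) :=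
      (hc.isCompact.image (X.isOpenEmbedding i).continuous).isClosed
    have hy' : X.param j y ∉ X.param i '' tsupport b := fun ⟨w, _, hw⟩ => hy ⟨w, hw⟩
    have h4 : (fun z => ext0 X i b (X.param j z)) =ᶠ[𝓝 y] fun _ => (0 : ℝ) := by
      have h5 : ∀ᶠ z in 𝓝 y, X.param j z ∈ (X.param i '' tsupport b)ᶜ :=
        (X.isOpenEmbedding j).continuous.continuousAt (hK.isOpen_compl.mem_nhds hy')
      filter_upwards [h5] with z hz
      by_cases hz' : X.param j z ∈ range (X.param i)
      · obtain ⟨w, hw⟩ := hz'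
        rw [← hw, ext0_param]
        by_contra hne
        exact hz ⟨w, subset_tsupport b hne, hw⟩
      · exact ext0_out X i b hz'
    exact ContDiffAt.congr_of_eventuallyEq contDiffAt_const h4

lemma exists_partitionM [CompactSpace M] [T2Space M] :
    ∃ (m : ℕ) (c : Fin m → X.ι) (χ : Fin m → M → ℝ), (∀ k, SmoothM X (χ k)) ∧
      (∀ q, ∑ k, χ k q = 1) ∧ (∀ k, HasCompactSupport fun x => χ k (X.param (c k) x)) ∧
      ∀ k q, q ∉ range (X.param (c k)) → χ k q = 0 := by
  choose i x hx using X.cover
  let b : ∀ p : M, ContDiffBump (x p) := fun p => ⟨1, 2, one_pos, one_lt_two⟩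
  let β : M → M → ℝ := fun p => ext0 X (i p) (b p)
  have hβs : ∀ p, SmoothM X (β p) := fun p =>
    ext0_smooth X (i p) (b p).contDiff (b p).hasCompactSupport
  have hβ0 : ∀ p q, 0 ≤ β p q := fun p q => ext0_nonneg X (i p) (fun _ => (b p).nonneg) q
  let U : M → Set M := fun p => X.param (i p) '' Metric.ball (x p) 1
  have hU : ∀ p, U p ∈ 𝓝 p := fun p =>
    ((X.isOpenEmbedding (i p)).isOpenMap _ Metric.isOpen_ball).mem_nhds
      ⟨x p, Metric.mem_ball_self one_pos, hx p⟩
  obtain ⟨t, ht⟩ := CompactSpace.elim_nhds_subcover U hU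
  let e := t.equivFin
  let p : Fin t.card → M := fun k => (e.symm k : M)
  let S : M → ℝ := fun q => ∑ k, β (p k) q
  have hS : ∀ q, 0 < S q := by
    intro q
    have hq : q ∈ ⋃ p ∈ t, U p := by rw [ht]; trivial
    simp only [mem_iUnion] at hq
    obtain ⟨p₀, hp₀, z, hz, rfl⟩ := hq
    refine Finset.sum_pos' (fun k _ => hβ0 _ _) ⟨e ⟨p₀, hp₀⟩, Finset.mem_univ _, ?_⟩
    have e1 : p (e ⟨p₀, hp₀⟩) = p₀ := by
      show ((e.symm (e ⟨p₀, hp₀⟩) : t) : M) = p₀
      rw [Equiv.symm_apply_apply]
    rw [e1]
    show 0 < ext0 X (i p₀) (b p₀) (X.param (i p₀) z)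
    rw [ext0_param]
    refine (b p₀).pos_of_mem_ball ?_
    exact Metric.ball_subset_ball one_le_two hz
  have hSs : SmoothM X S := by
    intro j
    exact ContDiff.sum fun k _ => hβs (p k) j
  refine ⟨t.card, fun k => i (p k), fun k q => β (p k) q / S q, ?_, ?_, ?_, ?_⟩
  · intro k j
    exact (hβs (p k) j).div (hSs j) fun y => (hS _).ne'
  · intro q
    rw [← Finset.sum_div]
    exact div_self (hS q).ne'
  · intro k
    have h1 : (fun y => β (p k) (X.param (i (p k)) y) / S (X.param (i (p k)) y)) =
        fun y => (b (p k)) y * (S (X.param (i (p k)) y))⁻¹ := by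
      funext y
      rw [div_eq_mul_inv]
      congr 1
      exact ext0_param X _ _ y
    show HasCompactSupport fun y => β (p k) (X.param (i (p k)) y) / S (X.param (i (p k)) y)
    rw [h1]
    exact (b (p k)).hasCompactSupport.mul_right
  · intro k q hq
    show β (p k) q / S q = 0
    have : β (p k) q = 0 := ext0_out X _ _ hq
    rw [this, zero_div]

end partition

/-- a smooth function without critical points is an open map -/
lemma isOpenMap_of_fderiv_ne {u : E n → ℝ} (hu : ContDiff ℝ (⊤ : ℕ∞) u)
    (h : ∀ x, fderiv ℝ u x ≠ 0) : IsOpenMap u := by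
  refine IsOpenMap.of_nhds_le fun x => ?_
  have h1 : HasStrictFDerivAt u (fderiv ℝ u x) x :=
    hu.contDiffAt.hasStrictFDerivAt (by simp)
  have h2 : (fderiv ℝ u x).range = ⊤ := by
    have h3 : ((fderiv ℝ u x : E n →L[ℝ] ℝ) : E n →ₗ[ℝ] ℝ) ≠ 0 := by
      intro h0
      apply h x
      ext v
      exact congrFun (congrArg DFunLike.coe h0) _
    exact LinearMap.range_eq_top.2 (LinearMap.surjective h3)
  exact (h1.map_nhds_eq_of_surj h2).ge

section meanCurv

variable (G : Metric n)

lemma pd_sub_const (u : E n → ℝ) (c : ℝ) (j : Fin (n + 1)) (x : E n) :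
    pd j (fun z => u z - c) x = pd j u x := by
  unfold pd
  rw [fderiv_sub_const]

lemma pd_const_sub (u : E n → ℝ) (c : ℝ) (j : Fin (n + 1)) (x : E n) :
    pd j (fun z => c - u z) x = - pd j u x := by
  unfold pd
  rw [fderiv_const_sub]
  rfl

lemma meanCurv_sub_const (u : E n → ℝ) (c : ℝ) (x : E n) :
    meanCurv G (fun z => u z - c) x = meanCurv G u x := by
  have h1 : ∀ i y, grad G (fun z => u z - c) i y = grad G u i y := by
    intro i y
    unfold grad
    simp only [pd_sub_const]
  have h2 : ∀ y, gradNorm G (fun z => u z - c) y = gradNorm G u y := by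
    intro y
    unfold gradNorm
    simp only [pd_sub_const, h1]
  unfold meanCurv
  simp only [h1, h2]

lemma meanCurv_const_sub (u : E n → ℝ) (c : ℝ) (x : E n) :
    meanCurv G (fun z => c - u z) x = - meanCurv G u x := by
  have h1 : ∀ i y, grad G (fun z => c - u z) i y = - grad G u i y := by
    intro i y
    unfold grad
    simp only [pd_const_sub, mul_neg, Finset.sum_neg_distrib]
  have h2 : ∀ y, gradNorm G (fun z => c - u z) y = gradNorm G u y := by
    intro y
    unfold gradNorm
    simp only [pd_const_sub, h1, neg_mul_neg]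
  have h3 : ∀ i, pd i (fun y => dens G y * grad G (fun z => c - u z) i y /
      gradNorm G (fun z => c - u z) y) x =
      - pd i (fun y => dens G y * grad G u i y / gradNorm G u y) x := by
    intro i
    have : (fun y => dens G y * grad G (fun z => c - u z) i y /
        gradNorm G (fun z => c - u z) y) =
        fun y => 0 - dens G y * grad G u i y / gradNorm G u y := by
      funext y
      rw [h1, h2]; ring
    rw [this, pd_const_sub]
  unfold meanCurv
  simp only [h3, Finset.sum_neg_distrib, mul_neg]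

end meanCurv

end Pool.Agent.H93.CMC
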