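import Pool.Agent.H93.CMC.Geo
import Pool.Agent.H81.CMC.Inf

/-!
Radial integrals and rotationally symmetric sphere metrics (helper81).
-/

open MeasureTheory Set Filter Topology Matrix

noncomputable section

namespace Pool.Agent.H93.CMC

/-- area of the unit sphere of `ℝ^(n+1)` -/
def om (n : ℕ) : ℝ :=
  (n + 1) * volume.real (_root_.Metric.ball (0 : EuclideanSpace ℝ (Fin (n + 1))) 1)

lemma om_pos (n : ℕ) : 0 < om n := by
  unfold om
  have h : 0 < volume.real (_root_.Metric.ball (0 : EuclideanSpace ℝ (Fin (n + 1))) 1) := by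
    rw [measureReal_def]
    exact ENNReal.toReal_pos (_root_.Metric.measure_ball_pos _ _ one_pos).ne'
      measure_ball_lt_top.ne
  positivity

theorem radial_integral {n : ℕ} (D : ℝ → ℝ) (B : Set ℝ) (hB : MeasurableSet B)
    (hB0 : B ⊆ Ioi 0) :
    ∫ x in {x : E n | √(nsq x) ∈ B}, D (√(nsq x)) = om n * ∫ r in B, r ^ n * D r := by
  have hcont : Continuous fun x : E n => √(nsq x) := by
    unfold nsq
    fun_prop
  have hms : MeasurableSet {x : E n | √(nsq x) ∈ B} := hcont.measurable hB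
  have hmp := PiLp.volume_preserving_ofLp (Fin (n + 1))
  have hemb : MeasurableEmbedding (@WithLp.ofLp 2 (Fin (n + 1) → ℝ)) :=
    (MeasurableEquiv.toLp 2 (Fin (n + 1) → ℝ)).symm.measurableEmbedding
  have hnorm : ∀ x : EuclideanSpace ℝ (Fin (n + 1)), √(nsq (WithLp.ofLp x)) = ‖x‖ := by
    intro x
    rw [EuclideanSpace.norm_eq]
    unfold nsq
    simp [sq_abs]
  calc ∫ x in {x : E n | √(nsq x) ∈ B}, D (√(nsq x))
      = ∫ x : E n, B.indicator D (√(nsq x)) := by
        rw [← integral_indicator hms]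
        rfl
    _ = ∫ x : EuclideanSpace ℝ (Fin (n + 1)), B.indicator D ‖x‖ := by
        rw [← hmp.integral_comp hemb]
        simp only [hnorm]
    _ = om n * ∫ r in Ioi (0:ℝ), r ^ n * B.indicator D r := by
        rw [integral_fun_norm_addHaar]
        simp only [finrank_euclideanSpace, Fintype.card_fin, Nat.add_sub_cancel, nsmul_eq_mul,
          smul_eq_mul, Nat.cast_add, Nat.cast_one]
        unfold om
        ring
    _ = om n * ∫ r in B, r ^ n * D r := by
        congr 1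
        have h1 : (fun r => r ^ n * B.indicator D r) = B.indicator fun r => r ^ n * D r := by
          funext r
          by_cases hr : r ∈ B
          · simp [hr]
          · simp [hr]
        rw [h1, setIntegral_indicator hB, inter_eq_right.2 hB0]

section rot

variable {n : ℕ} (G : SphereMetric n) (l : ℝ → ℝ) (hl : ∀ x, G.g x = l (nsq x) • 1)

include hl

lemma l_sq_eq (r : ℝ) : l (r ^ 2) = G.g (Pi.single 0 r) 0 0 := by
  rw [hl, nsq_single]
  simp

lemma l_contDiff : ContDiff ℝ (⊤ : ℕ∞) fun r : ℝ => l (r ^ 2) := by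
  have h1 : (fun r : ℝ => l (r ^ 2)) = fun r => G.g (Pi.single 0 r) 0 0 := by
    funext r; exact l_sq_eq G l hl r
  rw [h1]
  exact (G.smooth 0 0).comp (contDiff_single (𝕜 := ℝ) (F' := fun _ : Fin (n + 1) => ℝ) _ 0)

lemma l_cont : Continuous fun r : ℝ => l (r ^ 2) := (l_contDiff G l hl).continuous

lemma l_pos (ρ : ℝ) (hρ : 0 ≤ ρ) : 0 < l ρ := by
  have h1 := (G.posDef (Pi.single 0 √ρ)).diag_pos (i := 0)
  rw [hl, nsq_single, Real.sq_sqrt hρ] at h1
  simpa using h1

theorem dens_rot (x : E n) : dens G.toMetric x = √(l (nsq x) ^ (n + 1)) := by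
  unfold dens
  rw [hl, Matrix.det_smul, Matrix.det_one, Fintype.card_fin, mul_one]

lemma l_bound : ∃ C : ℝ, 0 < C ∧ ∀ r : ℝ, 1 ≤ r → ∀ m : ℕ, √(l (r ^ 2) ^ m) ≤ (C / r ^ 2) ^ m := by
  obtain ⟨C, hC, h⟩ := rot_decay G l hl
  refine ⟨√C, Real.sqrt_pos.2 hC, fun r hr m => ?_⟩
  have hr0 : 0 < r := lt_of_lt_of_le one_pos hr
  obtain ⟨h1, h2⟩ := h (r ^ 2) (one_le_pow₀ hr)
  rw [Real.sqrt_le_left (by positivity)]
  calc l (r ^ 2) ^ m ≤ (C / (r ^ 2) ^ 2) ^ m := pow_le_pow_left₀ h1.le h2 m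
    _ = ((√C / r ^ 2) ^ m) ^ 2 := by
      rw [← pow_mul (√C / r ^ 2), mul_comm m 2, pow_mul (√C / r ^ 2), div_pow (√C),
        Real.sq_sqrt hC.le]

theorem W_int : IntegrableOn (fun r => r ^ n * √(l (r ^ 2) ^ (n + 1))) (Ioi 0) := by
  have hc : Continuous fun r : ℝ => r ^ n * √(l (r ^ 2) ^ (n + 1)) :=
    (continuous_pow n).mul (((l_cont G l hl).pow (n + 1)).sqrt)
  obtain ⟨C, hC, hb⟩ := l_bound G l hl
  have h1 : IntegrableOn (fun r => r ^ n * √(l (r ^ 2) ^ (n + 1))) (Ioc 0 1) :=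
    (hc.continuousOn.integrableOn_compact isCompact_Icc).mono_set Ioc_subset_Icc_self
  have h2 : IntegrableOn (fun r => r ^ n * √(l (r ^ 2) ^ (n + 1))) (Ioi 1) := by
    have hg : IntegrableOn (fun r : ℝ => C ^ (n + 1) * r ^ (-2 : ℝ)) (Ioi 1) :=
      (integrableOn_Ioi_rpow_of_lt (by norm_num) one_pos).const_mul _
    refine Integrable.mono' hg hc.aestronglyMeasurable ?_
    filter_upwards [ae_restrict_mem measurableSet_Ioi] with r hr
    have hr1 : (1:ℝ) < r := hr
    have hr0 : (0:ℝ) < r := by linarith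
    rw [Real.norm_eq_abs, abs_of_nonneg (by positivity)]
    calc r ^ n * √(l (r ^ 2) ^ (n + 1)) ≤ r ^ n * (C / r ^ 2) ^ (n + 1) :=
          mul_le_mul_of_nonneg_left (hb r hr1.le (n + 1)) (by positivity)
      _ ≤ C ^ (n + 1) * r ^ (-2 : ℝ) := by
          have e1 : r ^ (-2 : ℝ) = 1 / r ^ 2 := by
            rw [Real.rpow_neg hr0.le, one_div]
            norm_num
          rw [e1, div_pow, ← pow_mul]
          have e2 : r ^ n * (C ^ (n + 1) / r ^ (2 * (n + 1))) =
              C ^ (n + 1) * (1 / (r ^ 2 * r ^ n)) := by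
            have e3 : r ^ (2 * (n + 1)) = r ^ n * (r ^ 2 * r ^ n) := by ring
            rw [e3]
            field_simp
          rw [e2]
          refine mul_le_mul_of_nonneg_left ?_ (by positivity)
          rw [div_le_div_iff₀ (by positivity) (by positivity)]
          nlinarith [one_le_pow₀ hr1.le (n := n), sq_nonneg r]
  have h3 := h1.union h2
  rwa [Ioc_union_Ioi_eq_Ioi zero_le_one] at h3

theorem A_lim (hn : 1 ≤ n) :
    Tendsto (fun r : ℝ => r ^ n * √(l (r ^ 2) ^ n)) atTop (𝓝 0) := by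
  obtain ⟨C, hC, hb⟩ := l_bound G l hl
  have h1 : Tendsto (fun r : ℝ => C ^ n * (r ^ n)⁻¹) atTop (𝓝 0) := by
    have := (tendsto_pow_atTop (α := ℝ) (by omega : n ≠ 0)).inv_tendsto_atTop.const_mul (C ^ n)
    rw [mul_zero] at this
    exact this
  refine squeeze_zero' ?_ ?_ h1
  · filter_upwards [eventually_ge_atTop (0:ℝ)] with r hr
    positivity
  · filter_upwards [eventually_ge_atTop (1:ℝ)] with r hr
    have hr0 : (0:ℝ) < r := by linarith
    calc r ^ n * √(l (r ^ 2) ^ n) ≤ r ^ n * (C / r ^ 2) ^ n :=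
          mul_le_mul_of_nonneg_left (hb r hr n) (by positivity)
      _ = C ^ n * (r ^ n)⁻¹ := by
          rw [div_pow, ← pow_mul]
          have e3 : r ^ (2 * n) = r ^ n * r ^ n := by ring
          rw [e3]
          field_simp

end rot

end Pool.Agent.H93.CMC
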