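import Pool.Agent.H93.CMC.MI2
import Pool.Agent.H81.CMC.CutM

/-!
Sublevel sets, superlevel sets and slabs of a CMC function (helper81).
-/

open MeasureTheory Set Filter Topology Matrix

noncomputable section

namespace Pool.Agent.H93.CMC

variable {n : ℕ} {M : Type*} [TopologicalSpace M] {X : RiemMfd n M} {u : M → ℝ} {h : ℝ → ℝ}

/-- `u` is open at the points of the regular part -/
lemma map_nhds_I (H : IData X u h) {q : M} (hq : q ∈ Wr u) : map u (𝓝 q) = 𝓝 (u q) := by
  obtain ⟨i, x, rfl⟩ := X.cover q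
  obtain ⟨h1, h2, -⟩ := H.loc i x hq.1 hq.2
  have h3 : HasStrictFDerivAt (fun z => u (X.param i z))
      (fderiv ℝ (fun z => u (X.param i z)) x) x := h1.hasStrictFDerivAt (by simp)
  have h4 : (fderiv ℝ (fun z => u (X.param i z)) x).range = ⊤ := by
    have h5 : ((fderiv ℝ (fun z => u (X.param i z)) x : E n →L[ℝ] ℝ) : E n →ₗ[ℝ] ℝ) ≠ 0 := by
      intro h0
      apply h2
      ext v
      exact congrFun (congrArg DFunLike.coe h0) _
    exact LinearMap.range_eq_top.2 (LinearMap.surjective h5)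
  have h6 : map (fun z => u (X.param i z)) (𝓝 x) = 𝓝 (u (X.param i x)) :=
    h3.map_nhds_eq_of_surj h4
  rw [← (X.isOpenEmbedding i).map_nhds_eq, Filter.map_map]
  exact h6

lemma frontier_pre (H : IData X u h) {A : Set ℝ} (hA : frontier A ⊆ Ioo 0 1) :
    frontier (u ⁻¹' A) = u ⁻¹' frontier A := by
  refine Subset.antisymm (H.cont.frontier_preimage_subset A) fun q hq => ?_
  have hqW : q ∈ Wr u := hA hq
  have hm := map_nhds_I H hqW
  rw [mem_preimage, frontier_eq_closure_inter_closure] at hq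
  rw [frontier_eq_closure_inter_closure]
  constructor
  · rw [mem_closure_iff_frequently]
    have h1 := mem_closure_iff_frequently.1 hq.1
    rw [← hm, Filter.frequently_map] at h1
    exact h1
  · rw [mem_closure_iff_frequently]
    have h1 := mem_closure_iff_frequently.1 hq.2
    rw [← hm, Filter.frequently_map] at h1
    exact h1

/-- localisation: near `p` the function `u ∘ ψ_i - a` is a globally smooth function -/
lemma exists_local (H : IData X u h) (i : X.ι) {p : E n} (hp : X.param i p ∈ Wr u) :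
    ∃ (r : ℝ) (χ : E n → ℝ), 0 < r ∧ (∀ x ∈ _root_.Metric.ball p r, X.param i x ∈ Wr u) ∧
      (∀ x ∈ _root_.Metric.ball p r, χ x = 1) ∧
      ∀ a : ℝ, ContDiff ℝ (⊤ : ℕ∞) fun x => χ x * (u (X.param i x) - a) := by
  have hV : IsOpen (X.param i ⁻¹' Wr u) := (Wr_open H).preimage (X.isOpenEmbedding i).continuous
  obtain ⟨ρ, hρ, hsub⟩ := _root_.Metric.isOpen_iff.1 hV p hp
  have hr : 0 < ρ / 4 := by positivity
  refine ⟨ρ / 4, bmp p (ρ / 4), hr, fun x hx => hsub ?_, fun x hx => bmp_one hr hx, fun a => ?_⟩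
  · exact _root_.Metric.ball_subset_ball (by linarith) hx
  · rw [contDiff_iff_contDiffAt]
    intro x
    by_cases hx : x ∈ _root_.Metric.closedBall p (2 * (ρ / 4))
    · have hxW : X.param i x ∈ Wr u := hsub (by
        rw [_root_.Metric.mem_ball]
        rw [_root_.Metric.mem_closedBall] at hx
        linarith)
      exact (bmp_smooth p (ρ / 4)).contDiffAt.mul
        ((H.loc i x hxW.1 hxW.2).1.sub contDiffAt_const)
    · have h0 : (fun x => bmp p (ρ / 4) x * (u (X.param i x) - a)) =ᶠ[𝓝 x] fun _ => (0 : ℝ) := by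
        filter_upwards [_root_.Metric.isClosed_closedBall.isOpen_compl.mem_nhds hx] with z hz
        rw [bmp_out hr hz, zero_mul]
      exact ContDiffAt.congr_of_eventuallyEq contDiffAt_const h0

lemma local_lt (H : IData X u h) {A J : Set ℝ} {a : ℝ} (hJ : IsOpen J) (haJ : a ∈ J)
    (ha : a ∈ Ioo (0 : ℝ) 1) (hA : frontier A ⊆ Ioo 0 1) (h1 : ∀ t ∈ J, t ∈ A ↔ t < a)
    (h2 : ∀ t ∈ J, t ∈ frontier A ↔ t = a) (i : X.ι) {p : E n} (hp : u (X.param i p) = a) :
    ∃ (U : Set (E n)) (w : E n → ℝ), IsOpen U ∧ p ∈ U ∧ ContDiff ℝ (⊤ : ℕ∞) w ∧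
      (∀ x ∈ U, fderiv ℝ w x ≠ 0) ∧ (∀ x ∈ U, X.param i x ∈ u ⁻¹' A ↔ w x < 0) ∧
      (∀ x ∈ U, X.param i x ∈ frontier (u ⁻¹' A) ↔ w x = 0) ∧
      ∀ x ∈ U, w x = 0 → meanCurv (X.metric i) w x = h a := by
  have hpW : X.param i p ∈ Wr u := by rw [← hp] at ha; exact ha
  obtain ⟨r, χ, hr, hW, hχ, hsm⟩ := exists_local H i hpW
  have hfc : Continuous fun x => u (X.param i x) := H.cont.comp (X.isOpenEmbedding i).continuous
  have hev : ∀ x ∈ _root_.Metric.ball p r,
      (fun x => χ x * (u (X.param i x) - a)) =ᶠ[𝓝 x] fun x => u (X.param i x) - a := by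
    intro x hx
    filter_upwards [_root_.Metric.isOpen_ball.mem_nhds hx] with z hz
    rw [hχ z hz, one_mul]
  refine ⟨_root_.Metric.ball p r ∩ (fun x => u (X.param i x)) ⁻¹' J,
    fun x => χ x * (u (X.param i x) - a), _root_.Metric.isOpen_ball.inter (hJ.preimage hfc),
    ⟨_root_.Metric.mem_ball_self hr, by rw [mem_preimage, hp]; exact haJ⟩, hsm a, ?_, ?_, ?_, ?_⟩
  · rintro x ⟨hx, -⟩
    rw [(hev x hx).fderiv_eq, fderiv_sub_const]
    exact (H.loc i x (hW x hx).1 (hW x hx).2).2.1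
  · rintro x ⟨hx, hxJ⟩
    show u (X.param i x) ∈ A ↔ χ x * (u (X.param i x) - a) < 0
    rw [h1 _ hxJ, hχ x hx, one_mul, sub_neg]
  · rintro x ⟨hx, hxJ⟩
    rw [frontier_pre H hA]
    show u (X.param i x) ∈ frontier A ↔ χ x * (u (X.param i x) - a) = 0
    rw [h2 _ hxJ, hχ x hx, one_mul, sub_eq_zero]
  · rintro x ⟨hx, -⟩ hx0
    have hx0 : χ x * (u (X.param i x) - a) = 0 := hx0
    rw [hχ x hx, one_mul, sub_eq_zero] at hx0
    rw [meanCurv_congr _ (hev x hx), meanCurv_sub_const, (H.loc i x (hW x hx).1 (hW x hx).2).2.2, hx0]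

lemma local_gt (H : IData X u h) {A J : Set ℝ} {a : ℝ} (hJ : IsOpen J) (haJ : a ∈ J)
    (ha : a ∈ Ioo (0 : ℝ) 1) (hA : frontier A ⊆ Ioo 0 1) (h1 : ∀ t ∈ J, t ∈ A ↔ a < t)
    (h2 : ∀ t ∈ J, t ∈ frontier A ↔ t = a) (i : X.ι) {p : E n} (hp : u (X.param i p) = a) :
    ∃ (U : Set (E n)) (w : E n → ℝ), IsOpen U ∧ p ∈ U ∧ ContDiff ℝ (⊤ : ℕ∞) w ∧
      (∀ x ∈ U, fderiv ℝ w x ≠ 0) ∧ (∀ x ∈ U, X.param i x ∈ u ⁻¹' A ↔ w x < 0) ∧
      (∀ x ∈ U, X.param i x ∈ frontier (u ⁻¹' A) ↔ w x = 0) ∧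
      ∀ x ∈ U, w x = 0 → meanCurv (X.metric i) w x = - h a := by
  have hpW : X.param i p ∈ Wr u := by rw [← hp] at ha; exact ha
  obtain ⟨r, χ, hr, hW, hχ, hsm⟩ := exists_local H i hpW
  have hfc : Continuous fun x => u (X.param i x) := H.cont.comp (X.isOpenEmbedding i).continuous
  have hev : ∀ x ∈ _root_.Metric.ball p r,
      (fun x => 0 - χ x * (u (X.param i x) - a)) =ᶠ[𝓝 x] fun x => a - u (X.param i x) := by
    intro x hx
    filter_upwards [_root_.Metric.isOpen_ball.mem_nhds hx] with z hz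
    rw [hχ z hz]; ring
  refine ⟨_root_.Metric.ball p r ∩ (fun x => u (X.param i x)) ⁻¹' J,
    fun x => 0 - χ x * (u (X.param i x) - a), _root_.Metric.isOpen_ball.inter (hJ.preimage hfc),
    ⟨_root_.Metric.mem_ball_self hr, by rw [mem_preimage, hp]; exact haJ⟩,
    contDiff_const.sub (hsm a), ?_, ?_, ?_, ?_⟩
  · rintro x ⟨hx, -⟩
    rw [(hev x hx).fderiv_eq, fderiv_const_sub]
    exact neg_ne_zero.2 (H.loc i x (hW x hx).1 (hW x hx).2).2.1
  · rintro x ⟨hx, hxJ⟩
    show u (X.param i x) ∈ A ↔ 0 - χ x * (u (X.param i x) - a) < 0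
    rw [h1 _ hxJ, hχ x hx, one_mul]
    constructor <;> intro h <;> linarith
  · rintro x ⟨hx, hxJ⟩
    rw [frontier_pre H hA]
    show u (X.param i x) ∈ frontier A ↔ 0 - χ x * (u (X.param i x) - a) = 0
    rw [h2 _ hxJ, hχ x hx, one_mul]
    constructor <;> intro h <;> linarith
  · rintro x ⟨hx, -⟩ hx0
    have hx1 : u (X.param i x) = a := by
      have hx0 : 0 - χ x * (u (X.param i x) - a) = 0 := hx0
      rw [hχ x hx, one_mul] at hx0
      linarith
    rw [meanCurv_congr _ (hev x hx), meanCurv_const_sub, (H.loc i x (hW x hx).1 (hW x hx).2).2.2, hx1]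

lemma frontier_lt (H : IData X u h) {a : ℝ} (ha : a ∈ Ioo (0 : ℝ) 1) :
    frontier {q | u q < a} = {q | u q = a} := by
  have h1 := frontier_pre H (A := Iio a) (by rw [frontier_Iio]; exact singleton_subset_iff.2 ha)
  rw [frontier_Iio] at h1
  exact h1

lemma frontier_gt (H : IData X u h) {a : ℝ} (ha : a ∈ Ioo (0 : ℝ) 1) :
    frontier {q | a < u q} = {q | u q = a} := by
  have h1 := frontier_pre H (A := Ioi a) (by rw [frontier_Ioi]; exact singleton_subset_iff.2 ha)
  rw [frontier_Ioi] at h1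
  exact h1

lemma frontier_slab (H : IData X u h) {s b : ℝ} (hs : 0 < s) (hsb : s < b) (hb : b < 1) :
    frontier {q | s < u q ∧ u q < b} = {q | u q = s ∨ u q = b} := by
  have h1 := frontier_pre H (A := Ioo s b) (by
    rw [frontier_Ioo hsb]
    rintro x (rfl | rfl)
    · exact ⟨hs, hsb.trans hb⟩
    · exact ⟨hs.trans hsb, hb⟩)
  rw [frontier_Ioo hsb] at h1
  exact h1

lemma CMC_lt (H : IData X u h) {a : ℝ} (ha : a ∈ Ioo (0 : ℝ) 1) :
    CMCBoundaryM X {q | u q < a} := by
  refine ⟨h a, fun i p hp => ?_⟩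
  rw [frontier_lt H ha] at hp
  exact local_lt H (A := Iio a) (J := univ) isOpen_univ (mem_univ _) ha
    (by rw [frontier_Iio]; exact singleton_subset_iff.2 ha) (fun t _ => Iff.rfl)
    (fun t _ => by rw [frontier_Iio]; exact Iff.rfl) i hp

lemma CMC_gt (H : IData X u h) {a : ℝ} (ha : a ∈ Ioo (0 : ℝ) 1) :
    CMCBoundaryM X {q | a < u q} := by
  refine ⟨- h a, fun i p hp => ?_⟩
  rw [frontier_gt H ha] at hp
  exact local_gt H (A := Ioi a) (J := univ) isOpen_univ (mem_univ _) ha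
    (by rw [frontier_Ioi]; exact singleton_subset_iff.2 ha) (fun t _ => Iff.rfl)
    (fun t _ => by rw [frontier_Ioi]; exact Iff.rfl) i hp

lemma CMC_slab (H : IData X u h) {s b : ℝ} (hs : 0 < s) (hsb : s < b) (hb : b < 1)
    (hh : h b = - h s) : CMCBoundaryM X {q | s < u q ∧ u q < b} := by
  have hA : frontier (Ioo s b) ⊆ Ioo 0 1 := by
    rw [frontier_Ioo hsb]
    rintro x (rfl | rfl)
    · exact ⟨hs, hsb.trans hb⟩
    · exact ⟨hs.trans hsb, hb⟩
  refine ⟨h b, fun i p hp => ?_⟩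
  rw [frontier_slab H hs hsb hb] at hp
  rcases hp with hp | hp
  · have := local_gt H (A := Ioo s b) (J := Iio b) isOpen_Iio hsb ⟨hs, hsb.trans hb⟩ hA
      (fun t ht => ⟨fun h => h.1, fun h => ⟨h, ht⟩⟩)
      (fun t ht => by
        rw [frontier_Ioo hsb]
        constructor
        · rintro (h | h)
          · exact h
          · exact absurd h (ne_of_lt ht)
        · intro h; exact Or.inl h) i hp
    rw [hh]
    exact this
  · exact local_lt H (A := Ioo s b) (J := Ioi s) isOpen_Ioi hsb ⟨hs.trans hsb, hb⟩ hA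
      (fun t ht => ⟨fun h => h.2, fun h => ⟨ht, h⟩⟩)
      (fun t ht => by
        rw [frontier_Ioo hsb]
        constructor
        · rintro (h | h)
          · exact absurd h (ne_of_gt ht)
          · exact h
        · intro h; exact Or.inr h) i hp

lemma open_lt (H : IData X u h) (a : ℝ) : IsOpen {q | u q < a} := isOpen_lt H.cont continuous_const
lemma open_gt (H : IData X u h) (a : ℝ) : IsOpen {q | a < u q} := isOpen_lt continuous_const H.cont
lemma open_slab (H : IData X u h) (s b : ℝ) : IsOpen {q | s < u q ∧ u q < b} :=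
  (open_gt H s).inter (open_lt H b)

/-- all values are taken -/
lemma level_nonempty [CompactSpace M] (H : IData X u h) (hW : (Wr u).Nonempty) {t : ℝ}
    (ht : t ∈ Ioo (0 : ℝ) 1) : ∃ q, u q = t := by
  have ho : IsOpen (u '' Wr u) := by
    rw [isOpen_iff_mem_nhds]
    rintro _ ⟨q, hq, rfl⟩
    rw [← map_nhds_I H hq]
    exact image_mem_map ((Wr_open H).mem_nhds hq)
  have hc : IsClosed (range u) := (isCompact_range H.cont).isClosed
  have hsub : Ioo (0 : ℝ) 1 ⊆ u '' Wr u ∪ (range u)ᶜ := by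
    intro s hs
    by_cases h : s ∈ range u
    · obtain ⟨q, rfl⟩ := h
      exact Or.inl ⟨q, hs, rfl⟩
    · exact Or.inr h
  have hd : Disjoint (u '' Wr u) (range u)ᶜ := by
    rw [Set.disjoint_left]
    rintro _ ⟨q, _, rfl⟩ h
    exact h ⟨q, rfl⟩
  obtain ⟨q₀, hq₀⟩ := hW
  have := isPreconnected_Ioo.subset_left_of_subset_union ho hc.isOpen_compl hd hsub
    ⟨u q₀, hq₀, q₀, hq₀, rfl⟩
  obtain ⟨q, -, hq⟩ := this ht
  exact ⟨q, hq⟩

/-- `n`-dimensional Hausdorff measure zero implies measure zero -/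
lemma HNull.volume_zero {A : Set (E n)} (hA : HNull A) : volume A = 0 := by
  refine le_antisymm (le_of_forall_pos_le_add fun ε hε => ?_) bot_le
  rw [zero_add]
  by_cases hεt : ε = ⊤
  · rw [hεt]; exact le_top
  have hε' : 0 < ε.toReal := ENNReal.toReal_pos hε.ne' hεt
  have hδ : 0 < min (ε.toReal / 2 ^ (n + 1)) 1 := lt_min (by positivity) one_pos
  obtain ⟨c, r, hr, hcov, hsum, hlt⟩ := hA _ hδ
  have hr1 : ∀ j, r j ≤ 1 := by
    intro j
    by_contra hcon
    have h1 : r j ^ n ≤ ∑' k, r k ^ n := hsum.le_tsum j fun k _ => pow_nonneg (hr k).le n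
    have h2 : (1 : ℝ) ≤ r j ^ n := one_le_pow₀ (not_le.1 hcon).le
    have h3 := hlt.trans_le (min_le_right _ _)
    linarith
  have hb : ∀ j, volume (_root_.Metric.ball (c j) (r j)) ≤ ENNReal.ofReal (2 ^ (n + 1) * r j ^ n) := by
    intro j
    rw [Real.volume_pi_ball (c j) (hr j)]
    apply ENNReal.ofReal_le_ofReal
    simp only [Fintype.card_fin]
    rw [mul_pow, pow_succ (r j)]
    have h1 : r j ^ n * r j ≤ r j ^ n * 1 :=
      mul_le_mul_of_nonneg_left (hr1 j) (pow_nonneg (hr j).le n)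
    rw [mul_one] at h1
    exact mul_le_mul_of_nonneg_left h1 (by positivity)
  calc volume A ≤ volume (⋃ j, _root_.Metric.ball (c j) (r j)) := measure_mono hcov
    _ ≤ ∑' j, volume (_root_.Metric.ball (c j) (r j)) := measure_iUnion_le _
    _ ≤ ∑' j, ENNReal.ofReal (2 ^ (n + 1) * r j ^ n) := ENNReal.tsum_le_tsum hb
    _ = ENNReal.ofReal (∑' j, 2 ^ (n + 1) * r j ^ n) :=
        (ENNReal.ofReal_tsum_of_nonneg (fun j => mul_nonneg (by positivity) (pow_nonneg (hr j).le n))
          (hsum.mul_left _)).symm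
    _ ≤ ε := by
        rw [tsum_mul_left, ENNReal.ofReal_le_iff_le_toReal hεt]
        have h1 := hlt.le.trans (min_le_left _ _)
        calc (2 : ℝ) ^ (n + 1) * ∑' j, r j ^ n ≤ 2 ^ (n + 1) * (ε.toReal / 2 ^ (n + 1)) :=
              mul_le_mul_of_nonneg_left h1 (by positivity)
          _ = ε.toReal := by field_simp

/-- level sets are null in the charts -/
lemma level_null_chart (H : IData X u h) (i : X.ι) {t : ℝ} (ht : t ∈ Ioo (0 : ℝ) 1) :
    volume {x | u (X.param i x) = t} = 0 := by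
  refine measure_null_of_locally_null _ fun x hx => ?_
  have hx' : u (X.param i x) = t := hx
  have hxW : X.param i x ∈ Wr u := by
    show 0 < u (X.param i x) ∧ u (X.param i x) < 1
    rw [hx']; exact ht
  obtain ⟨r, χ, hr, hW, hχ, hsm⟩ := exists_local H i hxW
  set w : E n → ℝ := fun x => χ x * (u (X.param i x) - t) with hw
  have hsw : ContDiff ℝ (⊤ : ℕ∞) w := hsm t
  have hev : w =ᶠ[𝓝 x] fun x => u (X.param i x) - t := by
    filter_upwards [_root_.Metric.ball_mem_nhds x hr] with z hz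
    rw [hw]
    show χ z * (u (X.param i z) - t) = _
    rw [hχ z hz, one_mul]
  have hne : fderiv ℝ w x ≠ 0 := by
    rw [hev.fderiv_eq, fderiv_sub_const]
    exact (H.loc i x hxW.1 hxW.2).2.1
  obtain ⟨v, hv⟩ : ∃ v, fderiv ℝ w x v ≠ 0 := by
    by_contra hcon
    push Not at hcon
    exact hne (ContinuousLinearMap.ext hcon)
  have hc : Continuous fun y => fderiv ℝ w y v :=
    (hsw.continuous_fderiv (by simp)).clm_apply continuous_const
  have ho : IsOpen {y | fderiv ℝ w y v ≠ 0} := isOpen_ne_fun hc continuous_const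
  obtain ⟨ε, hε, hsub⟩ := _root_.Metric.isOpen_iff.1 ho x hv
  refine ⟨{y | u (X.param i y) = t} ∩ _root_.Metric.ball x (min ε r), ?_, ?_⟩
  · exact inter_mem_nhdsWithin _ (_root_.Metric.ball_mem_nhds x (lt_min hε hr))
  · refine measure_mono_null ?_ (level_null81_local hsw v (convex_ball x (min ε r)) measurableSet_ball
      (fun y hy => hsub (_root_.Metric.ball_subset_ball (min_le_left _ _) hy)) 0)
    rintro y ⟨hy1, hy2⟩
    refine ⟨?_, hy2⟩
    show χ y * (u (X.param i y) - t) = 0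
    have hy1' : u (X.param i y) = t := hy1
    rw [hy1', sub_self, mul_zero]

section measure

variable [MeasurableSpace M] [BorelSpace M] {μ : Measure M}

lemma level_null_I [CompactSpace M] (H : IData X u h) (hμ : IsVolume X μ) (t : ℝ) :
    μ {q | u q = t} = 0 := by
  have hmeas : MeasurableSet {q | u q = t} := (isClosed_eq H.cont continuous_const).measurableSet
  refine vol_null hμ hmeas fun i => ?_
  by_cases ht : t ∈ Ioo (0 : ℝ) 1
  · exact level_null_chart H i ht
  · refine measure_mono_null ?_ (H.null i)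
    intro x hx
    have hx' : u (X.param i x) = t := hx
    have h1 := H.mem (X.param i x)
    rw [hx'] at h1
    show u (X.param i x) = 0 ∨ u (X.param i x) = 1
    rw [hx']
    by_contra hcon
    rw [not_or] at hcon
    exact ht ⟨lt_of_le_of_ne h1.1 (Ne.symm hcon.1), lt_of_le_of_ne h1.2 hcon.2⟩

lemma slab_pos [CompactSpace M] (H : IData X u h) (hμ : IsVolume X μ) (hW : (Wr u).Nonempty)
    {s b : ℝ} (hs : 0 ≤ s) (hsb : s < b) (hb : b ≤ 1) : 0 < μ {q | s < u q ∧ u q < b} := by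
  obtain ⟨q, hq⟩ := level_nonempty H hW (t := (s + b) / 2) ⟨by linarith, by linarith⟩
  exact vol_pos hμ (open_slab H s b) ⟨q, by show s < u q ∧ u q < b; rw [hq]; constructor <;> linarith⟩

end measure

end Pool.Agent.H93.CMC
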