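import Pool.Agent.H93.CMC.MGen2
import Pool.Agent.H81.CMC.PartM
import Pool.Agent.H93.CMC.BSlab

/-!
Slabs `{a < θ < b}` in a closed Riemannian manifold fibred over the circle (helper81).
-/

open MeasureTheory Set Filter Topology

noncomputable section

namespace Pool.Agent.H93.CMC

variable {n : ℕ} {M : Type*} [TopologicalSpace M] {X : RiemMfd n M}
  {θ : M → AddCircle (1 : ℝ)} {h : AddCircle (1 : ℝ) → ℝ} {u : X.ι → E n → ℝ}

/-- the part of `M` over the arc `(a, b)` -/
def SlabM (θ : M → AddCircle (1 : ℝ)) (a b : ℝ) : Set M :=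
  {q | ∃ t ∈ Om a b, (t : AddCircle (1 : ℝ)) = θ q}

lemma coe_add_int (t : ℝ) (k : ℤ) : ((t + k : ℝ) : AddCircle (1 : ℝ)) = (t : AddCircle (1 : ℝ)) := by
  rw [AddCircle.coe_add]
  have : ((k : ℝ) : AddCircle (1 : ℝ)) = 0 := (AddCircle.coe_eq_zero_iff (1 : ℝ)).2 ⟨k, by simp⟩
  rw [this, add_zero]

omit [TopologicalSpace M] in
lemma mem_SlabM_iff {a b t : ℝ} {q : M} (hq : θ q = (t : AddCircle (1 : ℝ))) :
    q ∈ SlabM θ a b ↔ t ∈ Om a b := by
  constructor
  · rintro ⟨s, hs, hst⟩
    rw [hq] at hst
    obtain ⟨k, hk⟩ := coe_eq_int hst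
    have e : s = t + k := by linarith
    rw [e] at hs
    exact (Om_add_int a b k t).1 hs
  · intro ht
    exact ⟨t, ht, hq.symm⟩

lemma SlabM_chart (H : FibData X θ h u) (a b : ℝ) (i : X.ι) (x : E n) :
    X.param i x ∈ SlabM θ a b ↔ u i x ∈ Om a b := mem_SlabM_iff (H.lift i x)

lemma SlabM_preimage (H : FibData X θ h u) (a b : ℝ) (i : X.ι) :
    X.param i ⁻¹' SlabM θ a b = u i ⁻¹' Om a b := by
  ext x
  exact SlabM_chart H a b i x

lemma SlabM_open (H : FibData X θ h u) (a b : ℝ) : IsOpen (SlabM θ a b) := by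
  rw [isOpen_iff_mem_nhds]
  intro q hq
  obtain ⟨i, x, rfl⟩ := X.cover q
  have h1 : IsOpen (X.param i ⁻¹' SlabM θ a b) := by
    rw [SlabM_preimage H]
    exact (Om_open a b).preimage (H.smooth i).continuous
  have h2 : IsOpen (X.param i '' (X.param i ⁻¹' SlabM θ a b)) :=
    (X.isOpenEmbedding i).isOpenMap _ h1
  exact mem_of_superset (h2.mem_nhds ⟨x, hq, rfl⟩) (image_preimage_subset _ _)

lemma SlabM_frontier (H : FibData X θ h u) {a b : ℝ} (h1 : a < b) (h2 : b < a + 1) (i : X.ι)
    (x : E n) : X.param i x ∈ frontier (SlabM θ a b) ↔ ∃ k : ℤ, u i x = a + k ∨ u i x = b + k := by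
  have e1 : X.param i ⁻¹' frontier (SlabM θ a b) = frontier (X.param i ⁻¹' SlabM θ a b) :=
    (X.isOpenEmbedding i).isOpenMap.preimage_frontier_eq_frontier_preimage
      (X.isOpenEmbedding i).continuous _
  have e2 : u i ⁻¹' frontier (Om a b) = frontier (u i ⁻¹' Om a b) :=
    (isOpenMap_of_fderiv_ne (H.smooth i) (H.ne i)).preimage_frontier_eq_frontier_preimage
      (H.smooth i).continuous _
  have e3 : X.param i x ∈ frontier (SlabM θ a b) ↔ u i x ∈ frontier (Om a b) := by
    show x ∈ X.param i ⁻¹' frontier (SlabM θ a b) ↔ x ∈ u i ⁻¹' frontier (Om a b)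
    rw [e1, e2, SlabM_preimage H]
  rw [e3, Om_frontier h1 h2]
  rfl

lemma SlabM_CMC (H : FibData X θ h u) {a b : ℝ} (h1 : a < b) (h2 : b < a + 1)
    (hh : h (b : AddCircle (1 : ℝ)) = - h (a : AddCircle (1 : ℝ))) :
    CMCBoundaryM X (SlabM θ a b) := by
  refine ⟨h (b : AddCircle (1 : ℝ)), fun i p hp => ?_⟩
  have hfr := SlabM_frontier H h1 h2 i
  have huc : Continuous (u i) := (H.smooth i).continuous
  have hud : Differentiable ℝ (u i) := (H.smooth i).differentiable (by simp)
  rw [hfr] at hp
  obtain ⟨k, hk | hk⟩ := hp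
  · refine ⟨{x | b + k - 1 < u i x ∧ u i x < b + k}, fun z => (a + k) - u i z,
      ?_, ?_, ?_, ?_, ?_, ?_, ?_⟩
    · exact (isOpen_lt continuous_const huc).inter (isOpen_lt huc continuous_const)
    · exact ⟨by rw [hk]; linarith, by rw [hk]; linarith⟩
    · exact contDiff_const.sub (H.smooth i)
    · intro x _
      rw [fderiv_const_sub]
      exact neg_ne_zero.2 (H.ne i x)
    · rintro x ⟨hx1, hx2⟩
      have := Om_window' h2 k hx1 hx2
      rw [SlabM_chart H, this]
      constructor <;> intro h <;> linarith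
    · rintro x ⟨hx1, hx2⟩
      rw [hfr]
      constructor
      · rintro ⟨l, hl | hl⟩
        · have h3 : (l : ℝ) < k + 1 := by linarith
          have h4 : (k : ℝ) - 1 < l := by linarith
          have h5 : l < k + 1 := by exact_mod_cast h3
          have h6 : k - 1 < l := by exact_mod_cast h4
          have h7 : l = k := by omega
          rw [h7] at hl
          linarith
        · have h3 : (l : ℝ) < k := by linarith
          have h4 : (k : ℝ) - 1 < l := by linarith
          have h5 : l < k := by exact_mod_cast h3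
          have h6 : k - 1 < l := by exact_mod_cast h4
          omega
      · intro h
        exact ⟨k, Or.inl (by linarith)⟩
    · rintro x _ hx
      have hx0 : u i x = a + k := by linarith
      rw [meanCurv_const_sub, H.mc, H.lift, hx0, coe_add_int, hh]
  · refine ⟨{x | a + k < u i x ∧ u i x < a + k + 1}, fun z => u i z - (b + k),
      ?_, ?_, ?_, ?_, ?_, ?_, ?_⟩
    · exact (isOpen_lt continuous_const huc).inter (isOpen_lt huc continuous_const)
    · exact ⟨by rw [hk]; linarith, by rw [hk]; linarith⟩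
    · exact (H.smooth i).sub contDiff_const
    · intro x _
      rw [fderiv_sub_const]
      exact H.ne i x
    · rintro x ⟨hx1, hx2⟩
      have := Om_window h2 k hx1 hx2
      rw [SlabM_chart H, this]
      constructor <;> intro h <;> linarith
    · rintro x ⟨hx1, hx2⟩
      rw [hfr]
      constructor
      · rintro ⟨l, hl | hl⟩
        · have h3 : (l : ℝ) < k + 1 := by linarith
          have h4 : (k : ℝ) < l := by linarith
          have h5 : l < k + 1 := by exact_mod_cast h3
          have h6 : k < l := by exact_mod_cast h4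
          omega
        · have h3 : (l : ℝ) < k + 1 := by linarith
          have h4 : (k : ℝ) - 1 < l := by linarith
          have h5 : l < k + 1 := by exact_mod_cast h3
          have h6 : k - 1 < l := by exact_mod_cast h4
          have h7 : l = k := by omega
          rw [h7] at hl
          linarith
      · intro h
        exact ⟨k, Or.inr (by linarith)⟩
    · rintro x _ hx
      have hx0 : u i x = b + k := by linarith
      rw [meanCurv_sub_const, H.mc, H.lift, hx0, coe_add_int]

end Pool.Agent.H93.CMC
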